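import Mathlib

namespace Pool.Agent.Lib.MP_dacecb_an

open Finset

theorem far1 (e L : ℕ) (hL : 1 ≤ L) (B : Finset ℕ) (hB : ∀ n ∈ B, L < n) :
    ∑ n ∈ B, (1 / (n : ℝ)) ^ (e + 2) ≤ (1 / (L : ℝ)) ^ (e + 1) := by
  have hL0 : (0 : ℝ) < L := by exact_mod_cast hL
  obtain ⟨N, hN⟩ : ∃ N, ∀ n ∈ B, n ≤ N := ⟨B.sup id, fun n hn => Finset.le_sup (f := id) hn⟩
  have hsub : B ⊆ Ioc L (max L N) := fun n hn =>
    Finset.mem_Ioc.2 ⟨hB n hn, (hN n hn).trans (le_max_right _ _)⟩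
  have h1 : ∑ n ∈ B, (1 / (n : ℝ)) ^ (e + 2) ≤ ∑ n ∈ B, (1 / (L : ℝ)) ^ e * ((n : ℝ) ^ 2)⁻¹ := by
    apply Finset.sum_le_sum
    intro n hn
    have hn' : (L : ℝ) ≤ n := by exact_mod_cast (hB n hn).le
    have hn0 : (0 : ℝ) < n := hL0.trans_le hn'
    rw [pow_add, one_div_pow (n : ℝ) 2, one_div ((n : ℝ) ^ 2)]
    apply mul_le_mul_of_nonneg_right _ (by positivity)
    exact pow_le_pow_left₀ (by positivity) (one_div_le_one_div_of_le hL0 hn') _
  have h2 : ∑ n ∈ B, ((n : ℝ) ^ 2)⁻¹ ≤ (L : ℝ)⁻¹ := by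
    calc ∑ n ∈ B, ((n : ℝ) ^ 2)⁻¹ ≤ ∑ n ∈ Ioc L (max L N), ((n : ℝ) ^ 2)⁻¹ :=
          Finset.sum_le_sum_of_subset_of_nonneg hsub fun _ _ _ => by positivity
      _ ≤ (L : ℝ)⁻¹ - ((max L N : ℕ) : ℝ)⁻¹ :=
          sum_Ioc_inv_sq_le_sub (by omega) (le_max_left _ _)
      _ ≤ _ := sub_le_self _ (by positivity)
  rw [← Finset.mul_sum] at h1
  calc _ ≤ (1 / (L : ℝ)) ^ e * (L : ℝ)⁻¹ :=
        h1.trans (mul_le_mul_of_nonneg_left h2 (by positivity))
    _ = _ := by rw [pow_succ, one_div]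

theorem far2 (e L m : ℕ) (hL : 1 ≤ L) (B : Finset ℕ) (hB : ∀ n ∈ B, m + L < n ∨ n + L < m) :
    ∑ n ∈ B, (1 / |(m : ℝ) - n|) ^ (e + 2) ≤ 2 * (1 / (L : ℝ)) ^ (e + 1) := by
  rw [← Finset.sum_filter_add_sum_filter_not B (fun n => m < n), two_mul]
  apply add_le_add
  · have h1 : ∑ n ∈ B.filter (fun n => m < n), (1 / |(m : ℝ) - n|) ^ (e + 2) =
        ∑ n ∈ (B.filter (fun n => m < n)).image (fun n => n - m), (1 / (n : ℝ)) ^ (e + 2) := by
      rw [Finset.sum_image]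
      · apply Finset.sum_congr rfl
        intro n hn
        have := (Finset.mem_filter.1 hn).2
        rw [Nat.cast_sub this.le, abs_sub_comm, abs_of_nonneg]
        exact sub_nonneg.2 (by exact_mod_cast this.le)
      · intro x hx y hy hxy
        have h1 := (Finset.mem_filter.1 hx).2
        have h2 := (Finset.mem_filter.1 hy).2
        simp only at hxy
        omega
    rw [h1]
    apply far1 e L hL
    intro n hn
    obtain ⟨k, hk, rfl⟩ := Finset.mem_image.1 hn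
    have h1 := (Finset.mem_filter.1 hk).2
    have h2 := hB k (Finset.mem_filter.1 hk).1
    omega
  · have h1 : ∑ n ∈ B.filter (fun n => ¬ m < n), (1 / |(m : ℝ) - n|) ^ (e + 2) =
        ∑ n ∈ (B.filter (fun n => ¬ m < n)).image (fun n => m - n), (1 / (n : ℝ)) ^ (e + 2) := by
      rw [Finset.sum_image]
      · apply Finset.sum_congr rfl
        intro n hn
        have := not_lt.1 (Finset.mem_filter.1 hn).2
        rw [Nat.cast_sub this, abs_of_nonneg]
        exact sub_nonneg.2 (by exact_mod_cast this)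
      · intro x hx y hy hxy
        have h1 := (Finset.mem_filter.1 hx).2
        have h2 := (Finset.mem_filter.1 hy).2
        simp only at hxy
        omega
    rw [h1]
    apply far1 e L hL
    intro n hn
    obtain ⟨k, hk, rfl⟩ := Finset.mem_image.1 hn
    have h1 := (Finset.mem_filter.1 hk).2
    have h2 := hB k (Finset.mem_filter.1 hk).1
    omega

theorem far_of_not_near {L m n : ℕ} (hL : 1 ≤ L)
    (h : ¬ (n / L ≤ m / L + 1 ∧ m / L ≤ n / L + 1)) : m + L < n ∨ n + L < m := by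
  have key : ∀ x y : ℕ, x / L + 1 < y / L → x + L < y := by
    intro x y hxy
    have h1 : x < L * (x / L + 1) := Nat.lt_mul_div_succ x hL
    have h2 : L * (y / L) ≤ y := Nat.mul_div_le y L
    have h3 : L * (x / L + 2) ≤ L * (y / L) := Nat.mul_le_mul_left L hxy
    have h4 : L * (x / L + 2) = L * (x / L + 1) + L := by ring
    omega
  rcases not_and_or.1 h with h | h
  · exact Or.inl (key _ _ (by omega))
  · exact Or.inr (key _ _ (by omega))

theorem card_near (L I : ℕ) (hL : 1 ≤ L) (B : Finset ℕ)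
    (hB : ∀ n ∈ B, n / L ≤ I + 1 ∧ I ≤ n / L + 1) : B.card ≤ 3 * L := by
  have hsub : B ⊆ Ico ((I - 1) * L) ((I - 1) * L + 3 * L) := by
    intro n hn
    obtain ⟨h1, h2⟩ := hB n hn
    have h3 : n < L * (n / L + 1) := Nat.lt_mul_div_succ n hL
    have h4 : L * (n / L) ≤ n := Nat.mul_div_le n L
    generalize n / L = q at *
    have h5 : L * (I - 1) ≤ L * q := Nat.mul_le_mul_left L (by omega)
    have h6 : L * (q + 1) ≤ L * (I - 1 + 3) := Nat.mul_le_mul_left L (by omega)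
    have h7 : L * (I - 1 + 3) = (I - 1) * L + 3 * L := by ring
    have h8 : L * (I - 1) = (I - 1) * L := by ring
    rw [Finset.mem_Ico]
    omega
  simpa using Finset.card_le_card hsub

theorem pair (e L : ℕ) (hL : 1 ≤ L) (T E : ℕ → ℕ → ℝ) (y z b b' : ℕ → ℝ) (κ : ℝ) (hκ : 0 ≤ κ)
    (hz : ∀ m, 0 ≤ z m) (hE : ∀ m n, 0 ≤ E m n)
    (hnear : ∀ B B' : Finset ℕ, B.card ≤ 3 * L → B'.card ≤ 3 * L →
      ∑ m ∈ B, ∑ n ∈ B', T m n ≤ ∑ m ∈ B, y m + ∑ n ∈ B', z n)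
    (hfar : ∀ m n, m ≠ n → T m n ≤ E m n / 2 + κ * (1 / |(m : ℝ) - n|) ^ (e + 2) * (b m * b' n))
    (A : Finset ℕ) :
    ∑ m ∈ A, ∑ n ∈ A, T m n ≤ ∑ m ∈ A, y m + 3 * ∑ m ∈ A, z m + (∑ m ∈ A, ∑ n ∈ A, E m n) / 2 +
      κ * (1 / (L : ℝ)) ^ (e + 1) * (∑ m ∈ A, b m ^ 2 + ∑ m ∈ A, b' m ^ 2) := by
  set nr : ℕ → ℕ → Prop := fun I n => n / L ≤ I + 1 ∧ I ≤ n / L + 1 with hnr
  have hsplit : ∑ m ∈ A, ∑ n ∈ A, T m n = ∑ m ∈ A, ∑ n ∈ A.filter (nr (m / L)), T m n +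
      ∑ m ∈ A, ∑ n ∈ A.filter (fun n => ¬ nr (m / L) n), T m n := by
    rw [← Finset.sum_add_distrib]
    exact Finset.sum_congr rfl fun m _ => (Finset.sum_filter_add_sum_filter_not _ _ _).symm
  have hN : ∑ m ∈ A, ∑ n ∈ A.filter (nr (m / L)), T m n ≤ ∑ m ∈ A, y m + 3 * ∑ m ∈ A, z m := by
    set P := A.image (fun m => m / L) with hP
    have hmaps : ∀ m ∈ A, m / L ∈ P := fun m hm => Finset.mem_image_of_mem _ hm
    rw [← Finset.sum_fiberwise_of_maps_to hmaps, ← Finset.sum_fiberwise_of_maps_to hmaps (f := y)]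
    have h1 : ∑ I ∈ P, ∑ n ∈ A.filter (nr I), z n ≤ 3 * ∑ m ∈ A, z m := by
      simp only [Finset.sum_filter]
      rw [Finset.sum_comm, Finset.mul_sum]
      apply Finset.sum_le_sum
      intro n _
      rw [← Finset.sum_filter, Finset.sum_const, nsmul_eq_mul]
      apply mul_le_mul_of_nonneg_right _ (hz n)
      have := card_near 1 (n / L) le_rfl (P.filter fun I => nr I n) (by
        intro I hI
        have := (Finset.mem_filter.1 hI).2
        simp only [hnr] at this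
        simp only [Nat.div_one]
        omega)
      exact_mod_cast this
    refine le_trans ?_ (add_le_add le_rfl h1)
    rw [← Finset.sum_add_distrib]
    apply Finset.sum_le_sum
    intro I _
    have h2 : ∑ m ∈ A.filter (fun m => m / L = I), ∑ n ∈ A.filter (nr (m / L)), T m n =
        ∑ m ∈ A.filter (fun m => m / L = I), ∑ n ∈ A.filter (nr I), T m n :=
      Finset.sum_congr rfl fun m hm => by rw [(Finset.mem_filter.1 hm).2]
    rw [h2]
    apply hnear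
    · apply card_near L I hL
      intro n hn
      have := (Finset.mem_filter.1 hn).2
      omega
    · apply card_near L I hL
      intro n hn
      exact (Finset.mem_filter.1 hn).2
  have hF : ∑ m ∈ A, ∑ n ∈ A.filter (fun n => ¬ nr (m / L) n), T m n ≤
      (∑ m ∈ A, ∑ n ∈ A, E m n) / 2 +
      κ * (1 / (L : ℝ)) ^ (e + 1) * (∑ m ∈ A, b m ^ 2 + ∑ m ∈ A, b' m ^ 2) := by
    set h : ℕ → ℕ → ℝ := fun m n => (1 / |(m : ℝ) - n|) ^ (e + 2) with hh
    have hh0 : ∀ m n, 0 ≤ h m n := fun m n => by positivity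
    have h1 : ∑ m ∈ A, ∑ n ∈ A.filter (fun n => ¬ nr (m / L) n), T m n ≤
        ∑ m ∈ A, ∑ n ∈ A.filter (fun n => ¬ nr (m / L) n),
          (E m n / 2 + (κ / 2 * (h m n * b m ^ 2) + κ / 2 * (h m n * b' n ^ 2))) := by
      apply Finset.sum_le_sum
      intro m _
      apply Finset.sum_le_sum
      intro n hn
      have hmn := far_of_not_near hL (Finset.mem_filter.1 hn).2
      refine (hfar m n (by omega)).trans (add_le_add le_rfl ?_)
      have h3 : b m * b' n ≤ (b m ^ 2 + b' n ^ 2) / 2 := by nlinarith [sq_nonneg (b m - b' n)]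
      calc κ * h m n * (b m * b' n) ≤ κ * h m n * ((b m ^ 2 + b' n ^ 2) / 2) :=
            mul_le_mul_of_nonneg_left h3 (mul_nonneg hκ (hh0 m n))
        _ = _ := by ring
    refine h1.trans ?_
    simp only [Finset.sum_add_distrib, ← Finset.mul_sum, ← Finset.sum_div]
    have h2 : ∑ m ∈ A, ∑ n ∈ A.filter (fun n => ¬ nr (m / L) n), E m n ≤
        ∑ m ∈ A, ∑ n ∈ A, E m n :=
      Finset.sum_le_sum fun m _ =>
        Finset.sum_le_sum_of_subset_of_nonneg (Finset.filter_subset _ _) fun n _ _ => hE m n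
    have h3 : ∑ m ∈ A, ∑ n ∈ A.filter (fun n => ¬ nr (m / L) n), h m n * b m ^ 2 ≤
        2 * (1 / (L : ℝ)) ^ (e + 1) * ∑ m ∈ A, b m ^ 2 := by
      rw [Finset.mul_sum]
      apply Finset.sum_le_sum
      intro m _
      rw [← Finset.sum_mul]
      apply mul_le_mul_of_nonneg_right _ (sq_nonneg _)
      exact far2 e L m hL _ fun n hn => far_of_not_near hL (Finset.mem_filter.1 hn).2
    have h4 : ∑ m ∈ A, ∑ n ∈ A.filter (fun n => ¬ nr (m / L) n), h m n * b' n ^ 2 ≤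
        2 * (1 / (L : ℝ)) ^ (e + 1) * ∑ m ∈ A, b' m ^ 2 := by
      simp only [Finset.sum_filter]
      rw [Finset.sum_comm, Finset.mul_sum]
      apply Finset.sum_le_sum
      intro n _
      rw [← Finset.sum_filter, ← Finset.sum_mul]
      apply mul_le_mul_of_nonneg_right _ (sq_nonneg _)
      have := far2 e L n hL (A.filter fun m => ¬ nr (m / L) n) fun m hm =>
        (far_of_not_near hL (Finset.mem_filter.1 hm).2).symm
      refine le_trans (le_of_eq ?_) this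
      exact Finset.sum_congr rfl fun m _ => by simp only [hh]; rw [abs_sub_comm]
    have h5 := mul_le_mul_of_nonneg_left h3 (div_nonneg hκ zero_le_two)
    have h6 := mul_le_mul_of_nonneg_left h4 (div_nonneg hκ zero_le_two)
    linarith
  linarith

theorem sum_half_dist (k : ℕ) (K : Finset ℕ) :
    ∑ l ∈ K, (1 / 2 : ℝ) ^ (k - l + (l - k)) ≤ 4 := by
  have geo : ∀ B : Finset ℕ, ∑ n ∈ B, (1 / 2 : ℝ) ^ n ≤ 2 := fun B =>
    (summable_geometric_two.sum_le_tsum B fun _ _ => by positivity).trans_eq tsum_geometric_two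
  rw [← Finset.sum_filter_add_sum_filter_not K (fun n => k < n)]
  have h1 : ∑ l ∈ K.filter (fun n => k < n), (1 / 2 : ℝ) ^ (k - l + (l - k)) =
      ∑ n ∈ (K.filter (fun n => k < n)).image (fun n => n - k), (1 / 2 : ℝ) ^ n := by
    rw [Finset.sum_image]
    · apply Finset.sum_congr rfl
      intro n hn
      have := (Finset.mem_filter.1 hn).2
      congr 1
      omega
    · intro x hx y hy hxy
      have h1 := (Finset.mem_filter.1 hx).2
      have h2 := (Finset.mem_filter.1 hy).2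
      simp only at hxy
      omega
  have h2 : ∑ l ∈ K.filter (fun n => ¬ k < n), (1 / 2 : ℝ) ^ (k - l + (l - k)) =
      ∑ n ∈ (K.filter (fun n => ¬ k < n)).image (fun n => k - n), (1 / 2 : ℝ) ^ n := by
    rw [Finset.sum_image]
    · apply Finset.sum_congr rfl
      intro n hn
      have := (Finset.mem_filter.1 hn).2
      congr 1
      omega
    · intro x hx y hy hxy
      have h1 := (Finset.mem_filter.1 hx).2
      have h2 := (Finset.mem_filter.1 hy).2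
      simp only at hxy
      omega
  rw [h1, h2]
  linarith [geo ((K.filter (fun n => k < n)).image (fun n => n - k)),
    geo ((K.filter (fun n => ¬ k < n)).image (fun n => k - n))]

theorem core (e : ℕ) (T E : ℕ × ℕ → ℕ × ℕ → ℝ) (a b : ℕ × ℕ → ℝ) (Λ Θ : ℝ) (w : ℕ → ℝ)
    (κ : ℕ → ℕ → ℝ) (L : ℕ → ℕ → ℕ) (hΛ : 0 ≤ Λ) (hΘ : 0 ≤ Θ) (hw : ∀ k, 0 ≤ w k)
    (hκ0 : ∀ k l, 0 ≤ κ k l) (ha : ∀ α, 0 ≤ a α)
    (hL : ∀ k l, 1 ≤ L k l) (hLw : ∀ k l, k ≤ l → L k l * w l ≤ Λ * ((1 / 2) ^ (l - k)) ^ 2)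
    (hκ : ∀ k l, k ≤ l → κ k l * (1 / (L k l : ℝ)) ^ (e + 1) ≤ Θ * (1 / 2) ^ (l - k))
    (hCS : ∀ (A B : Finset (ℕ × ℕ)) (η : ℝ), 0 < η → ∑ α ∈ A, ∑ β ∈ B, T α β ≤
      η / 2 * ∑ α ∈ A, ∑ β ∈ A, T α β + 1 / (2 * η) * ∑ α ∈ B, ∑ β ∈ B, T α β)
    (hdiag : ∀ α, T α α ≤ w α.2 * a α)
    (hfar : ∀ α β : ℕ × ℕ, α.1 ≠ β.1 → T α β ≤
      E α β / 2 + κ α.2 β.2 * (1 / |(α.1 : ℝ) - β.1|) ^ (e + 2) * (b α * b β))
    (hE0 : ∀ α β, 0 ≤ E α β)
    (hE : ∀ A : Finset (ℕ × ℕ), ∑ α ∈ A, ∑ β ∈ A, E α β ≤ ∑ α ∈ A, ∑ β ∈ A, T α β)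
    (hTs : ∀ α β, T α β = T β α) (hEs : ∀ α β, E α β = E β α) (A K : Finset ℕ) :
    ∑ α ∈ A ×ˢ K, ∑ β ∈ A ×ˢ K, T α β ≤
      96 * Λ * ∑ α ∈ A ×ˢ K, a α + 48 * Θ * ∑ α ∈ A ×ˢ K, b α ^ 2 := by
  have hmap : ∀ (k : ℕ) (B : Finset ℕ) (F : ℕ × ℕ → ℝ),
      ∑ α ∈ B ×ˢ {k}, F α = ∑ m ∈ B, F (m, k) := by
    intro k B F
    rw [Finset.sum_product]
    simp
  have hCS' : ∀ (k l : ℕ) (B B' : Finset ℕ) (η : ℝ), 0 < η →
      ∑ m ∈ B, ∑ n ∈ B', T (m, k) (n, l) ≤ η / 2 * ∑ m ∈ B, ∑ n ∈ B, T (m, k) (n, k) +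
        1 / (2 * η) * ∑ m ∈ B', ∑ n ∈ B', T (m, l) (n, l) := by
    intro k l B B' η hη
    have := hCS (B ×ˢ {k}) (B' ×ˢ {l}) η hη
    simpa only [hmap] using this
  have htriv : ∀ (k : ℕ) (B : Finset ℕ), ∑ m ∈ B, ∑ n ∈ B, T (m, k) (n, k) ≤
      B.card * w k * ∑ m ∈ B, a (m, k) := by
    intro k B
    have h1 : ∀ m n, T (m, k) (n, k) ≤ w k * a (m, k) / 2 + w k * a (n, k) / 2 := by
      intro m n
      have := hCS' k k {m} {n} 1 one_pos
      simp only [Finset.sum_singleton] at this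
      have h2 := hdiag (m, k)
      have h3 := hdiag (n, k)
      simp only at h2 h3
      linarith
    calc _ ≤ ∑ m ∈ B, ∑ n ∈ B, (w k * a (m, k) / 2 + w k * a (n, k) / 2) :=
          Finset.sum_le_sum fun m _ => Finset.sum_le_sum fun n _ => h1 m n
      _ = _ := by
          simp only [Finset.sum_add_distrib, Finset.sum_const, nsmul_eq_mul, ← Finset.mul_sum,
            ← Finset.sum_div]
          ring
  have htriv' : ∀ (k l : ℕ), k ≤ l → ∀ B : Finset ℕ, B.card ≤ 3 * L k l →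
      ∑ m ∈ B, ∑ n ∈ B, T (m, l) (n, l) ≤
        3 * Λ * ((1 / 2) ^ (l - k)) ^ 2 * ∑ m ∈ B, a (m, l) := by
    intro k l hkl B hB
    refine (htriv l B).trans (mul_le_mul_of_nonneg_right ?_ (Finset.sum_nonneg fun _ _ => ha _))
    have h1 : (B.card : ℝ) ≤ 3 * L k l := by exact_mod_cast hB
    have h2 := mul_le_mul_of_nonneg_right h1 (hw l)
    have h3 := hLw k l hkl
    linarith
  have single : ∀ (k : ℕ) (B : Finset ℕ), ∑ m ∈ B, ∑ n ∈ B, T (m, k) (n, k) ≤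
      12 * Λ * ∑ m ∈ B, a (m, k) + 4 * Θ * ∑ m ∈ B, b (m, k) ^ 2 := by
    intro k B
    have h1 := pair e (L k k) (hL k k) (fun m n => T (m, k) (n, k)) (fun m n => E (m, k) (n, k))
      (fun m => 3 / 2 * Λ * a (m, k)) (fun m => 3 / 2 * Λ * a (m, k)) (fun m => b (m, k))
      (fun m => b (m, k)) (κ k k) (hκ0 k k) (fun m => by have := ha (m, k); positivity)
      (fun m n => hE0 _ _) (by
        intro C C' hC hC'
        have h2 := hCS' k k C C' 1 one_pos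
        have h3 := htriv' k k le_rfl C hC
        have h4 := htriv' k k le_rfl C' hC'
        simp only [Nat.sub_self, pow_zero, one_pow, mul_one] at h3 h4
        simp only [← Finset.mul_sum]
        linarith) (fun m n hmn => hfar (m, k) (n, k) hmn) B
    have h2 := hE (B ×ˢ {k})
    simp only [hmap] at h2
    have h3 := hκ k k le_rfl
    simp only [Nat.sub_self, pow_zero, mul_one] at h3
    have h4 := mul_le_mul_of_nonneg_right h3 (show 0 ≤ ∑ m ∈ B, b (m, k) ^ 2 + ∑ m ∈ B, b (m, k) ^ 2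
      by positivity)
    simp only [← Finset.mul_sum] at h1
    linarith
  set c : ℕ → ℝ := fun k => 6 * Λ * ∑ m ∈ A, a (m, k) + 3 * Θ * ∑ m ∈ A, b (m, k) ^ 2 with hc
  have hc0 : ∀ k, 0 ≤ c k := fun k => by
    have : 0 ≤ ∑ m ∈ A, a (m, k) := Finset.sum_nonneg fun _ _ => ha _
    positivity
  have two : ∀ k l, k ≤ l → ∑ m ∈ A, ∑ n ∈ A, T (m, k) (n, l) ≤
      (1 / 2) ^ (l - k) * (c k + c l) + (∑ m ∈ A, ∑ n ∈ A, E (m, k) (n, l)) / 2 := by
    intro k l hkl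
    set η : ℝ := (1 / 2) ^ (l - k) with hη
    have hη0 : 0 < η := by positivity
    have h1 := pair e (L k l) (hL k l) (fun m n => T (m, k) (n, l)) (fun m n => E (m, k) (n, l))
      (fun m => η * (6 * Λ * a (m, k) + 2 * Θ * b (m, k) ^ 2))
      (fun m => η * (3 / 2 * Λ * a (m, l))) (fun m => b (m, k))
      (fun m => b (m, l)) (κ k l) (hκ0 k l) (fun m => by have := ha (m, l); positivity)
      (fun m n => hE0 _ _) (by
        intro C C' _ hC'
        have h2 := hCS' k l C C' η hη0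
        have h3 := mul_le_mul_of_nonneg_left (single k C) (show 0 ≤ η / 2 by positivity)
        have h4 := mul_le_mul_of_nonneg_left (htriv' k l hkl C' hC')
          (show 0 ≤ 1 / (2 * η) by positivity)
        have h5 : 1 / (2 * η) * (3 * Λ * η ^ 2 * ∑ m ∈ C', a (m, l)) =
            η * (3 / 2 * Λ * ∑ m ∈ C', a (m, l)) := by
          field_simp
        simp only [← Finset.mul_sum, Finset.sum_add_distrib]
        linarith) (fun m n hmn => hfar (m, k) (n, l) hmn) A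
    have h4 := mul_le_mul_of_nonneg_right (hκ k l hkl)
      (show 0 ≤ ∑ m ∈ A, b (m, k) ^ 2 + ∑ m ∈ A, b (m, l) ^ 2 by positivity)
    simp only [← Finset.mul_sum, Finset.sum_add_distrib] at h1
    have h5 : 0 ≤ η * (Λ * ∑ m ∈ A, a (m, l)) := by
      have : 0 ≤ ∑ m ∈ A, a (m, l) := Finset.sum_nonneg fun _ _ => ha _
      positivity
    have h6 : 0 ≤ η * (Θ * ∑ m ∈ A, b (m, l) ^ 2) := by positivity
    simp only [hc]
    linarith
  have two' : ∀ k l, ∑ m ∈ A, ∑ n ∈ A, T (m, k) (n, l) ≤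
      (1 / 2) ^ (k - l + (l - k)) * (c k + c l) + (∑ m ∈ A, ∑ n ∈ A, E (m, k) (n, l)) / 2 := by
    intro k l
    rcases le_total k l with h | h
    · rw [Nat.sub_eq_zero_of_le h, zero_add]
      exact two k l h
    · rw [Nat.sub_eq_zero_of_le h, add_zero, Finset.sum_comm, add_comm (c k),
        Finset.sum_comm (f := fun m n => E (m, k) (n, l))]
      simp only [hTs (_, k) (_, l), hEs (_, k) (_, l)]
      exact two l k h
  have hre : ∀ F : ℕ × ℕ → ℕ × ℕ → ℝ, ∑ α ∈ A ×ˢ K, ∑ β ∈ A ×ˢ K, F α β =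
      ∑ k ∈ K, ∑ l ∈ K, ∑ m ∈ A, ∑ n ∈ A, F (m, k) (n, l) := by
    intro F
    rw [Finset.sum_product_right]
    apply Finset.sum_congr rfl
    intro k _
    simp only [Finset.sum_product_right]
    exact Finset.sum_comm
  have h1 := hE (A ×ˢ K)
  have h2 : ∑ α ∈ A ×ˢ K, ∑ β ∈ A ×ˢ K, T α β ≤
      8 * ∑ k ∈ K, c k + (∑ α ∈ A ×ˢ K, ∑ β ∈ A ×ˢ K, E α β) / 2 := by
    rw [hre T, hre E]
    refine (Finset.sum_le_sum fun k _ => Finset.sum_le_sum fun l _ => two' k l).trans ?_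
    simp only [Finset.sum_add_distrib, mul_add, ← Finset.sum_div]
    have h3 : ∑ k ∈ K, ∑ l ∈ K, (1 / 2 : ℝ) ^ (k - l + (l - k)) * c k ≤ 4 * ∑ k ∈ K, c k := by
      rw [Finset.mul_sum]
      apply Finset.sum_le_sum
      intro k _
      rw [← Finset.sum_mul]
      exact mul_le_mul_of_nonneg_right (sum_half_dist k K) (hc0 k)
    have h4 : ∑ k ∈ K, ∑ l ∈ K, (1 / 2 : ℝ) ^ (k - l + (l - k)) * c l ≤ 4 * ∑ k ∈ K, c k := by
      rw [Finset.mul_sum, Finset.sum_comm]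
      apply Finset.sum_le_sum
      intro k _
      rw [← Finset.sum_mul]
      simp only [add_comm (_ - k)]
      exact mul_le_mul_of_nonneg_right (sum_half_dist k K) (hc0 k)
    linarith
  have h3 : ∑ k ∈ K, c k = 6 * Λ * ∑ α ∈ A ×ˢ K, a α + 3 * Θ * ∑ α ∈ A ×ˢ K, b α ^ 2 := by
    simp only [hc, Finset.sum_add_distrib, ← Finset.mul_sum, Finset.sum_product_right]
  linarith

end Pool.Agent.Lib.MP_dacecb_an
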