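import Mathlib

namespace Pool.Agent.Lib.MP_dacecb_an

open MeasureTheory FourierTransform Complex Filter Topology
open scoped SchwartzMap ComplexConjugate RealInnerProductSpace ContDiff

variable {E : Type} [NormedAddCommGroup E] [InnerProductSpace ℝ E] [FiniteDimensional ℝ E]
  [MeasurableSpace E] [BorelSpace E]

theorem continuous_fourier_fn {a : E → ℂ} (ha : Integrable a) : Continuous (𝓕 a : E → ℂ) :=
  VectorFourier.fourierIntegral_continuous Real.continuous_fourierChar
    (by exact continuous_inner) ha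

theorem fourier_L2_eq (f : Lp ℂ 2 (volume : Measure E)) {a : E → ℂ} (ha : Integrable a)
    (hfa : (f : E → ℂ) =ᵐ[volume] a) :
    ((𝓕 f : Lp ℂ 2 (volume : Measure E)) : E → ℂ) =ᵐ[volume] (𝓕 a : E → ℂ) := by
  apply ae_eq_of_integral_contDiff_smul_eq
  · exact (Lp.memLp _).locallyIntegrable (by norm_num)
  · exact (continuous_fourier_fn ha).locallyIntegrable
  · intro g g_smooth g_cpt
    have hg₁ : HasCompactSupport (Complex.ofRealCLM ∘ g) := g_cpt.comp_left rfl
    have hg₂ : ContDiff ℝ ∞ (Complex.ofRealCLM ∘ g) := by fun_prop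
    set φ : 𝓢(E, ℂ) := hg₁.toSchwartzMap hg₂ with hφ
    have h1 := congrArg (fun T : 𝓢'(E, ℂ) => T φ) (Lp.fourier_toTemperedDistribution_eq f)
    simp only [TemperedDistribution.fourier_apply, Lp.toTemperedDistribution_apply] at h1
    have h2 : ∫ x, (𝓕 φ : 𝓢(E, ℂ)) x • f x = ∫ x, φ x • (𝓕 a : E → ℂ) x := by
      have h3 := VectorFourier.integral_fourierIntegral_smul_eq_flip (μ := (volume : Measure E))
        (ν := (volume : Measure E)) (L := innerₗ E) (f := (φ : E → ℂ)) (g := a)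
        Real.continuous_fourierChar (by exact continuous_inner) φ.integrable ha
      rw [flip_innerₗ] at h3
      refine Eq.trans ?_ h3
      apply integral_congr_ae
      filter_upwards [hfa] with x hx
      rw [hx]
      rfl
    have h4 : ∀ x, φ x = (g x : ℂ) := fun x => rfl
    simp only [h4] at h1 h2
    rw [h2] at h1
    simpa using h1.symm

theorem gauss_bound (τ ε : ℝ) (hτ : τ ≠ 0) (hε : 0 < ε) (w : E) :
    ‖𝓕 (fun v : E => cexp (-((ε : ℂ) + τ * I) * (‖v‖ : ℂ) ^ 2)) w‖ ≤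
      √((Real.pi / |τ|) ^ Module.finrank ℝ E) := by
  have hb : 0 < ((ε : ℂ) + τ * I).re := by simpa using hε
  rw [fourier_gaussian_innerProductSpace hb, norm_mul]
  set b : ℂ := (ε : ℂ) + τ * I with hbdef
  have hb0 : b ≠ 0 := fun h => by rw [h] at hb; simp at hb
  have h1 : ‖cexp (-(Real.pi : ℂ) ^ 2 * (‖w‖ : ℂ) ^ 2 / b)‖ ≤ 1 := by
    rw [Complex.norm_exp, Real.exp_le_one_iff]
    have : -(Real.pi : ℂ) ^ 2 * (‖w‖ : ℂ) ^ 2 / b = ((-(Real.pi ^ 2 * ‖w‖ ^ 2) : ℝ) : ℂ) * b⁻¹ := by
      push_cast; ring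
    rw [this, Complex.re_ofReal_mul, Complex.inv_re]
    have : 0 ≤ b.re / Complex.normSq b := div_nonneg hb.le (Complex.normSq_nonneg _)
    have h2 : 0 ≤ Real.pi ^ 2 * ‖w‖ ^ 2 := by positivity
    nlinarith [mul_nonneg h2 this]
  have h2 : ‖((Real.pi : ℂ) / b) ^ ((Module.finrank ℝ E : ℂ) / 2)‖ ≤
      √((Real.pi / |τ|) ^ Module.finrank ℝ E) := by
    have e1 : ((Module.finrank ℝ E : ℂ) / 2) = (((Module.finrank ℝ E : ℝ) / 2 : ℝ) : ℂ) := by
      push_cast; ring
    rw [e1, Complex.norm_cpow_real, Real.sqrt_eq_rpow, ← Real.rpow_natCast,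
      ← Real.rpow_mul (by positivity)]
    have e2 : (Module.finrank ℝ E : ℝ) * (1 / 2) = (Module.finrank ℝ E : ℝ) / 2 := by ring
    rw [e2]
    apply Real.rpow_le_rpow (norm_nonneg _) _ (by positivity)
    rw [norm_div, Complex.norm_real, Real.norm_of_nonneg Real.pi_pos.le]
    apply div_le_div_of_nonneg_left Real.pi_pos.le (abs_pos.2 hτ)
    have := Complex.abs_im_le_norm b
    simpa [hbdef] using this
  calc _ ≤ √((Real.pi / |τ|) ^ Module.finrank ℝ E) * 1 :=
        mul_le_mul h2 h1 (norm_nonneg _) (Real.sqrt_nonneg _)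
    _ = _ := mul_one _

theorem integrable_conj {X : Type} [MeasurableSpace X] {μ : Measure X} {a : X → ℂ}
    (ha : Integrable a μ) : Integrable (fun x => conj (a x)) μ :=
  memLp_one_iff_integrable.1 (memLp_one_iff_integrable.2 ha).star

theorem disp_gen {ι : Type} (S : Finset ι) (a b : ι → E → ℂ) (ha : ∀ j, Integrable (a j))
    (hb : ∀ j, Integrable (b j)) (G : E → ℂ) (hG : Integrable G) (c : ℝ)
    (hc : ∀ w, ‖𝓕 G w‖ ≤ c) :
    ‖∫ ξ, G ξ * ∑ j ∈ S, conj (𝓕 (a j) ξ) * 𝓕 (b j) ξ‖ ≤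
      c * ∫ z : E × E, ‖∑ j ∈ S, conj (a j z.1) * b j z.2‖ ∂(volume.prod volume) := by
  set Γ : E × E → ℂ := fun z => ∑ j ∈ S, conj (a j z.1) * b j z.2 with hΓ
  have haj : ∀ j, Integrable (fun x => conj (a j x)) := fun j => integrable_conj (ha j)
  have hΓj : ∀ j, Integrable (fun z : E × E => conj (a j z.1) * b j z.2) (volume.prod volume) :=
    fun j => (haj j).mul_prod (hb j)
  have hΓi : Integrable Γ (volume.prod volume) := integrable_finsetSum _ fun j _ => hΓj j
  set e : E → E → ℂ := fun ξ w => cexp (((-2 * Real.pi * ⟪ξ, w⟫ : ℝ) : ℂ) * I) with he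
  have he1 : ∀ ξ w, ‖e ξ w‖ = 1 := fun ξ w => Complex.norm_exp_ofReal_mul_I _
  have hec : Continuous (fun p : E × E => e p.1 p.2) := by
    simp only [he]
    fun_prop
  have step1 : ∀ ξ, ∑ j ∈ S, conj (𝓕 (a j) ξ) * 𝓕 (b j) ξ =
      ∫ z : E × E, e ξ (z.2 - z.1) * Γ z ∂(volume.prod volume) := by
    intro ξ
    simp only [hΓ, Finset.mul_sum]
    rw [integral_finsetSum]
    · apply Finset.sum_congr rfl
      intro j _
      rw [Real.fourier_eq', Real.fourier_eq', ← integral_conj, ← integral_prod_mul]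
      apply integral_congr_ae
      filter_upwards with z
      simp only [smul_eq_mul, map_mul, he]
      rw [← Complex.exp_conj]
      have : cexp (((-2 * Real.pi * ⟪ξ, z.2 - z.1⟫ : ℝ) : ℂ) * I) =
          cexp (conj (((-2 * Real.pi * ⟪z.1, ξ⟫ : ℝ) : ℂ) * I)) *
            cexp (((-2 * Real.pi * ⟪z.2, ξ⟫ : ℝ) : ℂ) * I) := by
        rw [← Complex.exp_add]
        congr 1
        rw [map_mul, Complex.conj_ofReal, Complex.conj_I, inner_sub_right, real_inner_comm z.1,
          real_inner_comm z.2]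
        push_cast
        ring
      rw [this]
      ring
    · intro j _
      refine (hΓj j).bdd_mul (c := 1) ?_ ?_
      · exact (hec.comp (by fun_prop : Continuous fun z : E × E => (ξ, z.2 - z.1))).aestronglyMeasurable
      · filter_upwards with z using (he1 _ _).le
  have hint : Integrable (Function.uncurry fun (ξ : E) (z : E × E) => G ξ * (e ξ (z.2 - z.1) * Γ z))
      ((volume : Measure E).prod (volume.prod volume)) := by
    have h0 := (hG.mul_prod hΓi).bdd_mul (c := 1)
      (f := fun p : E × (E × E) => e p.1 (p.2.2 - p.2.1))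
      (hec.comp (by fun_prop : Continuous fun p : E × (E × E) =>
        (p.1, p.2.2 - p.2.1))).aestronglyMeasurable
      (Eventually.of_forall fun z => (he1 _ _).le)
    refine h0.congr (Eventually.of_forall fun p => ?_)
    simp only [Function.uncurry]
    ring
  have step2 : ∫ ξ, G ξ * ∑ j ∈ S, conj (𝓕 (a j) ξ) * 𝓕 (b j) ξ =
      ∫ z : E × E, 𝓕 G (z.2 - z.1) * Γ z ∂(volume.prod volume) := by
    simp only [step1, ← integral_const_mul]
    rw [integral_integral_swap hint]
    apply integral_congr_ae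
    filter_upwards with z
    rw [Real.fourier_eq', ← integral_mul_const]
    apply integral_congr_ae
    filter_upwards with ξ
    simp only [smul_eq_mul, he]
    ring
  rw [step2, ← integral_const_mul]
  apply norm_integral_le_of_norm_le (hΓi.norm.const_mul c)
  filter_upwards with z
  rw [norm_mul]
  exact mul_le_mul_of_nonneg_right (hc _) (norm_nonneg _)

theorem disp {ι : Type} (S : Finset ι) (a b : ι → E → ℂ) (ha : ∀ j, Integrable (a j))
    (hb : ∀ j, Integrable (b j)) (τ : ℝ) (hτ : τ ≠ 0)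
    (hab : Integrable fun ξ => ∑ j ∈ S, conj (𝓕 (a j) ξ) * 𝓕 (b j) ξ) :
    ‖∫ ξ, cexp (-(τ * I) * (‖ξ‖ : ℂ) ^ 2) * ∑ j ∈ S, conj (𝓕 (a j) ξ) * 𝓕 (b j) ξ‖ ≤
      √((Real.pi / |τ|) ^ Module.finrank ℝ E) *
        ∫ z : E × E, ‖∑ j ∈ S, conj (a j z.1) * b j z.2‖ ∂(volume.prod volume) := by
  set F : E → ℂ := fun ξ => ∑ j ∈ S, conj (𝓕 (a j) ξ) * 𝓕 (b j) ξ with hF
  set ε : ℕ → ℝ := fun n => 1 / ((n : ℝ) + 1) with hε
  have hεpos : ∀ n, 0 < ε n := fun n => by positivity
  have hlim : Tendsto (fun n => ∫ ξ, cexp (-((ε n : ℂ) + τ * I) * (‖ξ‖ : ℂ) ^ 2) * F ξ) atTop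
      (𝓝 (∫ ξ, cexp (-(τ * I) * (‖ξ‖ : ℂ) ^ 2) * F ξ)) := by
    apply tendsto_integral_of_dominated_convergence (fun ξ => ‖F ξ‖)
    · intro n
      exact (Continuous.aestronglyMeasurable (by fun_prop)).mul hab.1
    · exact hab.norm
    · intro n
      filter_upwards with ξ
      rw [norm_mul]
      apply mul_le_of_le_one_left (norm_nonneg _)
      rw [Complex.norm_exp, Real.exp_le_one_iff]
      have : (-((ε n : ℂ) + τ * I) * (‖ξ‖ : ℂ) ^ 2).re = -(ε n * ‖ξ‖ ^ 2) := by
        rw [← Complex.ofReal_pow]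
        simp only [neg_mul, Complex.neg_re, Complex.mul_re, Complex.add_re, Complex.ofReal_re,
          Complex.ofReal_im, Complex.I_re, Complex.I_im]
        ring
      rw [this]
      have := hεpos n
      have : 0 ≤ ε n * ‖ξ‖ ^ 2 := by positivity
      linarith
    · filter_upwards with ξ
      have h0 : Tendsto ε atTop (𝓝 0) := tendsto_one_div_add_atTop_nhds_zero_nat
      have hc : Continuous fun r : ℝ => cexp (-((r : ℂ) + τ * I) * (‖ξ‖ : ℂ) ^ 2) * F ξ := by
        fun_prop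
      have := (hc.tendsto 0).comp h0
      simpa using! this
  refine le_of_tendsto' hlim.norm fun n => ?_
  apply disp_gen S a b ha hb _ _ _ (gauss_bound τ (ε n) hτ (hεpos n))
  have := GaussianFourier.integrable_cexp_neg_mul_sq_norm_add (V := E) (b := (ε n : ℂ) + τ * I)
    (by simpa using hεpos n) 0 0
  simpa using this

end Pool.Agent.Lib.MP_dacecb_an
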