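import Pool.Agent.Lib.MP_dacecb_an.SetBound

namespace Pool.Agent.Lib.MP_dacecb_an

open MeasureTheory FourierTransform Filter Topology

theorem layer {ι : Type} (a : ι → ℝ) (ψ : ℕ → ℝ) (hψ : ∀ n, 0 ≤ ψ n) (N : ℕ) :
    ∀ (J : Finset ι) (c : ι → ℝ) (r : ℕ → ℝ), J.card = N → (∀ j ∈ J, 0 ≤ c j) →
      (∀ S ⊆ J, ∑ j ∈ S, a j ≤ ∑ n ∈ Finset.range S.card, ψ n) →
      (∀ n, ∀ S ⊆ J, n < S.card → ∃ j ∈ S, c j ≤ r n) →
      ∑ j ∈ J, c j * a j ≤ ∑ n ∈ Finset.range N, ψ n * r n := by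
  classical
  induction N with
  | zero =>
    intro J c r hJ _ _ _
    rw [Finset.card_eq_zero.1 hJ]
    simp
  | succ N ih =>
    intro J c r hJ hc ha hr
    obtain ⟨j₀, hj₀, hmin⟩ := J.exists_min_image c (Finset.card_pos.1 (by omega))
    have h1 := ih (J.erase j₀) (fun j => c j - c j₀) (fun n => r n - c j₀)
      (by rw [Finset.card_erase_of_mem hj₀]; omega)
      (fun j hj => sub_nonneg.2 (hmin j (Finset.mem_of_mem_erase hj)))
      (fun S hS => ha S (hS.trans (Finset.erase_subset _ _)))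
      (fun n S hS hn => by
        obtain ⟨j, hj, h⟩ := hr n S (hS.trans (Finset.erase_subset _ _)) hn
        exact ⟨j, hj, by linarith⟩)
    have h2 := mul_le_mul_of_nonneg_left (ha J subset_rfl) (hc j₀ hj₀)
    obtain ⟨j, hj, h3⟩ := hr N J subset_rfl (by omega)
    have h4 := mul_le_mul_of_nonneg_left ((hmin j hj).trans h3) (hψ N)
    rw [hJ, Finset.sum_range_succ, ← Finset.add_sum_erase _ _ hj₀] at h2
    rw [Finset.sum_range_succ, ← Finset.add_sum_erase _ _ hj₀]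
    simp only [sub_mul, mul_sub, Finset.sum_sub_distrib, ← Finset.mul_sum, ← Finset.sum_mul] at h1
    linarith

theorem rpow_le_sum (α : ℝ) (hα : α ≤ 1) (hα0 : 0 < α) (N : ℕ) :
    (N : ℝ) ^ α ≤ ∑ n ∈ Finset.range N, ((n : ℝ) + 1) ^ (α - 1) := by
  rcases Nat.eq_zero_or_pos N with rfl | hN
  · simp [hα0.ne']
  have hN0 : (0 : ℝ) < N := by exact_mod_cast hN
  calc (N : ℝ) ^ α = ∑ _n ∈ Finset.range N, (N : ℝ) ^ (α - 1) := by
        rw [Finset.sum_const, Finset.card_range, nsmul_eq_mul, Real.rpow_sub_one hN0.ne']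
        field_simp
    _ ≤ _ := by
        apply Finset.sum_le_sum
        intro n hn
        apply Real.rpow_le_rpow_of_nonpos (by positivity) _ (by linarith)
        exact_mod_cast Finset.mem_range.1 hn

noncomputable def cst (e : ℕ) (κ : ℝ) : ℝ := 96 + √(24 * (Real.pi / κ) ^ (e + 2) * 64 ^ (e + 1))

theorem cst_pos (e : ℕ) (κ : ℝ) : 0 < cst e κ := by
  unfold cst
  positivity

variable {E : Type} [NormedAddCommGroup E] [InnerProductSpace ℝ E] [FiniteDimensional ℝ E]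
  [MeasurableSpace E] [BorelSpace E]

theorem set_bound2 (e : ℕ) (hd : Module.finrank ℝ E = e + 2) {ι : Type} (S : Finset ι)
    (f : ι → Lp ℂ 2 (volume : Measure E)) (hf : Orthonormal ℂ f) (κ τ δ : ℝ) (hκ : 0 < κ)
    (hδ : 0 < δ) (u : ℕ → ι → Lp ℂ 2 (volume : Measure E))
    (hu : ∀ m j, ((𝓕 (u m j) : Lp ℂ 2 (volume : Measure E)) : E → ℂ) =ᵐ[volume]
      fun ξ => ph (τ + m * (κ * δ)) ξ * (𝓕 (f j) : Lp ℂ 2 (volume : Measure E)) ξ)
    (W : ℕ → E → ℝ) (hWm : ∀ m, Measurable (W m)) (hW0 : ∀ m x, 0 ≤ W m x) (R : ℝ) (hR : 0 < R)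
    (hWR : ∀ m x, W m x ≤ R) (hWi : ∀ m, Integrable fun x => W m x ^ (e + 3))
    (A : Finset ℕ) (ν : ℝ) (hν : 0 < ν)
    (hB : δ * ∑ m ∈ A, (∫ x, W m x ^ (e + 3)) ^ 2 ≤ ν ^ (e + 3)) :
    ∑ j ∈ S, δ * ∑ m ∈ A, ∫ x, W m x ^ 2 * ‖u m j x‖ ^ 2 ≤
      cst e κ * ν * (S.card : ℝ) ^ (((e : ℝ) + 2) / (e + 3)) + 96 * δ * R ^ 2 * S.card := by
  rcases S.eq_empty_or_nonempty with rfl | hS
  · have : ((e : ℝ) + 2) / (e + 3) ≠ 0 := by positivity
    simp [this]
  have hN : (0 : ℝ) < S.card := by exact_mod_cast hS.card_pos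
  obtain ⟨θ, hθ0, h1, h2⟩ : ∃ θ : ℝ, 0 < θ ∧ (S.card : ℝ) = θ ^ (e + 3) ∧
      (S.card : ℝ) ^ (((e : ℝ) + 2) / (e + 3)) = θ ^ (e + 2) := by
    refine ⟨(S.card : ℝ) ^ (1 / ((e : ℝ) + 3)), Real.rpow_pos_of_pos hN _, ?_, ?_⟩
    · rw [← Real.rpow_natCast, ← Real.rpow_mul hN.le]
      push_cast
      rw [one_div_mul_cancel (by positivity), Real.rpow_one]
    · rw [← Real.rpow_natCast, ← Real.rpow_mul hN.le]
      congr 1
      push_cast
      ring
  have h3 := set_bound e hd S f hf τ (κ * δ) (by positivity) u hu W hWm hW0 R hR hWR hWi A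
    (ν / (θ * δ)) (by positivity)
  rw [← Finset.mul_sum, Finset.sum_comm, h2]
  refine (mul_le_mul_of_nonneg_left h3 hδ.le).trans ?_
  set B := ∑ m ∈ A, (∫ x, W m x ^ (e + 3)) ^ 2
  have h4 : δ * √(S.card * (24 * (Real.pi / (κ * δ)) ^ (e + 2) * (64 / (ν / (θ * δ))) ^ (e + 1) * B))
      ≤ √(24 * (Real.pi / κ) ^ (e + 2) * 64 ^ (e + 1)) * (ν * θ ^ (e + 2)) := by
    rw [← Real.sqrt_sq hδ.le, ← Real.sqrt_mul (sq_nonneg _),
      ← Real.sqrt_sq (show 0 ≤ ν * θ ^ (e + 2) by positivity), ← Real.sqrt_mul (by positivity),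
      Real.sqrt_sq hδ.le]
    apply Real.sqrt_le_sqrt
    have h5 : δ ^ 2 * (S.card * (24 * (Real.pi / (κ * δ)) ^ (e + 2) *
        (64 / (ν / (θ * δ))) ^ (e + 1) * B)) =
        24 * (Real.pi / κ) ^ (e + 2) * 64 ^ (e + 1) * (θ ^ (e + 2)) ^ 2 / ν ^ (e + 1) * (δ * B) := by
      rw [h1]
      simp only [div_pow, mul_pow]
      field_simp
      ring
    rw [h5]
    refine (mul_le_mul_of_nonneg_left hB (by positivity)).trans (le_of_eq ?_)
    field_simp
    ring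
  have h5 : δ * (S.card * (96 * (ν / (θ * δ) + R ^ 2))) =
      96 * (ν * θ ^ (e + 2)) + 96 * δ * R ^ 2 * S.card := by
    rw [h1]
    field_simp
    ring
  rw [mul_add, h5, cst]
  linarith

theorem dual_bound (e : ℕ) (hd : Module.finrank ℝ E = e + 2) {ι : Type} (J : Finset ι)
    (f : ι → Lp ℂ 2 (volume : Measure E)) (hf : Orthonormal ℂ f) (κ τ δ : ℝ) (hκ : 0 < κ)
    (hδ : 0 < δ) (u : ℕ → ι → Lp ℂ 2 (volume : Measure E))
    (hu : ∀ m j, ((𝓕 (u m j) : Lp ℂ 2 (volume : Measure E)) : E → ℂ) =ᵐ[volume]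
      fun ξ => ph (τ + m * (κ * δ)) ξ * (𝓕 (f j) : Lp ℂ 2 (volume : Measure E)) ξ)
    (c : ι → ℝ) (hc : ∀ j, 0 ≤ c j) (r : ℕ → ℝ) (hr0 : ∀ n, 0 ≤ r n)
    (hr : ∀ n, ∀ S ⊆ J, n < S.card → ∃ j ∈ S, c j ≤ r n) (M ε : ℝ) (hM : 0 < M) (hε : 0 < ε)
    (g : ℕ → E → ℝ)
    (hg : ∀ m x, g m x = (min (∑ j ∈ J, c j * ‖u m j x‖ ^ 2) M) ^ (1 / ((e : ℝ) + 1)))
    (A : Finset ℕ) (hA : ∀ m ∈ A, ε ≤ ∫ x, g m x ^ (e + 3)) :
    δ * ∑ m ∈ A, (∫ x, g m x ^ (e + 3)) ^ (((e : ℝ) + 1) / (e + 2)) ≤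
      (2 * cst e κ * ∑ n ∈ Finset.range J.card, ((n : ℝ) + 1) ^ (((e : ℝ) + 2) / (e + 3) - 1) * r n)
        ^ (((e : ℝ) + 3) / (e + 2)) +
      δ * (192 * (M ^ (1 / ((e : ℝ) + 1)) / ε ^ (1 / (2 * ((e : ℝ) + 2)))) ^ 2 *
        ∑ n ∈ Finset.range J.card, r n) := by
  set ρ : ℕ → E → ℝ := fun m x => ∑ j ∈ J, c j * ‖u m j x‖ ^ 2 with hρ
  have hρ0 : ∀ m x, 0 ≤ ρ m x := fun m x =>
    Finset.sum_nonneg fun j _ => mul_nonneg (hc j) (sq_nonneg _)
  have hu2 : ∀ m j, Integrable fun y => ‖u m j y‖ ^ 2 := fun m j =>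
    (memLp_two_iff_integrable_sq_norm (Lp.memLp (u m j)).1).1 (Lp.memLp _)
  have hρi : ∀ m, Integrable (ρ m) := fun m =>
    integrable_finsetSum _ fun j _ => (hu2 m j).const_mul _
  have hρm : ∀ m, Measurable (ρ m) := fun m =>
    Finset.measurable_sum _ fun j _ =>
      ((Lp.stronglyMeasurable (u m j)).measurable.norm.pow_const 2).const_mul _
  have hmin : ∀ m x, 0 ≤ min (ρ m x) M := fun m x => le_min (hρ0 m x) hM.le
  have hg0 : ∀ m x, 0 ≤ g m x := fun m x => by rw [hg]; exact Real.rpow_nonneg (hmin m x) _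
  have hgM : ∀ m x, g m x ≤ M ^ (1 / ((e : ℝ) + 1)) := fun m x => by
    rw [hg]
    exact Real.rpow_le_rpow (hmin m x) (min_le_right _ _) (by positivity)
  have hgρ : ∀ m x, g m x ^ (e + 1) ≤ ρ m x := fun m x => by
    rw [hg, ← Real.rpow_natCast, ← Real.rpow_mul (hmin m x)]
    push_cast
    rw [one_div_mul_cancel (by positivity), Real.rpow_one]
    exact min_le_left _ _
  have hgm : ∀ m, Measurable (g m) := fun m => by
    have : g m = fun x => (min (ρ m x) M) ^ (1 / ((e : ℝ) + 1)) := funext (hg m)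
    rw [this]
    exact ((hρm m).min measurable_const).pow_const _
  have hgi : ∀ m, Integrable fun x => g m x ^ (e + 3) := fun m => by
    refine ((hρi m).const_mul ((M ^ (1 / ((e : ℝ) + 1))) ^ 2)).mono'
      ((hgm m).pow_const _).aestronglyMeasurable (Eventually.of_forall fun x => ?_)
    rw [Real.norm_of_nonneg (pow_nonneg (hg0 m x) _), show e + 3 = 2 + (e + 1) by ring, pow_add]
    exact mul_le_mul (pow_le_pow_left₀ (hg0 m x) (hgM m x) _) (hgρ m x) (pow_nonneg (hg0 m x) _)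
      (sq_nonneg _)
  set h : ℕ → ℝ := fun m => (max (∫ x, g m x ^ (e + 3)) ε) ^ (1 / (2 * ((e : ℝ) + 2))) with hh
  have hε' : 0 < ε ^ (1 / (2 * ((e : ℝ) + 2))) := Real.rpow_pos_of_pos hε _
  have hhε : ∀ m, ε ^ (1 / (2 * ((e : ℝ) + 2))) ≤ h m := fun m =>
    Real.rpow_le_rpow hε.le (le_max_right _ _) (by positivity)
  have hh0 : ∀ m, 0 < h m := fun m => hε'.trans_le (hhε m)
  have hhI : ∀ m ∈ A, ∫ x, g m x ^ (e + 3) = h m ^ (2 * (e + 2)) := fun m hm => by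
    simp only [hh]
    rw [max_eq_left (hA m hm), ← Real.rpow_natCast, ← Real.rpow_mul (hε.le.trans (hA m hm))]
    push_cast
    rw [one_div_mul_cancel (by positivity), Real.rpow_one]
  have hhI' : ∀ m ∈ A, (∫ x, g m x ^ (e + 3)) ^ (((e : ℝ) + 1) / (e + 2)) = h m ^ (2 * (e + 1)) :=
    fun m hm => by
      simp only [hh]
      rw [max_eq_left (hA m hm), ← Real.rpow_natCast, ← Real.rpow_mul (hε.le.trans (hA m hm))]
      congr 1
      push_cast
      field_simp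
  set R := M ^ (1 / ((e : ℝ) + 1)) / ε ^ (1 / (2 * ((e : ℝ) + 2))) with hR
  have hR0 : 0 < R := div_pos (Real.rpow_pos_of_pos hM _) hε'
  set W : ℕ → E → ℝ := fun m x => g m x / h m with hW
  have hWm : ∀ m, Measurable (W m) := fun m => (hgm m).div_const _
  have hW0 : ∀ m x, 0 ≤ W m x := fun m x => div_nonneg (hg0 m x) (hh0 m).le
  have hWR : ∀ m x, W m x ≤ R := fun m x =>
    div_le_div₀ (Real.rpow_nonneg hM.le _) (hgM m x) hε' (hhε m)
  have hWi : ∀ m, Integrable fun x => W m x ^ (e + 3) := fun m => by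
    simp only [hW, div_pow]
    exact (hgi m).div_const _
  set Sg := δ * ∑ m ∈ A, h m ^ (2 * (e + 1)) with hSg
  rw [Finset.sum_congr rfl hhI', ← hSg]
  set Lz := ∑ n ∈ Finset.range J.card, ((n : ℝ) + 1) ^ (((e : ℝ) + 2) / (e + 3) - 1) * r n
  have hLz : 0 ≤ Lz := Finset.sum_nonneg fun n _ => mul_nonneg (by positivity) (hr0 n)
  set L1 := ∑ n ∈ Finset.range J.card, r n
  have hL1 : 0 ≤ L1 := Finset.sum_nonneg fun n _ => hr0 n
  have hC := cst_pos e κ
  rcases le_or_gt Sg 0 with hS | hS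
  · exact hS.trans (by positivity)
  obtain ⟨ν, hν0, hνS⟩ : ∃ ν : ℝ, 0 < ν ∧ Sg = ν ^ (e + 3) := by
    refine ⟨Sg ^ (1 / ((e : ℝ) + 3)), Real.rpow_pos_of_pos hS _, ?_⟩
    rw [← Real.rpow_natCast, ← Real.rpow_mul hS.le]
    push_cast
    rw [one_div_mul_cancel (by positivity), Real.rpow_one]
  have hB : δ * ∑ m ∈ A, (∫ x, W m x ^ (e + 3)) ^ 2 ≤ ν ^ (e + 3) := by
    rw [← hνS, hSg]
    refine le_of_eq (congrArg _ (Finset.sum_congr rfl fun m hm => ?_))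
    simp only [hW, div_pow]
    rw [integral_div, hhI m hm]
    have := hh0 m
    field_simp
    ring
  have hlay := layer (fun j => δ * ∑ m ∈ A, ∫ x, W m x ^ 2 * ‖u m j x‖ ^ 2)
    (fun n => cst e κ * ν * ((n : ℝ) + 1) ^ (((e : ℝ) + 2) / (e + 3) - 1) + 96 * δ * R ^ 2)
    (fun n => by positivity) J.card J c r rfl (fun j _ => hc j) (fun S _ => by
      refine (set_bound2 e hd S f hf κ τ δ hκ hδ u hu W hWm hW0 R hR0 hWR hWi A ν hν0 hB).trans ?_
      rw [Finset.sum_add_distrib, ← Finset.mul_sum, Finset.sum_const, Finset.card_range,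
        nsmul_eq_mul, mul_comm (S.card : ℝ)]
      refine add_le_add (mul_le_mul_of_nonneg_left (rpow_le_sum _ ?_ (by positivity) _)
        (by positivity)) le_rfl
      rw [div_le_one (by positivity)]
      linarith) hr
  have hW2 : ∀ m j, Integrable fun x => W m x ^ 2 * ‖u m j x‖ ^ 2 := fun m j =>
    (hu2 m j).bdd_mul (c := R ^ 2) ((hWm m).pow_const 2).aestronglyMeasurable
      (Eventually.of_forall fun y => by
        rw [Real.norm_of_nonneg (sq_nonneg _)]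
        exact pow_le_pow_left₀ (hW0 m y) (hWR m y) _)
  have hlow : Sg ≤ ∑ j ∈ J, c j * (δ * ∑ m ∈ A, ∫ x, W m x ^ 2 * ‖u m j x‖ ^ 2) := by
    simp only [hSg, Finset.mul_sum]
    rw [Finset.sum_comm]
    apply Finset.sum_le_sum
    intro m hm
    simp only [mul_left_comm _ δ, ← Finset.mul_sum]
    apply mul_le_mul_of_nonneg_left _ hδ.le
    simp only [← integral_const_mul]
    have hi := fun j (_ : j ∈ J) => (hW2 m j).const_mul (c j)
    rw [← integral_finsetSum _ hi]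
    have e1 : h m ^ (2 * (e + 1)) = ∫ x, g m x ^ (e + 3) / h m ^ 2 := by
      rw [integral_div, hhI m hm]
      have := hh0 m
      field_simp
      ring
    rw [e1]
    apply integral_mono ((hgi m).div_const _) (integrable_finsetSum _ hi)
    intro x
    simp only [mul_left_comm (c _), ← Finset.mul_sum]
    calc g m x ^ (e + 3) / h m ^ 2 = W m x ^ 2 * g m x ^ (e + 1) := by
          simp only [hW]
          ring
      _ ≤ _ := mul_le_mul_of_nonneg_left (hgρ m x) (sq_nonneg _)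
  have hfin : ν ^ (e + 3) ≤ cst e κ * Lz * ν + 96 * δ * R ^ 2 * L1 := by
    rw [← hνS]
    refine hlow.trans (hlay.trans (le_of_eq ?_))
    simp only [add_mul, Finset.sum_add_distrib, mul_assoc, ← Finset.mul_sum]
    ring
  have hp : 0 ≤ (2 * cst e κ * Lz) ^ (((e : ℝ) + 3) / (e + 2)) := by positivity
  rcases le_or_gt (ν ^ (e + 2)) (2 * cst e κ * Lz) with h1 | h1
  · have h2 : Sg = (ν ^ (e + 2)) ^ (((e : ℝ) + 3) / (e + 2)) := by
      rw [hνS, ← Real.rpow_natCast, ← Real.rpow_natCast, ← Real.rpow_mul hν0.le]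
      congr 1
      push_cast
      field_simp
    rw [h2]
    exact (Real.rpow_le_rpow (by positivity) h1 (by positivity)).trans
      (le_add_of_nonneg_right (by positivity))
  · have h2 := mul_lt_mul_of_pos_right h1 hν0
    rw [← pow_succ] at h2
    rw [hνS]
    linarith

end Pool.Agent.Lib.MP_dacecb_an
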