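import Pool.Agent.Lib.MP_dacecb_an.Disp

namespace Pool.Agent.Lib.MP_dacecb_an

open MeasureTheory FourierTransform Complex Filter Topology
open scoped ComplexConjugate InnerProductSpace

section abstract

variable {H : Type} [NormedAddCommGroup H] [InnerProductSpace ℂ H] {ι A : Type}

noncomputable def TT (S : Finset ι) (x : A → ι → H) (α β : A) : ℝ :=
  ∑ j ∈ S, (⟪x α j, x β j⟫_ℂ).re

noncomputable def EE (S : Finset ι) (g : ι → H) (x : A → ι → H) (α β : A) : ℝ :=
  ∑ i ∈ S, ∑ j ∈ S, (conj ⟪g i, x α j⟫_ℂ * ⟪g i, x β j⟫_ℂ).re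

theorem TT_sum (S : Finset ι) (x : A → ι → H) (B B' : Finset A) :
    ∑ α ∈ B, ∑ β ∈ B', TT S x α β = ∑ j ∈ S, (⟪∑ α ∈ B, x α j, ∑ β ∈ B', x β j⟫_ℂ).re := by
  simp only [TT, sum_inner, inner_sum, Complex.re_sum]
  rw [Finset.sum_comm (s := S)]
  refine Eq.trans Finset.sum_comm (Finset.sum_congr rfl fun β _ => Finset.sum_comm)

theorem TT_self (S : Finset ι) (x : A → ι → H) (B : Finset A) :
    ∑ α ∈ B, ∑ β ∈ B, TT S x α β = ∑ j ∈ S, ‖∑ α ∈ B, x α j‖ ^ 2 := by
  rw [TT_sum]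
  exact Finset.sum_congr rfl fun j _ => inner_self_eq_norm_sq (𝕜 := ℂ) _

theorem TT_cs (S : Finset ι) (x : A → ι → H) (B B' : Finset A) (η : ℝ) (hη : 0 < η) :
    ∑ α ∈ B, ∑ β ∈ B', TT S x α β ≤ η / 2 * ∑ α ∈ B, ∑ β ∈ B, TT S x α β +
      1 / (2 * η) * ∑ α ∈ B', ∑ β ∈ B', TT S x α β := by
  rw [TT_self, TT_self, TT_sum, Finset.mul_sum, Finset.mul_sum, ← Finset.sum_add_distrib]
  apply Finset.sum_le_sum
  intro j _
  refine (re_inner_le_norm (𝕜 := ℂ) _ _).trans ?_
  set p := ‖∑ α ∈ B, x α j‖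
  set q := ‖∑ α ∈ B', x α j‖
  have : η / 2 * p ^ 2 + 1 / (2 * η) * q ^ 2 - p * q = (η * p - q) ^ 2 / (2 * η) := by
    field_simp
    ring
  have h2 : 0 ≤ (η * p - q) ^ 2 / (2 * η) := by positivity
  linarith

theorem TT_symm (S : Finset ι) (x : A → ι → H) (α β : A) : TT S x α β = TT S x β α :=
  Finset.sum_congr rfl fun _ _ => inner_re_symm (𝕜 := ℂ) _ _

theorem EE_symm (S : Finset ι) (g : ι → H) (x : A → ι → H) (α β : A) :
    EE S g x α β = EE S g x β α := by
  refine Finset.sum_congr rfl fun i _ => Finset.sum_congr rfl fun j _ => ?_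
  simp only [Complex.mul_re, Complex.conj_re, Complex.conj_im]
  ring

theorem EE_le (S : Finset ι) (g : ι → H) (hg : Orthonormal ℂ g) (x : A → ι → H) (B : Finset A) :
    ∑ α ∈ B, ∑ β ∈ B, EE S g x α β ≤ ∑ α ∈ B, ∑ β ∈ B, TT S x α β := by
  have h1 : ∑ α ∈ B, ∑ β ∈ B, EE S g x α β = ∑ j ∈ S, ∑ i ∈ S, ‖⟪g i, ∑ α ∈ B, x α j⟫_ℂ‖ ^ 2 := by
    have h2 : ∀ i j, ‖⟪g i, ∑ α ∈ B, x α j⟫_ℂ‖ ^ 2 =
        ∑ α ∈ B, ∑ β ∈ B, (conj ⟪g i, x α j⟫_ℂ * ⟪g i, x β j⟫_ℂ).re := by
      intro i j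
      rw [← Complex.normSq_eq_norm_sq, ← Complex.ofReal_re (Complex.normSq _),
        Complex.normSq_eq_conj_mul_self, inner_sum, map_sum, Finset.sum_mul_sum]
      simp only [Complex.re_sum]
    simp only [h2, EE]
    rw [Finset.sum_comm (s := S) (t := S)]
    symm
    calc _ = ∑ i ∈ S, ∑ α ∈ B, ∑ β ∈ B, ∑ j ∈ S, (conj ⟪g i, x α j⟫_ℂ * ⟪g i, x β j⟫_ℂ).re := by
          refine Finset.sum_congr rfl fun i _ => ?_
          rw [Finset.sum_comm]
          exact Finset.sum_congr rfl fun α _ => Finset.sum_comm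
      _ = _ := by
          rw [Finset.sum_comm]
          exact Finset.sum_congr rfl fun α _ => Finset.sum_comm
  rw [h1, TT_self]
  exact Finset.sum_le_sum fun j _ => hg.sum_inner_products_le _

theorem diag_sq_le (S : Finset ι) (g : ι → H) (hg : Orthonormal ℂ g) (x : A → ι → H)
    (B : Finset A) :
    (∑ α ∈ B, ∑ j ∈ S, (⟪g j, x α j⟫_ℂ).re) ^ 2 ≤ S.card * ∑ α ∈ B, ∑ β ∈ B, TT S x α β := by
  rw [TT_self, Finset.sum_comm]
  refine (sq_sum_le_card_mul_sum_sq).trans (mul_le_mul_of_nonneg_left ?_ (Nat.cast_nonneg _))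
  apply Finset.sum_le_sum
  intro j _
  rw [← Complex.re_sum, ← inner_sum, ← sq_abs]
  apply pow_le_pow_left₀ (abs_nonneg _)
  refine (Complex.abs_re_le_norm _).trans ((norm_inner_le_norm _ _).trans ?_)
  rw [hg.1 j, one_mul]

end abstract

variable {E : Type} [NormedAddCommGroup E] [InnerProductSpace ℝ E] [FiniteDimensional ℝ E]
  [MeasurableSpace E] [BorelSpace E]

noncomputable def ph (τ : ℝ) (ξ : E) : ℂ := cexp (-(τ * I) * (‖ξ‖ : ℂ) ^ 2)

omit [InnerProductSpace ℝ E] [FiniteDimensional ℝ E] [MeasurableSpace E] [BorelSpace E] in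
theorem ph_mul_conj (τ σ : ℝ) (ξ : E) : ph τ ξ * conj (ph σ ξ) = ph (τ - σ) ξ := by
  simp only [ph]
  rw [← Complex.exp_conj, ← Complex.exp_add]
  congr 1
  simp only [map_mul, map_neg, map_pow, Complex.conj_ofReal, Complex.conj_I]
  push_cast
  ring

omit [InnerProductSpace ℝ E] [FiniteDimensional ℝ E] [MeasurableSpace E] [BorelSpace E] in
theorem norm_ph (τ : ℝ) (ξ : E) : ‖ph τ ξ‖ = 1 := by
  have : ph τ ξ = cexp (((-τ * ‖ξ‖ ^ 2 : ℝ) : ℂ) * I) := by
    simp only [ph]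
    congr 1
    push_cast
    ring
  rw [this, Complex.norm_exp_ofReal_mul_I]

omit [InnerProductSpace ℝ E] [FiniteDimensional ℝ E] [MeasurableSpace E] [BorelSpace E] in
theorem continuous_ph : Continuous fun p : ℝ × E => ph p.1 p.2 := by
  unfold ph
  fun_prop

theorem exists_mul {X : Type} [MeasurableSpace X] {μ : Measure X} (g : X → ℂ)
    (hg : AEStronglyMeasurable g μ) (C : ℝ) (hC : ∀ x, ‖g x‖ ≤ C) (f : Lp ℂ 2 μ) :
    ∃ y : Lp ℂ 2 μ, (y : X → ℂ) =ᵐ[μ] fun x => g x * f x := by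
  have h : MemLp (fun x => g x * f x) 2 μ :=
    MemLp.of_le_mul (c := C) (Lp.memLp f) (hg.mul (Lp.memLp f).1) (Eventually.of_forall fun x => by
      rw [norm_mul]
      exact mul_le_mul_of_nonneg_right (hC x) (norm_nonneg _))
  exact ⟨h.toLp, h.coeFn_toLp⟩

theorem inner_L2 {X : Type} [MeasurableSpace X] {μ : Measure X} (f g : Lp ℂ 2 μ) :
    ⟪f, g⟫_ℂ = ∫ x, conj (f x) * g x ∂μ := by
  rw [L2.inner_def]
  simp only [RCLike.inner_apply']

theorem integrable_L2 {X : Type} [MeasurableSpace X] {μ : Measure X} (f g : Lp ℂ 2 μ) :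
    Integrable (fun x => conj (f x) * g x) μ := by
  have := L2.integrable_inner (𝕜 := ℂ) f g
  simpa only [RCLike.inner_apply'] using! this

theorem gram {ι A : Type} (S : Finset ι) (f : ι → Lp ℂ 2 (volume : Measure E))
    (hf : Orthonormal ℂ f) (τ : A → ℝ) (u : A → ι → Lp ℂ 2 (volume : Measure E))
    (hu : ∀ α j, ((𝓕 (u α j) : Lp ℂ 2 (volume : Measure E)) : E → ℂ) =ᵐ[volume]
      fun ξ => ph (τ α) ξ * (𝓕 (f j) : Lp ℂ 2 (volume : Measure E)) ξ)
    (V : A → E → ℝ) (hVm : ∀ α, Measurable (V α)) (hV0 : ∀ α x, 0 ≤ V α x) (v : A → ℝ)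
    (hVv : ∀ α x, V α x ≤ v α) (hVi : ∀ α, Integrable (V α)) :
    ∃ T E' : A → A → ℝ,
      (∀ (B B' : Finset A) (η : ℝ), 0 < η → ∑ α ∈ B, ∑ β ∈ B', T α β ≤
        η / 2 * ∑ α ∈ B, ∑ β ∈ B, T α β + 1 / (2 * η) * ∑ α ∈ B', ∑ β ∈ B', T α β) ∧
      (∀ α, T α α ≤ v α * ∑ j ∈ S, ∫ x, V α x * ‖u α j x‖ ^ 2) ∧
      (∀ α β, τ α ≠ τ β → T α β ≤ E' α β / 2 +
        (Real.pi / |τ α - τ β|) ^ Module.finrank ℝ E / 2 * ((∫ x, V α x) * ∫ x, V β x)) ∧
      (∀ α β, 0 ≤ E' α β) ∧
      (∀ B : Finset A, ∑ α ∈ B, ∑ β ∈ B, E' α β ≤ ∑ α ∈ B, ∑ β ∈ B, T α β) ∧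
      (∀ α β, T α β = T β α) ∧ (∀ α β, E' α β = E' β α) ∧
      (∀ B : Finset A, (∑ α ∈ B, ∑ j ∈ S, ∫ x, V α x * ‖u α j x‖ ^ 2) ^ 2 ≤
        S.card * ∑ α ∈ B, ∑ β ∈ B, T α β) := by
  have hVc : ∀ α, AEStronglyMeasurable (fun x => (V α x : ℂ)) volume := fun α =>
    (Complex.measurable_ofReal.comp (hVm α)).aestronglyMeasurable
  have hVn : ∀ α x, ‖(V α x : ℂ)‖ ≤ v α := fun α x => by
    rw [Complex.norm_real, Real.norm_of_nonneg (hV0 α x)]
    exact hVv α x
  choose a ha using fun α j => exists_mul (fun x => (V α x : ℂ)) (hVc α) (v α) (hVn α) (u α j)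
  choose x hx using fun α j => exists_mul (fun ξ : E => conj (ph (τ α) ξ))
    (Continuous.aestronglyMeasurable (Complex.continuous_conj.comp
      (continuous_ph.comp (Continuous.prodMk_right (τ α))))) 1
    (fun ξ => by rw [Complex.norm_conj, norm_ph]) (𝓕 (a α j) : Lp ℂ 2 (volume : Measure E))
  set g : ι → Lp ℂ 2 (volume : Measure E) := fun j => 𝓕 (f j) with hg
  have hgo : Orthonormal ℂ g := hf.comp_linearIsometryEquiv (Lp.fourierTransformₗᵢ E ℂ)
  have hG : ∀ α i j, ⟪g i, x α j⟫_ℂ = ∫ y, conj (u α i y) * ((V α y : ℂ) * u α j y) := by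
    intro α i j
    calc ⟪g i, x α j⟫_ℂ = ⟪(𝓕 (u α i) : Lp ℂ 2 (volume : Measure E)), 𝓕 (a α j)⟫_ℂ := by
          rw [inner_L2, inner_L2]
          apply integral_congr_ae
          filter_upwards [hu α i, hx α j] with ξ h1 h2
          rw [h1, h2, map_mul]
          ring
      _ = ⟪u α i, a α j⟫_ℂ := Lp.inner_fourier_eq _ _
      _ = _ := by
          rw [inner_L2]
          apply integral_congr_ae
          filter_upwards [ha α j] with y h1
          rw [h1]
  have hGi : ∀ α i j, Integrable fun y => conj (u α i y) * ((V α y : ℂ) * u α j y) := by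
    intro α i j
    refine (integrable_L2 (u α i) (a α j)).congr ?_
    filter_upwards [ha α j] with y h1
    rw [h1]
  have hGd : ∀ α j, (⟪g j, x α j⟫_ℂ).re = ∫ y, V α y * ‖u α j y‖ ^ 2 := by
    intro α j
    rw [hG, ← Complex.ofReal_re (∫ y, V α y * ‖u α j y‖ ^ 2), ← integral_complex_ofReal]
    congr 2
    ext y
    push_cast
    rw [← Complex.conj_mul']
    ring
  have hxx : ∀ α β j, ⟪x α j, x β j⟫_ℂ = ∫ ξ, ph (τ α - τ β) ξ *
      (conj ((𝓕 (a α j) : Lp ℂ 2 (volume : Measure E)) ξ) *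
        (𝓕 (a β j) : Lp ℂ 2 (volume : Measure E)) ξ) := by
    intro α β j
    rw [inner_L2]
    apply integral_congr_ae
    filter_upwards [hx α j, hx β j] with ξ h1 h2
    rw [h1, h2, map_mul, Complex.conj_conj, ← ph_mul_conj]
    ring
  have hu2 : ∀ α j, Integrable fun y => ‖u α j y‖ ^ 2 := fun α j =>
    (memLp_two_iff_integrable_sq_norm (Lp.memLp (u α j)).1).1 (Lp.memLp _)
  have hVu2 : ∀ α j, Integrable fun y => V α y * ‖u α j y‖ ^ 2 := fun α j =>
    (hu2 α j).bdd_mul (c := v α) (hVm α).aestronglyMeasurable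
      (Eventually.of_forall fun y => by rw [Real.norm_of_nonneg (hV0 α y)]; exact hVv α y)
  have hai : ∀ α j, Integrable fun y => (V α y : ℂ) * u α j y := by
    intro α j
    refine ((hVi α).add (hVu2 α j)).mono' ((hVc α).mul (Lp.memLp _).1) ?_
    filter_upwards with y
    rw [norm_mul, Complex.norm_real, Real.norm_of_nonneg (hV0 α y), Pi.add_apply]
    have := hV0 α y
    have h2 : ‖u α j y‖ ≤ 1 + ‖u α j y‖ ^ 2 := by nlinarith [sq_nonneg (‖u α j y‖ - 1)]
    nlinarith [mul_le_mul_of_nonneg_left h2 this]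
  have hEint : ∀ α β, Integrable (fun z : E × E => V α z.1 * V β z.2 *
      ‖∑ j ∈ S, conj (u α j z.1) * u β j z.2‖ ^ 2) (volume.prod volume) ∧
      EE S g x α β = ∫ z : E × E, V α z.1 * V β z.2 *
        ‖∑ j ∈ S, conj (u α j z.1) * u β j z.2‖ ^ 2 ∂(volume.prod volume) := by
    intro α β
    set φ : ι → ι → E × E → ℂ := fun i j z =>
      conj (conj (u α i z.1) * ((V α z.1 : ℂ) * u α j z.1)) *
        (conj (u β i z.2) * ((V β z.2 : ℂ) * u β j z.2)) with hφ
    have hφi : ∀ i j, Integrable (φ i j) (volume.prod volume) := fun i j =>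
      (integrable_conj (hGi α i j)).mul_prod (hGi β i j)
    have hpt : ∀ z : E × E, V α z.1 * V β z.2 * ‖∑ j ∈ S, conj (u α j z.1) * u β j z.2‖ ^ 2 =
        (∑ i ∈ S, ∑ j ∈ S, φ i j z).re := by
      intro z
      rw [← Complex.ofReal_re (V α z.1 * V β z.2 * _)]
      congr 1
      push_cast
      rw [← Complex.conj_mul', map_sum, Finset.sum_mul_sum]
      simp only [Finset.mul_sum, hφ, map_mul, Complex.conj_conj, Complex.conj_ofReal]
      refine Finset.sum_congr rfl fun i _ => Finset.sum_congr rfl fun j _ => ?_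
      ring
    have hs : Integrable (fun z => ∑ i ∈ S, ∑ j ∈ S, φ i j z) (volume.prod volume) :=
      integrable_finsetSum _ fun i _ => integrable_finsetSum _ fun j _ => hφi i j
    simp only [hpt]
    refine ⟨hs.re, ?_⟩
    have := integral_re hs
    simp only [RCLike.re_to_complex] at this
    rw [this, integral_finsetSum _ fun i _ => integrable_finsetSum _ fun j _ => hφi i j]
    simp only [EE, Complex.re_sum]
    refine Finset.sum_congr rfl fun i _ => ?_
    rw [integral_finsetSum _ fun j _ => hφi i j, Complex.re_sum]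
    refine Finset.sum_congr rfl fun j _ => ?_
    rw [hG, hG, ← integral_conj, ← integral_prod_mul]
  refine ⟨TT S x, EE S g x, TT_cs S x, ?_, ?_, ?_, EE_le S g hgo x, TT_symm S x, EE_symm S g x, ?_⟩
  · intro α
    rw [TT, Finset.mul_sum]
    apply Finset.sum_le_sum
    intro j _
    have h1 : ⟪x α j, x α j⟫_ℂ = ⟪a α j, a α j⟫_ℂ := by
      rw [hxx, ← Lp.inner_fourier_eq (a α j), inner_L2]
      simp [ph]
    have h2 : ⟪a α j, a α j⟫_ℂ = ((∫ y, V α y * (V α y * ‖u α j y‖ ^ 2) : ℝ) : ℂ) := by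
      rw [inner_L2, ← integral_complex_ofReal]
      apply integral_congr_ae
      filter_upwards [ha α j] with y h
      rw [h, map_mul, Complex.conj_ofReal]
      push_cast
      rw [← Complex.conj_mul']
      ring
    rw [h1, h2, Complex.ofReal_re, ← integral_const_mul]
    apply integral_mono_of_nonneg
    · filter_upwards with y
      have := hV0 α y
      positivity
    · exact (hVu2 α j).const_mul _
    · filter_upwards with y
      have := hV0 α y
      exact mul_le_mul_of_nonneg_right (hVv α y) (by positivity)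
  · intro α β hαβ
    have hF := fun γ j => fourier_L2_eq (a γ j) (hai γ j) (ha γ j)
    have hi : ∀ j, Integrable fun ξ => conj (𝓕 (fun y => (V α y : ℂ) * u α j y) ξ) *
        𝓕 (fun y => (V β y : ℂ) * u β j y) ξ := by
      intro j
      refine (integrable_L2 (𝓕 (a α j) : Lp ℂ 2 (volume : Measure E)) (𝓕 (a β j))).congr ?_
      filter_upwards [hF α j, hF β j] with ξ h1 h2
      rw [h1, h2]
    have h1 := disp S (fun j y => (V α y : ℂ) * u α j y) (fun j y => (V β y : ℂ) * u β j y)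
      (hai α) (hai β) (τ α - τ β) (sub_ne_zero.2 hαβ) (integrable_finsetSum _ fun j _ => hi j)
    have h2 : ∑ j ∈ S, ⟪x α j, x β j⟫_ℂ = ∫ ξ, ph (τ α - τ β) ξ *
        ∑ j ∈ S, conj (𝓕 (fun y => (V α y : ℂ) * u α j y) ξ) *
          𝓕 (fun y => (V β y : ℂ) * u β j y) ξ := by
      simp only [Finset.mul_sum]
      rw [integral_finsetSum]
      · refine Finset.sum_congr rfl fun j _ => ?_
        rw [hxx]
        apply integral_congr_ae
        filter_upwards [hF α j, hF β j] with ξ h1 h2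
        rw [h1, h2]
      · intro j _
        exact (hi j).bdd_mul (c := 1)
          (continuous_ph.comp (Continuous.prodMk_right _)).aestronglyMeasurable
          (Eventually.of_forall fun ξ => (norm_ph _ _).le)
    rw [TT, ← Complex.re_sum, h2]
    refine (Complex.re_le_norm _).trans (h1.trans ?_)
    set c := (Real.pi / |τ α - τ β|) ^ Module.finrank ℝ E with hc
    have hc0 : 0 ≤ c := by positivity
    rw [(hEint α β).2, ← integral_prod_mul, ← integral_const_mul, ← integral_const_mul,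
      ← integral_div, ← integral_add ((hEint α β).1.div_const 2)
        (((hVi α).mul_prod (hVi β)).const_mul _)]
    apply integral_mono_of_nonneg
    · filter_upwards with z
      positivity
    · exact ((hEint α β).1.div_const 2).add (((hVi α).mul_prod (hVi β)).const_mul _)
    · filter_upwards with z
      have h3 : ∑ j ∈ S, conj ((V α z.1 : ℂ) * u α j z.1) * ((V β z.2 : ℂ) * u β j z.2) =
          ((V α z.1 * V β z.2 : ℝ) : ℂ) * ∑ j ∈ S, conj (u α j z.1) * u β j z.2 := by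
        rw [Finset.mul_sum]
        refine Finset.sum_congr rfl fun j _ => ?_
        rw [map_mul, Complex.conj_ofReal]
        push_cast
        ring
      have h4 : 0 ≤ V α z.1 * V β z.2 := mul_nonneg (hV0 _ _) (hV0 _ _)
      rw [h3, norm_mul, Complex.norm_real, Real.norm_of_nonneg h4]
      set r := ‖∑ j ∈ S, conj (u α j z.1) * u β j z.2‖
      have h5 : √c * r ≤ r ^ 2 / 2 + c / 2 := by
        nlinarith [sq_nonneg (√c - r), Real.sq_sqrt hc0]
      nlinarith [mul_le_mul_of_nonneg_left h5 h4]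
  · intro α β
    rw [(hEint α β).2]
    apply integral_nonneg
    intro z
    have := mul_nonneg (hV0 α z.1) (hV0 β z.2)
    positivity
  · intro B
    simp only [← hGd]
    exact diag_sq_le S g hgo x B

end Pool.Agent.Lib.MP_dacecb_an
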