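import Pool.Agent.Lib.MP_dacecb_an.Dual

namespace Pool.Agent.Lib.MP_dacecb_an

open MeasureTheory FourierTransform Filter Topology Set
open scoped ENNReal

theorem shift_bound (g : ℝ → ℝ≥0∞) (hg : Measurable g) (δ : ℝ) (hδ : 0 < δ) (K : ℝ≥0∞)
    (h : ∀ (s : ℝ) (n : ℕ), ENNReal.ofReal δ * ∑ m ∈ Finset.range n, g (s + m * δ) ≤ K) :
    ∫⁻ t, g t ≤ K := by
  have h1 : ∀ (a : ℝ) (n : ℕ), ∫⁻ t in Ioc a (a + n * δ), g t =
      ∑ m ∈ Finset.range n, ∫⁻ t in Ioc a (a + δ), g (t + m * δ) := by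
    intro a n
    induction n with
    | zero => simp
    | succ n ih =>
      have hn : (0 : ℝ) ≤ n * δ := by positivity
      rw [Finset.sum_range_succ, ← ih, ← Ioc_union_Ioc_eq_Ioc (b := a + n * δ) (by linarith)
        (by push_cast; linarith), lintegral_union measurableSet_Ioc (Ioc_disjoint_Ioc_of_le le_rfl)]
      congr 1
      rw [← (measurePreserving_add_right volume (n * δ)).setLIntegral_comp_preimage_emb
        (measurableEmbedding_addRight _) g]
      congr 2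
      rw [preimage_add_const_Ioc]
      congr 1
      · ring
      · push_cast
        ring
  have h2 : ∀ (a : ℝ) (n : ℕ), ∫⁻ t in Ioc a (a + n * δ), g t ≤ K := by
    intro a n
    rw [h1, ← lintegral_finsetSum (f := fun (m : ℕ) t => g (t + m * δ)) _
      fun m _ => hg.comp (measurable_add_const _)]
    have h3 : ∫⁻ t in Ioc a (a + δ), ∑ m ∈ Finset.range n, g (t + m * δ) ≤
        ∫⁻ _t in Ioc a (a + δ), K / ENNReal.ofReal δ := by
      apply lintegral_mono
      intro t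
      rw [ENNReal.le_div_iff_mul_le (Or.inl (by simpa using hδ)) (Or.inl ENNReal.ofReal_ne_top),
        mul_comm]
      exact h t n
    refine h3.trans (le_of_eq ?_)
    rw [setLIntegral_const, Real.volume_Ioc, add_sub_cancel_left,
      ENNReal.div_mul_cancel (by simpa using hδ) ENNReal.ofReal_ne_top]
  have h3 : (⋃ n : ℕ, Ioc (-(n * δ)) (-(n * δ) + (2 * n : ℕ) * δ)) = univ := by
    rw [eq_univ_iff_forall]
    intro t
    obtain ⟨n, hn⟩ := exists_nat_gt (|t| / δ)
    rw [div_lt_iff₀ hδ, abs_lt] at hn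
    refine mem_iUnion.2 ⟨n, hn.1, ?_⟩
    push_cast
    linarith [hn.2]
  rw [← setLIntegral_univ, ← h3, setLIntegral_iUnion_of_directed]
  · exact iSup_le fun n => h2 _ _
  · apply Monotone.directed_le
    intro m n hmn
    have : (m : ℝ) * δ ≤ n * δ := mul_le_mul_of_nonneg_right (by exact_mod_cast hmn) hδ.le
    apply Ioc_subset_Ioc
    · linarith
    · push_cast
      linarith

theorem norm_sq_L2 {X : Type} [MeasurableSpace X] {μ : Measure X} (w : Lp ℂ 2 μ) :
    ‖w‖ ^ 2 = ∫ x, ‖w x‖ ^ 2 ∂μ := by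
  have h1 := inner_L2 w w
  rw [inner_self_eq_norm_sq_to_K] at h1
  simp only [Complex.conj_mul'] at h1
  have h2 : ((‖w‖ ^ 2 : ℝ) : ℂ) = ((∫ x, ‖w x‖ ^ 2 ∂μ : ℝ) : ℂ) := by
    rw [← integral_complex_ofReal]
    simpa using h1
  exact_mod_cast h2

theorem meas_lint {X : Type} [MeasurableSpace X] {μ : Measure X} (φ : ℝ → ℝ≥0∞)
    (hφ : Continuous φ) (ρ : ℝ → Lp ℝ 1 μ) (hρ : Continuous ρ) :
    Measurable fun t => ∫⁻ x, φ (ρ t x) ∂μ := by
  apply measurable_of_Iic
  intro c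
  apply IsClosed.measurableSet
  apply IsSeqClosed.isClosed
  intro t a ht hta
  obtain ⟨ns, _, hns⟩ :=
    (tendstoInMeasure_of_tendsto_Lp ((hρ.tendsto a).comp hta)).exists_seq_tendsto_ae
  have h1 : ∫⁻ x, φ (ρ a x) ∂μ = ∫⁻ x, liminf (fun i => φ (ρ (t (ns i)) x)) atTop ∂μ := by
    apply lintegral_congr_ae
    filter_upwards [hns] with x hx
    exact (((hφ.tendsto _).comp hx).liminf_eq).symm
  rw [mem_preimage, mem_Iic, h1]
  refine (lintegral_liminf_le fun i =>
    hφ.measurable.comp (Lp.stronglyMeasurable _).measurable).trans ?_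
  exact liminf_le_of_frequently_le' (Frequently.of_forall fun i => ht (ns i))

theorem exists_rho {X ι : Type} [MeasurableSpace X] {μ : Measure X} (J : Finset ι) (c : ι → ℝ)
    (u : ℝ → ι → Lp ℂ 2 μ) (hu : ∀ j, Continuous fun t => u t j) :
    ∃ ρ : ℝ → Lp ℝ 1 μ, Continuous ρ ∧
      ∀ t, (ρ t : X → ℝ) =ᵐ[μ] fun x => ∑ j ∈ J, c j * ‖u t j x‖ ^ 2 := by
  classical
  set B : ℂ →L[ℝ] ℂ →L[ℝ] ℝ := (isBoundedBilinearMap_inner (𝕜 := ℝ)).toContinuousLinearMap with hB
  induction J using Finset.induction_on with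
  | empty =>
    refine ⟨fun _ => 0, continuous_const, fun t => ?_⟩
    filter_upwards [Lp.coeFn_zero ℝ 1 μ] with x hx
    simpa using hx
  | insert j J hj ih =>
    obtain ⟨ρ, h1, h2⟩ := ih
    refine ⟨fun t => c j • B.holderL μ 2 2 1 (u t j) (u t j) + ρ t, ?_, fun t => ?_⟩
    · exact ((((B.holderL μ 2 2 1).continuous.comp (hu j)).clm_apply (hu j)).const_smul (c j)).add h1
    · filter_upwards [Lp.coeFn_add (c j • B.holderL μ 2 2 1 (u t j) (u t j)) (ρ t),
        Lp.coeFn_smul (c j) (B.holderL μ 2 2 1 (u t j) (u t j)),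
        B.coeFn_holder (r := 1) (u t j) (u t j), h2 t] with x e1 e2 e3 e4
      rw [e1, Pi.add_apply, e2, e4, Finset.sum_insert hj, Pi.smul_apply,
        ContinuousLinearMap.holderL_apply_apply, e3, smul_eq_mul]
      congr 2
      rw [hB, IsBoundedBilinearMap.toContinuousLinearMap_apply]
      exact real_inner_self_eq_norm_sq _

variable {E : Type} [NormedAddCommGroup E] [InnerProductSpace ℝ E] [FiniteDimensional ℝ E]
  [MeasurableSpace E] [BorelSpace E]

theorem cont_u (κ : ℝ) (f : Lp ℂ 2 (volume : Measure E)) (u : ℝ → Lp ℂ 2 (volume : Measure E))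
    (hu : ∀ t, ((𝓕 (u t) : Lp ℂ 2 (volume : Measure E)) : E → ℂ) =ᵐ[volume]
      fun ξ => ph (κ * t) ξ * (𝓕 f : Lp ℂ 2 (volume : Measure E)) ξ) : Continuous u := by
  rw [continuous_iff_continuousAt]
  intro s
  set g : Lp ℂ 2 (volume : Measure E) := 𝓕 f
  have h1 : ∀ t, ‖u t - u s‖ = √(∫ ξ, ‖ph (κ * t) ξ - ph (κ * s) ξ‖ ^ 2 * ‖g ξ‖ ^ 2) := by
    intro t
    have e : (𝓕 (u t - u s) : Lp ℂ 2 (volume : Measure E)) = 𝓕 (u t) - 𝓕 (u s) :=
      (Lp.fourierTransformₗᵢ E ℂ).map_sub _ _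
    rw [← Lp.norm_fourier_eq, e, ← Real.sqrt_sq (norm_nonneg _), norm_sq_L2]
    congr 1
    apply integral_congr_ae
    filter_upwards [Lp.coeFn_sub (𝓕 (u t) : Lp ℂ 2 (volume : Measure E)) (𝓕 (u s)), hu t, hu s]
      with ξ e1 e2 e3
    rw [e1, Pi.sub_apply, e2, e3, ← sub_mul, norm_mul, mul_pow]
  have hg2 : Integrable fun y => ‖g y‖ ^ 2 :=
    (memLp_two_iff_integrable_sq_norm (Lp.memLp g).1).1 (Lp.memLp _)
  have h2 : Continuous fun t => ∫ ξ, ‖ph (κ * t) ξ - ph (κ * s) ξ‖ ^ 2 * ‖g ξ‖ ^ 2 := by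
    apply continuous_of_dominated (bound := fun ξ => 2 ^ 2 * ‖g ξ‖ ^ 2)
    · intro t
      refine (Continuous.aestronglyMeasurable ?_).mul hg2.1
      unfold ph
      fun_prop
    · intro t
      filter_upwards with ξ
      rw [Real.norm_of_nonneg (by positivity)]
      apply mul_le_mul_of_nonneg_right _ (sq_nonneg _)
      apply pow_le_pow_left₀ (norm_nonneg _)
      refine (norm_sub_le _ _).trans ?_
      rw [norm_ph, norm_ph]
      norm_num
    · exact hg2.const_mul _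
    · filter_upwards with ξ
      unfold ph
      fun_prop
  rw [ContinuousAt, tendsto_iff_norm_sub_tendsto_zero]
  simp only [h1]
  simpa using h2.sqrt.tendsto s

end Pool.Agent.Lib.MP_dacecb_an
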