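import Pool.Agent.Lib.MP_dacecb_an.LogMain

namespace Pool.Agent.Lib.MP_dacecb_an

open scoped ENNReal NNReal

theorem beta_le {ι : Type} (β : ℝ) (hβ : 0 < β) (lam : ι → ℂ) (n : ℕ) (S : Finset ι)
    (hS : n < S.card) : ∃ j ∈ S, ‖lam j‖ₑ ≤
      ENNReal.ofReal (((n : ℝ) + 1) ^ (-(1 / β))) * (∑' j, ‖lam j‖ₑ ^ β) ^ (1 / β) := by
  obtain ⟨j, hj, hmin⟩ := S.exists_min_image (fun j => ‖lam j‖ₑ) (Finset.card_pos.1 (by omega))
  refine ⟨j, hj, ?_⟩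
  have h1 : ENNReal.ofReal ((n : ℝ) + 1) * ‖lam j‖ₑ ^ β ≤ ∑' j, ‖lam j‖ₑ ^ β := by
    refine le_trans ?_ (ENNReal.sum_le_tsum S)
    refine le_trans ?_ (Finset.card_nsmul_le_sum S _ (‖lam j‖ₑ ^ β) fun i hi =>
      ENNReal.rpow_le_rpow (hmin i hi) hβ.le)
    rw [nsmul_eq_mul, ← ENNReal.ofReal_natCast]
    exact mul_le_mul_left (ENNReal.ofReal_le_ofReal (by exact_mod_cast hS)) _
  have h2 := mul_le_mul_right (ENNReal.rpow_le_rpow h1 (show 0 ≤ 1 / β by positivity))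
    (ENNReal.ofReal (((n : ℝ) + 1) ^ (-(1 / β))))
  refine le_trans (le_of_eq ?_) h2
  have h3 : (0 : ℝ) < n + 1 := by positivity
  rw [ENNReal.mul_rpow_of_nonneg _ _ (by positivity), ← ENNReal.rpow_mul,
    mul_one_div_cancel hβ.ne', ENNReal.rpow_one, ← mul_assoc,
    ENNReal.ofReal_rpow_of_pos h3, ← ENNReal.ofReal_mul (by positivity), ← Real.rpow_add h3,
    neg_add_cancel, Real.rpow_zero, ENNReal.ofReal_one, one_mul]

theorem beta_sum (β : ℝ) (h0 : 0 < β) (h2 : β < 2) : ∃ K : ℝ≥0, ∀ X : ℝ≥0∞,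
    ∑' n : ℕ, ENNReal.ofReal √((1 + Real.log ((n : ℝ) + 1)) / ((n : ℝ) + 1)) *
      (ENNReal.ofReal (((n : ℝ) + 1) ^ (-(1 / β))) * X) = K * X := by
  obtain ⟨ε, hε, hβ⟩ : ∃ ε : ℝ, 0 < ε ∧ 1 / β = ε + 1 / 2 :=
    ⟨1 / β - 1 / 2, sub_pos.2 (one_div_lt_one_div_of_lt h0 h2), by ring⟩
  have hs : Summable fun n : ℕ => √((1 + Real.log ((n : ℝ) + 1)) / ((n : ℝ) + 1)) *
      ((n : ℝ) + 1) ^ (-(1 / β)) := by
    have h1 : Summable fun n : ℕ => √(1 + 1 / ε) * ((n + 1 : ℕ) : ℝ) ^ (-1 - ε / 2) :=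
      ((summable_nat_add_iff 1).2 (Real.summable_nat_rpow.2 (by linarith))).mul_left _
    refine h1.of_nonneg_of_le (fun n => by positivity) fun n => ?_
    push_cast
    have h3 : (0 : ℝ) < n + 1 := by positivity
    set x := (n : ℝ) + 1 with hx
    have h4 : 1 ≤ x ^ ε := Real.one_le_rpow (by linarith [Nat.cast_nonneg (α := ℝ) n]) hε.le
    have h5 := Real.log_le_rpow_div h3.le hε
    have h6 : (1 + Real.log x) / x ≤ (1 + 1 / ε) * x ^ (ε - 1) := by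
      rw [Real.rpow_sub_one h3.ne', ← mul_div_assoc]
      apply div_le_div_of_nonneg_right _ h3.le
      rw [add_mul, one_mul, one_div_mul_eq_div]
      linarith
    refine (mul_le_mul_of_nonneg_right (Real.sqrt_le_sqrt h6) (by positivity)).trans (le_of_eq ?_)
    rw [Real.sqrt_mul (by positivity), Real.sqrt_eq_rpow (x ^ _), ← Real.rpow_mul h3.le, mul_assoc,
      ← Real.rpow_add h3, hβ]
    congr 2
    ring
  refine ⟨(∑' n : ℕ, √((1 + Real.log ((n : ℝ) + 1)) / ((n : ℝ) + 1)) *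
    ((n : ℝ) + 1) ^ (-(1 / β))).toNNReal, fun X => ?_⟩
  simp only [← mul_assoc, ← ENNReal.ofReal_mul (Real.sqrt_nonneg _)]
  rw [ENNReal.tsum_mul_right, ← ENNReal.ofReal_tsum_of_nonneg (fun n => by positivity) hs]
  rfl

open MeasureTheory FourierTransform in
/-- The `ℓ^β` form, `β < 2`, of the strong-type bound on the line. -/
theorem main_beta (κ : ℝ) (hκ : 0 < κ) (β : ℝ) (h0 : 0 < β) (h2 : β < 2) : ∃ C : ℝ≥0,
    ∀ (ι : Type) [Countable ι] (f : ι → Lp ℂ 2 (volume : Measure ℝ)), Orthonormal ℂ f →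
    ∀ u : ℝ → ι → Lp ℂ 2 (volume : Measure ℝ),
    (∀ t j, ((𝓕 (u t j) : Lp ℂ 2 (volume : Measure ℝ)) : ℝ → ℂ) =ᵐ[volume]
      fun ξ => ph (κ * t) ξ * (𝓕 (f j) : Lp ℂ 2 (volume : Measure ℝ)) ξ) → ∀ lam : ι → ℂ,
    ∫⁻ t, (essSup (fun x => ∑' j, ‖lam j‖ₑ * ‖u t j x‖ₑ ^ 2) volume) ^ 2 ≤
      (C * (∑' j, ‖lam j‖ₑ ^ β) ^ (1 / β)) ^ 2 := by
  obtain ⟨K, hK⟩ := beta_sum β h0 h2
  refine ⟨(11 * √(Real.pi / κ)).toNNReal * K, fun ι _ f hf u hu lam => ?_⟩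
  refine (main_log (E := ℝ) (by simp) κ hκ f hf u hu lam _ (beta_le β h0 lam)).trans ?_
  rw [hK, ENNReal.coe_mul, mul_assoc]
  rfl

end Pool.Agent.Lib.MP_dacecb_an
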