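import Pool.Agent.Lib.MP_dacecb_an.Core

namespace Pool.Agent.Lib.MP_dacecb_an

open Finset

theorem sum_dist (f : ℕ → ℝ) (c : ℝ) (h : ∀ B : Finset ℕ, ∑ k ∈ B, f k ≤ c) (m : ℕ)
    (A : Finset ℕ) : ∑ n ∈ A, f (Nat.dist m n) ≤ 2 * c := by
  rw [← Finset.sum_filter_add_sum_filter_not A (fun n => m < n), two_mul]
  apply add_le_add
  · rw [← Finset.sum_image (g := fun n => Nat.dist m n) (f := f)]
    · exact h _
    · intro x hx y hy hxy
      have h1 := (Finset.mem_filter.1 hx).2
      have h2 := (Finset.mem_filter.1 hy).2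
      simp only [Nat.dist] at hxy
      omega
  · rw [← Finset.sum_image (g := fun n => Nat.dist m n) (f := f)]
    · exact h _
    · intro x hx y hy hxy
      have h1 := (Finset.mem_filter.1 hx).2
      have h2 := (Finset.mem_filter.1 hy).2
      simp only [Nat.dist] at hxy
      omega

theorem sum_le_of_range (f : ℕ → ℝ) (hf : ∀ k, 0 ≤ f k) (c : ℝ)
    (h : ∀ M : ℕ, ∑ k ∈ range (M + 1), f k ≤ c) (B : Finset ℕ) : ∑ k ∈ B, f k ≤ c := by
  refine le_trans (Finset.sum_le_sum_of_subset_of_nonneg (fun n hn => ?_) fun k _ _ => hf k)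
    (h (B.sup id))
  exact Finset.mem_range.2 (Nat.lt_succ_of_le (Finset.le_sup (f := id) hn))

theorem sum_inv_sqrt (K : ℝ) (B : Finset ℕ) :
    ∑ k ∈ B, (if (k : ℝ) ≤ K then 1 / √(k : ℝ) else 0) ≤ 2 * √K := by
  apply sum_le_of_range
  · intro k
    split_ifs
    · positivity
    · exact le_rfl
  intro M
  have key : ∑ k ∈ range (M + 1), (if (k : ℝ) ≤ K then 1 / √(k : ℝ) else 0) ≤
      2 * √(min (M : ℝ) K) := by
    induction M with
    | zero => simp
    | succ M ih =>
      rw [Finset.sum_range_succ]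
      push_cast
      have hM : (0 : ℝ) ≤ M := Nat.cast_nonneg M
      split_ifs with h1
      · rw [min_eq_left (by linarith)] at ih
        rw [min_eq_left h1]
        have h2 : 0 < √((M : ℝ) + 1) := Real.sqrt_pos.2 (by linarith)
        have h3 : 1 / √((M : ℝ) + 1) ≤ 2 * √((M : ℝ) + 1) - 2 * √(M : ℝ) := by
          rw [div_le_iff₀ h2]
          nlinarith [Real.sq_sqrt hM, Real.sq_sqrt (show (0 : ℝ) ≤ M + 1 by linarith),
            sq_nonneg (√((M : ℝ) + 1) - √(M : ℝ))]
        linarith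
      · have h2 : √(min (M : ℝ) K) ≤ √(min ((M : ℝ) + 1) K) :=
          Real.sqrt_le_sqrt (min_le_min_right _ (by linarith))
        linarith
  exact key.trans (mul_le_mul_of_nonneg_left (Real.sqrt_le_sqrt (min_le_right _ _)) (by norm_num))

theorem sum_inv_log (K N : ℝ) (hK : 0 < K) (hN : 1 ≤ N) (B : Finset ℕ) :
    ∑ k ∈ B, (if K < (k : ℝ) ∧ (k : ℝ) ≤ N * K then 1 / (k : ℝ) else 0) ≤ 1 + Real.log N := by
  have hKN : K ≤ N * K := le_mul_of_one_le_left hK.le hN
  apply sum_le_of_range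
  · intro k
    split_ifs
    · positivity
    · exact le_rfl
  intro M
  have key : ∑ k ∈ range (M + 1), (if K < (k : ℝ) ∧ (k : ℝ) ≤ N * K then 1 / (k : ℝ) else 0) ≤
      if (M : ℝ) ≤ K then 0 else 1 + Real.log (min (M : ℝ) (N * K)) - Real.log K := by
    induction M with
    | zero => simp [hK.le]
    | succ M ih =>
      rw [Finset.sum_range_succ]
      push_cast
      have hM : (0 : ℝ) ≤ M := Nat.cast_nonneg M
      by_cases h1 : (M : ℝ) + 1 ≤ K
      · rw [if_pos (by linarith)] at ih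
        rw [if_pos h1, if_neg (fun h => absurd h.1 (not_lt.2 h1))]
        linarith
      rw [if_neg h1]
      by_cases h2 : (M : ℝ) ≤ K
      · rw [if_pos h2] at ih
        have h3 : Real.log K ≤ Real.log (min ((M : ℝ) + 1) (N * K)) :=
          Real.log_le_log hK (le_min (not_le.1 h1).le hKN)
        have h4 : 1 / ((M : ℝ) + 1) ≤ 1 := by
          rw [div_le_one (by linarith)]
          linarith
        split_ifs <;> linarith
      rw [if_neg h2] at ih
      have hM0 : (0 : ℝ) < M := hK.trans (not_le.1 h2)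
      split_ifs with h3
      · rw [min_eq_left (by linarith [h3.2])] at ih
        rw [min_eq_left h3.2]
        have h4 := Real.log_le_sub_one_of_pos (show 0 < (M : ℝ) / (M + 1) by positivity)
        rw [Real.log_div hM0.ne' (by linarith)] at h4
        have h5 : (M : ℝ) / (M + 1) - 1 = -(1 / ((M : ℝ) + 1)) := by
          field_simp
          ring
        linarith
      · have h4 : Real.log (min (M : ℝ) (N * K)) ≤ Real.log (min ((M : ℝ) + 1) (N * K)) :=
          Real.log_le_log (lt_min hM0 (by positivity)) (min_le_min_right _ (by linarith))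
        linarith
  refine key.trans ?_
  have h1 := Real.log_nonneg hN
  split_ifs with h2
  · linarith
  · have h3 : Real.log (min (M : ℝ) (N * K)) ≤ Real.log (N * K) :=
      Real.log_le_log (lt_min (hK.trans (not_le.1 h2)) (by positivity)) (min_le_right _ _)
    rw [Real.log_mul (by positivity) hK.ne'] at h3
    linarith

theorem sum_inv_sq (K : ℝ) (hK : 1 ≤ K) (B : Finset ℕ) :
    ∑ k ∈ B, (if K < (k : ℝ) then (1 / (k : ℝ)) ^ 2 else 0) ≤ 2 / K := by
  rw [← Finset.sum_filter]
  have h1 : 1 ≤ ⌊K⌋₊ := Nat.one_le_floor_iff _ |>.2 hK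
  have h2 := far1 0 ⌊K⌋₊ h1 (B.filter fun k => K < (k : ℝ)) fun n hn =>
    (Nat.floor_lt (by linarith)).2 (Finset.mem_filter.1 hn).2
  refine h2.trans ?_
  have h3 : (1 : ℝ) ≤ ⌊K⌋₊ := by exact_mod_cast h1
  have h4 := Nat.lt_floor_add_one K
  rw [zero_add, pow_one, div_le_div_iff₀ (by linarith) (by linarith)]
  linarith

theorem core_log (T E : ℕ → ℕ → ℝ) (a b : ℕ → ℝ) (R P B N : ℝ) (A : Finset ℕ) (hP : 0 ≤ P)
    (hN : 1 ≤ N) (hB0 : 0 < B) (ha : ∀ m, 0 ≤ a m) (hb : ∀ m ∈ A, 0 < b m)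
    (hB : ∑ m ∈ A, b m ^ 2 ≤ B) (hd : ∀ m, T m m ≤ R * a m)
    (hfar : ∀ m ∈ A, ∀ n ∈ A, m ≠ n →
      T m n ≤ E m n / 2 + P / (Nat.dist m n : ℝ) / 2 * (b m * b n))
    (hnear : ∀ m ∈ A, ∀ n ∈ A, m ≠ n →
      T m n ≤ √(P / (Nat.dist m n : ℝ)) * ((b m * a m + b n * a n) / 2))
    (hE : ∀ m n, 0 ≤ E m n) (hET : ∑ m ∈ A, ∑ n ∈ A, E m n ≤ ∑ m ∈ A, ∑ n ∈ A, T m n) :
    ∑ m ∈ A, ∑ n ∈ A, T m n ≤
      (2 * R + 8 * √(P * B / N)) * ∑ m ∈ A, a m + 9 * P * B * (1 + Real.log N) := by
  set K : ℕ → ℝ := fun m => B / (N * b m ^ 2) with hK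
  set X : ℕ → ℕ → ℝ := fun m n => √P * (b m * a m) / 2 *
    (if (Nat.dist m n : ℝ) ≤ K m then 1 / √(Nat.dist m n : ℝ) else 0) with hX
  set Y : ℕ → ℕ → ℝ := fun m n =>
    if K m < (Nat.dist m n : ℝ) ∧ b n ≤ b m then P / (Nat.dist m n : ℝ) / 2 * (b m * b n) else 0
    with hY
  have hX0 : ∀ m ∈ A, ∀ n, 0 ≤ X m n := fun m hm n => by
    have := hb m hm
    have := ha m
    simp only [hX]
    split_ifs <;> positivity
  have hY0 : ∀ m ∈ A, ∀ n ∈ A, 0 ≤ Y m n := fun m hm n hn => by
    have := hb m hm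
    have := hb n hn
    simp only [hY]
    split_ifs <;> positivity
  have hKm : ∀ m ∈ A, ∀ n ∈ A, b n ≤ b m → K m ≤ K n := fun m hm n hn h => by
    have := hb n hn
    exact div_le_div_of_nonneg_left hB0.le (by positivity)
      (mul_le_mul_of_nonneg_left (pow_le_pow_left₀ this.le h 2) (by linarith))
  have hpt : ∀ m ∈ A, ∀ n ∈ A, T m n ≤
      (if m = n then R * a m else 0) + E m n / 2 + (X m n + X n m) + (Y m n + Y n m) := by
    intro m hm n hn
    have e1 := hX0 m hm n
    have e2 := hX0 n hn m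
    have e3 := hY0 m hm n hn
    have e4 := hY0 n hn m hm
    have e5 := hE m n
    by_cases h : m = n
    · subst h
      rw [if_pos rfl]
      linarith [hd m]
    rw [if_neg h]
    by_cases h1 : (Nat.dist m n : ℝ) ≤ K m ∧ (Nat.dist m n : ℝ) ≤ K n
    · have h2 : X m n + X n m = √(P / (Nat.dist m n : ℝ)) * ((b m * a m + b n * a n) / 2) := by
        simp only [hX]
        rw [Nat.dist_comm n m, if_pos h1.1, if_pos h1.2, Real.sqrt_div hP]
        ring
      linarith [hnear m hm n hn h]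
    · have h2 := hfar m hm n hn h
      rcases le_total (b n) (b m) with h3 | h3
      · have h4 : K m < (Nat.dist m n : ℝ) := by
          by_contra h5
          exact h1 ⟨not_lt.1 h5, (not_lt.1 h5).trans (hKm m hm n hn h3)⟩
        have h5 : Y m n = P / (Nat.dist m n : ℝ) / 2 * (b m * b n) := if_pos ⟨h4, h3⟩
        linarith
      · have h4 : K n < (Nat.dist m n : ℝ) := by
          by_contra h5
          exact h1 ⟨(not_lt.1 h5).trans (hKm n hn m hm h3), not_lt.1 h5⟩
        have h5 : Y n m = P / (Nat.dist m n : ℝ) / 2 * (b m * b n) := by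
          simp only [hY]
          rw [Nat.dist_comm n m, if_pos ⟨h4, h3⟩, mul_comm (b n)]
        linarith
  have hXs : ∀ m ∈ A, ∑ n ∈ A, X m n ≤ 2 * √(P * B / N) * a m := by
    intro m hm
    have h0 := hb m hm
    have h1 := ha m
    simp only [hX]
    rw [← Finset.mul_sum]
    refine (mul_le_mul_of_nonneg_left (sum_dist (fun k => if (k : ℝ) ≤ K m then 1 / √(k : ℝ) else 0)
      _ (sum_inv_sqrt (K m)) m A) (by positivity)).trans (le_of_eq ?_)
    have h2 : √(P * B / N) = √P * (b m * √(K m)) := by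
      rw [← Real.sqrt_sq h0.le, ← Real.sqrt_mul (sq_nonneg _), ← Real.sqrt_mul hP]
      congr 1
      simp only [hK]
      field_simp
    rw [h2]
    ring
  have hYs : ∀ m ∈ A, ∑ n ∈ A, Y m n ≤ 9 / 4 * P * (1 + Real.log N) * b m ^ 2 := by
    intro m hm
    have h0 := hb m hm
    have hK0 : 0 < K m := by positivity
    have hNK : N * K m = B / b m ^ 2 := by
      simp only [hK]
      field_simp
    have hK1 : 1 ≤ N * K m := by
      rw [hNK, one_le_div (by positivity)]
      exact (Finset.single_le_sum (f := fun m => b m ^ 2) (fun _ _ => sq_nonneg _) hm).trans hB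
    have h1 : ∀ n ∈ A, Y m n ≤ P / 2 * (b m ^ 2 *
        (if K m < (Nat.dist m n : ℝ) ∧ (Nat.dist m n : ℝ) ≤ N * K m then
          1 / (Nat.dist m n : ℝ) else 0) + b m ^ 2 / (2 * B) * b n ^ 2 +
        B / 2 * (if N * K m < (Nat.dist m n : ℝ) then (1 / (Nat.dist m n : ℝ)) ^ 2 else 0)) := by
      intro n hn
      have h2 := hb n hn
      simp only [hY]
      set d : ℝ := (Nat.dist m n : ℝ)
      have hd0 : 0 ≤ d := Nat.cast_nonneg _
      by_cases h3 : K m < d ∧ b n ≤ b m
      · rw [if_pos h3]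
        have e1 : P / d / 2 * (b m * b n) = P / 2 * (b m * b n * (1 / d)) := by ring
        rw [e1]
        apply mul_le_mul_of_nonneg_left _ (by positivity)
        by_cases h4 : d ≤ N * K m
        · rw [if_pos ⟨h3.1, h4⟩, if_neg (not_lt.2 h4)]
          have h5 : b m * b n * (1 / d) ≤ b m ^ 2 * (1 / d) :=
            mul_le_mul_of_nonneg_right (by nlinarith [h3.2]) (by positivity)
          have h6 : 0 ≤ b m ^ 2 / (2 * B) * b n ^ 2 := by positivity
          linarith
        · rw [if_neg (fun h => h4 h.2), if_pos (not_le.1 h4)]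
          have h5 : b m ^ 2 / (2 * B) * b n ^ 2 + B / 2 * (1 / d) ^ 2 - b m * b n * (1 / d) =
              (b m * b n - B * (1 / d)) ^ 2 / (2 * B) := by
            field_simp
            ring
          have h6 : 0 ≤ (b m * b n - B * (1 / d)) ^ 2 / (2 * B) := by positivity
          linarith
      · rw [if_neg h3]
        split_ifs <;> positivity
    refine (Finset.sum_le_sum h1).trans ?_
    rw [← Finset.mul_sum, Finset.sum_add_distrib, Finset.sum_add_distrib, ← Finset.mul_sum,
      ← Finset.mul_sum, ← Finset.mul_sum]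
    have h2 := mul_le_mul_of_nonneg_left (sum_dist (fun k =>
      if K m < (k : ℝ) ∧ (k : ℝ) ≤ N * K m then 1 / (k : ℝ) else 0) _
      (sum_inv_log (K m) N hK0 hN) m A) (sq_nonneg (b m))
    have h3 := mul_le_mul_of_nonneg_left (sum_dist (fun k =>
      if N * K m < (k : ℝ) then (1 / (k : ℝ)) ^ 2 else 0) _ (sum_inv_sq (N * K m) hK1) m A)
      (show 0 ≤ B / 2 by positivity)
    have h4 := mul_le_mul_of_nonneg_left hB (show 0 ≤ b m ^ 2 / (2 * B) by positivity)
    have e3 : B / 2 * (2 * (2 / (N * K m))) = 2 * b m ^ 2 := by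
      rw [hNK]
      field_simp
    have e4 : b m ^ 2 / (2 * B) * B = b m ^ 2 / 2 := by field_simp
    have h5 : 0 ≤ b m ^ 2 * Real.log N := mul_nonneg (sq_nonneg _) (Real.log_nonneg hN)
    have e5 : 9 / 4 * P * (1 + Real.log N) * b m ^ 2 =
        P / 2 * (9 / 2 * (1 + Real.log N) * b m ^ 2) := by ring
    rw [e5]
    apply mul_le_mul_of_nonneg_left _ (by positivity)
    rw [e3] at h3
    rw [e4] at h4
    nlinarith
  have h1 := Finset.sum_le_sum fun m hm => Finset.sum_le_sum fun n hn => hpt m hm n hn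
  simp only [Finset.sum_add_distrib, ← Finset.sum_div] at h1
  rw [Finset.sum_comm (f := fun m n => X n m), Finset.sum_comm (f := fun m n => Y n m)] at h1
  have h2 : ∑ m ∈ A, ∑ n ∈ A, (if m = n then R * a m else 0) = R * ∑ m ∈ A, a m := by
    rw [Finset.mul_sum]
    refine Finset.sum_congr rfl fun m hm => ?_
    rw [Finset.sum_ite_eq, if_pos hm]
  have h3 := Finset.sum_le_sum hXs
  have h4 := Finset.sum_le_sum hYs
  rw [← Finset.mul_sum] at h3 h4
  have h5 := mul_le_mul_of_nonneg_left hB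
    (show 0 ≤ 9 / 4 * P * (1 + Real.log N) by have := Real.log_nonneg hN; positivity)
  rw [h2] at h1
  linarith

end Pool.Agent.Lib.MP_dacecb_an
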