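import Pool.Agent.Lib.MP_dacecb_an.Main
import Pool.Agent.Lib.MP_dacecb_an.LogGram
import Pool.Agent.Lib.MP_dacecb_an.LogCore

namespace Pool.Agent.Lib.MP_dacecb_an

open MeasureTheory FourierTransform Filter Topology Set
open scoped ENNReal

theorem sqrt_log_le_sum (N : ℕ) : √((N : ℝ) * (1 + Real.log N)) ≤
    ∑ n ∈ Finset.range N, √((1 + Real.log ((n : ℝ) + 1)) / ((n : ℝ) + 1)) := by
  rcases Nat.eq_zero_or_pos N with rfl | hN
  · simp
  have hN0 : (0 : ℝ) < N := by exact_mod_cast hN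
  calc √((N : ℝ) * (1 + Real.log N)) = ∑ _n ∈ Finset.range N, √((1 + Real.log N) / N) := by
        rw [Finset.sum_const, Finset.card_range, nsmul_eq_mul]
        nth_rewrite 3 [← Real.sqrt_sq hN0.le]
        rw [← Real.sqrt_mul (sq_nonneg _)]
        congr 1
        field_simp
    _ ≤ _ := by
        apply Finset.sum_le_sum
        intro n hn
        apply Real.sqrt_le_sqrt
        have h1 : (n : ℝ) + 1 ≤ N := by exact_mod_cast Finset.mem_range.1 hn
        have h2 : (0 : ℝ) < n + 1 := by positivity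
        have h3 := Real.log_le_sub_one_of_pos (div_pos hN0 h2)
        rw [Real.log_div hN0.ne' h2.ne', sub_le_iff_le_add, div_sub_one h2.ne',
          div_add' _ _ _ h2.ne', le_div_iff₀ h2] at h3
        have h4 : 0 ≤ Real.log ((n : ℝ) + 1) := Real.log_nonneg (by linarith [Nat.cast_nonneg (α := ℝ) n])
        rw [div_le_div_iff₀ hN0 h2]
        nlinarith [mul_le_mul_of_nonneg_left h1 h4]

noncomputable def cut (c r : ℝ) : ℝ := min (max (r - c) 0) 1

theorem cut_nonneg (c r : ℝ) : 0 ≤ cut c r := le_min (le_max_right _ _) zero_le_one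

theorem cut_le_one (c r : ℝ) : cut c r ≤ 1 := min_le_right _ _

theorem cut_le (c r : ℝ) (hc : 0 ≤ c) (hr : 0 ≤ r) : cut c r ≤ r :=
  (min_le_left _ _).trans (max_le (by linarith) hr)

theorem cut_mul (c r : ℝ) : c * cut c r ≤ cut c r * r := by
  rcases le_total c r with h | h
  · rw [mul_comm]
    exact mul_le_mul_of_nonneg_left h (cut_nonneg c r)
  · have : cut c r = 0 := by
      rw [cut, max_eq_right (by linarith), min_eq_left zero_le_one]
    simp [this]

theorem cut_mono (c : ℝ) {r s : ℝ} (h : r ≤ s) : cut c r ≤ cut c s :=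
  min_le_min_right _ (max_le_max_right _ (by linarith))

theorem le_of_cut {c r : ℝ} (h : cut c r ≤ 0) : r ≤ c := by
  rcases min_le_iff.1 h with h1 | h1
  · linarith [le_max_left (r - c) 0]
  · linarith

theorem continuous_cut (c : ℝ) : Continuous (cut c) := by
  unfold cut
  fun_prop

theorem integrable_cut {X : Type} [MeasurableSpace X] {μ : Measure X} (c : ℝ) (hc : 0 ≤ c)
    (ρ : X → ℝ) (hρ0 : ∀ x, 0 ≤ ρ x) (hρi : Integrable ρ μ) :
    Integrable (fun x => cut c (ρ x)) μ :=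
  hρi.mono' ((continuous_cut c).comp_aestronglyMeasurable hρi.1) (Eventually.of_forall fun x => by
    rw [Real.norm_of_nonneg (cut_nonneg _ _)]
    exact cut_le c _ hc (hρ0 x))

variable {E : Type} [NormedAddCommGroup E] [InnerProductSpace ℝ E] [FiniteDimensional ℝ E]
  [MeasurableSpace E] [BorelSpace E]

theorem set_log (hd : Module.finrank ℝ E = 1) {ι : Type} (S : Finset ι)
    (f : ι → Lp ℂ 2 (volume : Measure E)) (hf : Orthonormal ℂ f) (κ τ δ : ℝ) (hκ : 0 < κ)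
    (hδ : 0 < δ) (u : ℕ → ι → Lp ℂ 2 (volume : Measure E))
    (hu : ∀ m j, ((𝓕 (u m j) : Lp ℂ 2 (volume : Measure E)) : E → ℂ) =ᵐ[volume]
      fun ξ => ph (τ + m * (κ * δ)) ξ * (𝓕 (f j) : Lp ℂ 2 (volume : Measure E)) ξ)
    (V : ℕ → E → ℝ) (hVm : ∀ m, Measurable (V m)) (hV0 : ∀ m x, 0 ≤ V m x) (R : ℝ) (hR : 0 ≤ R)
    (hVR : ∀ m x, V m x ≤ R) (hVi : ∀ m, Integrable (V m)) (A : Finset ℕ)
    (hb : ∀ m ∈ A, 0 < ∫ x, V m x) (ν : ℝ) (hν : 0 < ν)
    (hB : δ * ∑ m ∈ A, (∫ x, V m x) ^ 2 ≤ ν ^ 2) :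
    ∑ j ∈ S, δ * ∑ m ∈ A, ∫ x, V m x * ‖u m j x‖ ^ 2 ≤
      11 * √(Real.pi / κ) * ν * √((S.card : ℝ) * (1 + Real.log S.card)) + 2 * δ * R * S.card := by
  rcases S.eq_empty_or_nonempty with rfl | hS
  · simp
  have hN : (1 : ℝ) ≤ S.card := by exact_mod_cast hS.card_pos
  have hπ := Real.pi_pos
  obtain ⟨T, E', h1, h2, h3, h4, h5, h6⟩ := gram_near S f hf (fun m : ℕ => τ + m * (κ * δ))
    u hu V hVm hV0 (fun _ => R) hVR hVi
  set a : ℕ → ℝ := fun m => ∑ j ∈ S, ∫ x, V m x * ‖u m j x‖ ^ 2 with ha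
  have ha0 : ∀ m, 0 ≤ a m := fun m => Finset.sum_nonneg fun j _ => integral_nonneg fun x =>
    mul_nonneg (hV0 _ _) (sq_nonneg _)
  have hdist : ∀ m n : ℕ, m ≠ n → τ + m * (κ * δ) ≠ τ + n * (κ * δ) ∧
      (Real.pi / |τ + m * (κ * δ) - (τ + n * (κ * δ))|) ^ Module.finrank ℝ E =
        Real.pi / (κ * δ) / (Nat.dist m n : ℝ) := by
    intro m n hmn
    have hne : (m : ℝ) - n ≠ 0 := sub_ne_zero.2 (by exact_mod_cast hmn)
    have e1 : τ + m * (κ * δ) - (τ + n * (κ * δ)) = κ * δ * ((m : ℝ) - n) := by ring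
    have e2 : |(m : ℝ) - n| = (Nat.dist m n : ℝ) := by
      rcases le_total m n with h | h
      · rw [Nat.dist_eq_sub_of_le h, Nat.cast_sub h, abs_sub_comm,
          abs_of_nonneg (sub_nonneg.2 (by exact_mod_cast h))]
      · rw [Nat.dist_eq_sub_of_le_right h, Nat.cast_sub h,
          abs_of_nonneg (sub_nonneg.2 (by exact_mod_cast h))]
    refine ⟨by rw [← sub_ne_zero, e1]; positivity, ?_⟩
    rw [hd, pow_one, e1, abs_mul, abs_of_pos (show 0 < κ * δ by positivity), e2, div_div]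
  have hcore := core_log T E' a (fun m => ∫ x, V m x) R (Real.pi / (κ * δ)) (ν ^ 2 / δ) S.card A
    (by positivity) hN (by positivity) ha0 hb (by rw [le_div_iff₀ hδ, mul_comm]; exact hB) h1
    (fun m _ n _ hmn => by
      have h := h2 m n (hdist m n hmn).1
      rwa [(hdist m n hmn).2] at h)
    (fun m hm n hn hmn => by
      have hm0 := hb m hm
      have hn0 := hb n hn
      have h := h3 m n ((∫ x, V m x) / ∫ x, V n x) (div_pos hm0 hn0) (hdist m n hmn).1
      rw [(hdist m n hmn).2] at h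
      refine h.trans (le_of_eq ?_)
      congr 1
      simp only [ha]
      field_simp)
    h4 (h5 A)
  have hL := Real.log_nonneg hN
  have h7 : ∑ m ∈ A, a m ≤ S.card * (2 * R + 8 * √(Real.pi / (κ * δ) * (ν ^ 2 / δ) / S.card)) +
      √(S.card * (9 * (Real.pi / (κ * δ)) * (ν ^ 2 / δ) * (1 + Real.log S.card))) := by
    apply quad_le (by positivity)
    refine (h6 A).trans ((mul_le_mul_of_nonneg_left hcore (by positivity)).trans (le_of_eq ?_))
    ring
  rw [← Finset.mul_sum, Finset.sum_comm]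
  refine (mul_le_mul_of_nonneg_left h7 hδ.le).trans ?_
  have e1 : √(S.card * (9 * (Real.pi / (κ * δ)) * (ν ^ 2 / δ) * (1 + Real.log S.card))) =
      3 * ν / δ * (√(Real.pi / κ) * √((S.card : ℝ) * (1 + Real.log S.card))) := by
    rw [← Real.sqrt_sq (show 0 ≤ 3 * ν / δ by positivity), ← Real.sqrt_mul (by positivity),
      ← Real.sqrt_mul (sq_nonneg _)]
    congr 1
    field_simp
    ring
  have e2 : √(Real.pi / (κ * δ) * (ν ^ 2 / δ) / S.card) ≤
      ν / (δ * S.card) * (√(Real.pi / κ) * √((S.card : ℝ) * (1 + Real.log S.card))) := by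
    rw [← Real.sqrt_sq (show 0 ≤ ν / (δ * S.card) by positivity), ← Real.sqrt_mul (by positivity),
      ← Real.sqrt_mul (sq_nonneg _)]
    apply Real.sqrt_le_sqrt
    have e3 : (ν / (δ * S.card)) ^ 2 * (Real.pi / κ * ((S.card : ℝ) * (1 + Real.log S.card))) =
        Real.pi / (κ * δ) * (ν ^ 2 / δ) / S.card * (1 + Real.log S.card) := by
      field_simp
    rw [e3]
    exact le_mul_of_one_le_right (by positivity) (by linarith)
  rw [e1]
  set Q := √(Real.pi / κ) * √((S.card : ℝ) * (1 + Real.log S.card)) with hQ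
  have e4 := mul_le_mul_of_nonneg_left e2 (show 0 ≤ 8 * δ * S.card by positivity)
  have e5 : 8 * δ * S.card * (ν / (δ * S.card) * Q) = 8 * ν * Q := by field_simp
  have e6 : δ * (3 * ν / δ * Q) = 3 * ν * Q := by field_simp
  have e7 : 11 * √(Real.pi / κ) * ν * √((S.card : ℝ) * (1 + Real.log S.card)) = 11 * ν * Q := by
    rw [hQ]
    ring
  rw [mul_add, e6, e7]
  linarith

theorem dual_log (hd : Module.finrank ℝ E = 1) {ι : Type} (J : Finset ι)
    (f : ι → Lp ℂ 2 (volume : Measure E)) (hf : Orthonormal ℂ f) (κ τ δ : ℝ) (hκ : 0 < κ)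
    (hδ : 0 < δ) (u : ℕ → ι → Lp ℂ 2 (volume : Measure E))
    (hu : ∀ m j, ((𝓕 (u m j) : Lp ℂ 2 (volume : Measure E)) : E → ℂ) =ᵐ[volume]
      fun ξ => ph (τ + m * (κ * δ)) ξ * (𝓕 (f j) : Lp ℂ 2 (volume : Measure E)) ξ)
    (c : ι → ℝ) (hc : ∀ j, 0 ≤ c j) (r : ℕ → ℝ) (hr0 : ∀ n, 0 ≤ r n)
    (hr : ∀ n, ∀ S ⊆ J, n < S.card → ∃ j ∈ S, c j ≤ r n) (M ε : ℝ) (hM : 0 ≤ M) (hε : 0 < ε)
    (l : ℕ → ℝ) (hl0 : ∀ m, 0 ≤ l m) (hlM : ∀ m, l m ≤ M) (A : Finset ℕ)
    (hA : ∀ m, 0 < l m → ε ≤ ∫ x, cut (l m) (∑ j ∈ J, c j * ‖u m j x‖ ^ 2)) :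
    δ * ∑ m ∈ A, l m ^ 2 ≤
      (11 * √(Real.pi / κ) * ∑ n ∈ Finset.range J.card,
        √((1 + Real.log ((n : ℝ) + 1)) / ((n : ℝ) + 1)) * r n +
      √(δ * (2 * (M / ε) * ∑ n ∈ Finset.range J.card, r n))) ^ 2 := by
  set ρ : ℕ → E → ℝ := fun m x => ∑ j ∈ J, c j * ‖u m j x‖ ^ 2 with hρ
  have hρ0 : ∀ m x, 0 ≤ ρ m x := fun m x =>
    Finset.sum_nonneg fun j _ => mul_nonneg (hc j) (sq_nonneg _)
  have hu2 : ∀ m j, Integrable fun y => ‖u m j y‖ ^ 2 := fun m j =>
    (memLp_two_iff_integrable_sq_norm (Lp.memLp (u m j)).1).1 (Lp.memLp _)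
  have hρi : ∀ m, Integrable (ρ m) := fun m =>
    integrable_finsetSum _ fun j _ => (hu2 m j).const_mul _
  have hρm : ∀ m, Measurable (ρ m) := fun m =>
    Finset.measurable_sum _ fun j _ =>
      ((Lp.stronglyMeasurable (u m j)).measurable.norm.pow_const 2).const_mul _
  have hci : ∀ m, Integrable fun x => cut (l m) (ρ m x) := fun m =>
    integrable_cut _ (hl0 m) _ (hρ0 m) (hρi m)
  set w : ℕ → ℝ := fun m => l m / max (∫ x, cut (l m) (ρ m x)) ε with hw
  have hw0 : ∀ m, 0 ≤ w m := fun m => div_nonneg (hl0 m) (hε.le.trans (le_max_right _ _))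
  have hwR : ∀ m, w m ≤ M / ε := fun m => div_le_div₀ hM (hlM m) hε (le_max_right _ _)
  set V : ℕ → E → ℝ := fun m x => w m * cut (l m) (ρ m x) with hV
  have hVm : ∀ m, Measurable (V m) := fun m =>
    ((continuous_cut (l m)).measurable.comp (hρm m)).const_mul _
  have hV0 : ∀ m x, 0 ≤ V m x := fun m x => mul_nonneg (hw0 m) (cut_nonneg _ _)
  have hVR : ∀ m x, V m x ≤ M / ε := fun m x =>
    (mul_le_of_le_one_right (hw0 m) (cut_le_one _ _)).trans (hwR m)
  have hVi : ∀ m, Integrable (V m) := fun m => (hci m).const_mul _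
  set A' := A.filter fun m => 0 < l m with hA'
  have hVl : ∀ m ∈ A', ∫ x, V m x = l m := fun m hm => by
    have h1 := hA m (Finset.mem_filter.1 hm).2
    simp only [hV, hw]
    rw [integral_const_mul, max_eq_left h1, div_mul_cancel₀ _ (hε.trans_le h1).ne']
  have hAA : ∑ m ∈ A, l m ^ 2 = ∑ m ∈ A', l m ^ 2 := by
    rw [hA', Finset.sum_filter]
    refine Finset.sum_congr rfl fun m _ => ?_
    split_ifs with h
    · rfl
    · rw [le_antisymm (not_lt.1 h) (hl0 m)]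
      norm_num
  rw [hAA]
  set Sg := δ * ∑ m ∈ A', l m ^ 2 with hSg
  set Lz := ∑ n ∈ Finset.range J.card, √((1 + Real.log ((n : ℝ) + 1)) / ((n : ℝ) + 1)) * r n
  have hLz : 0 ≤ Lz := Finset.sum_nonneg fun n _ => mul_nonneg (Real.sqrt_nonneg _) (hr0 n)
  set L1 := ∑ n ∈ Finset.range J.card, r n
  rcases le_or_gt Sg 0 with hS | hS
  · exact hS.trans (sq_nonneg _)
  obtain ⟨ν, hν0, hνS⟩ : ∃ ν : ℝ, 0 < ν ∧ Sg = ν ^ 2 :=
    ⟨√Sg, Real.sqrt_pos.2 hS, (Real.sq_sqrt hS.le).symm⟩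
  have hB : δ * ∑ m ∈ A', (∫ x, V m x) ^ 2 ≤ ν ^ 2 := by
    rw [← hνS, hSg]
    exact le_of_eq (congrArg _ (Finset.sum_congr rfl fun m hm => by rw [hVl m hm]))
  have hlay := layer (fun j => δ * ∑ m ∈ A', ∫ x, V m x * ‖u m j x‖ ^ 2)
    (fun n => 11 * √(Real.pi / κ) * ν * √((1 + Real.log ((n : ℝ) + 1)) / ((n : ℝ) + 1)) +
      2 * δ * (M / ε))
    (fun n => by positivity) J.card J c r rfl (fun j _ => hc j) (fun S _ => by
      refine (set_log hd S f hf κ τ δ hκ hδ u hu V hVm hV0 (M / ε) (by positivity) hVR hVi A'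
        (fun m hm => by rw [hVl m hm]; exact (Finset.mem_filter.1 hm).2) ν hν0 hB).trans ?_
      rw [Finset.sum_add_distrib, ← Finset.mul_sum, Finset.sum_const, Finset.card_range,
        nsmul_eq_mul, mul_comm (S.card : ℝ) (2 * δ * (M / ε))]
      exact add_le_add (mul_le_mul_of_nonneg_left (sqrt_log_le_sum _) (by positivity)) le_rfl) hr
  have hV2 : ∀ m j, Integrable fun x => V m x * ‖u m j x‖ ^ 2 := fun m j =>
    (hu2 m j).bdd_mul (c := M / ε) (hVm m).aestronglyMeasurable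
      (Eventually.of_forall fun y => by
        rw [Real.norm_of_nonneg (hV0 m y)]
        exact hVR m y)
  have hlow : Sg ≤ ∑ j ∈ J, c j * (δ * ∑ m ∈ A', ∫ x, V m x * ‖u m j x‖ ^ 2) := by
    simp only [hSg, Finset.mul_sum]
    rw [Finset.sum_comm]
    apply Finset.sum_le_sum
    intro m hm
    simp only [mul_left_comm _ δ, ← Finset.mul_sum]
    apply mul_le_mul_of_nonneg_left _ hδ.le
    simp only [← integral_const_mul]
    have hi := fun j (_ : j ∈ J) => (hV2 m j).const_mul (c j)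
    rw [← integral_finsetSum _ hi]
    have e1 : l m ^ 2 = ∫ x, l m * V m x := by
      rw [integral_const_mul, hVl m hm, sq]
    rw [e1]
    apply integral_mono ((hVi m).const_mul _) (integrable_finsetSum _ hi)
    intro x
    simp only [mul_left_comm (c _), ← Finset.mul_sum]
    calc l m * V m x = w m * (l m * cut (l m) (ρ m x)) := by
          simp only [hV]
          ring
      _ ≤ w m * (cut (l m) (ρ m x) * ρ m x) := mul_le_mul_of_nonneg_left (cut_mul _ _) (hw0 m)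
      _ = V m x * ρ m x := by
          simp only [hV]
          ring
  have hfin : ν ^ 2 ≤ 11 * √(Real.pi / κ) * Lz * ν + δ * (2 * (M / ε) * L1) := by
    rw [← hνS]
    refine hlow.trans (hlay.trans (le_of_eq ?_))
    simp only [add_mul, Finset.sum_add_distrib, mul_assoc, ← Finset.mul_sum]
    ring
  rw [hνS]
  exact pow_le_pow_left₀ hν0.le (quad_le (by positivity) hfin) 2

theorem shift_limit (g : ℝ → ℝ≥0∞) (hg : Measurable g) (X Y : ℝ)
    (h : ∀ δ : ℝ, 0 < δ → ∀ (s : ℝ) (n : ℕ), ENNReal.ofReal δ *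
      ∑ m ∈ Finset.range n, g (s + m * δ) ≤ ENNReal.ofReal ((X + √(δ * Y)) ^ 2)) :
    ∫⁻ t, g t ≤ ENNReal.ofReal (X ^ 2) := by
  have h3 : Tendsto (fun δ : ℝ => ENNReal.ofReal ((X + √(δ * Y)) ^ 2)) (𝓝[>] 0)
      (𝓝 (ENNReal.ofReal (X ^ 2))) := by
    apply tendsto_nhdsWithin_of_tendsto_nhds
    have : Continuous fun δ : ℝ => ENNReal.ofReal ((X + √(δ * Y)) ^ 2) :=
      ENNReal.continuous_ofReal.comp (by fun_prop)
    simpa using this.tendsto 0
  exact ge_of_tendsto h3 (eventually_nhdsWithin_of_forall fun δ hδ =>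
    shift_bound g hg δ hδ _ (h δ hδ))

theorem main_log (hd : Module.finrank ℝ E = 1) (κ : ℝ) (hκ : 0 < κ) {ι : Type}
    [Countable ι] (f : ι → Lp ℂ 2 (volume : Measure E)) (hf : Orthonormal ℂ f)
    (u : ℝ → ι → Lp ℂ 2 (volume : Measure E))
    (hu : ∀ t j, ((𝓕 (u t j) : Lp ℂ 2 (volume : Measure E)) : E → ℂ) =ᵐ[volume]
      fun ξ => ph (κ * t) ξ * (𝓕 (f j) : Lp ℂ 2 (volume : Measure E)) ξ) (lam : ι → ℂ)
    (rr : ℕ → ℝ≥0∞) (hrr : ∀ (n : ℕ) (S : Finset ι), n < S.card → ∃ j ∈ S, ‖lam j‖ₑ ≤ rr n) :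
    ∫⁻ t, (essSup (fun x => ∑' j, ‖lam j‖ₑ * ‖u t j x‖ₑ ^ 2) volume) ^ 2 ≤
    (ENNReal.ofReal (11 * √(Real.pi / κ)) * ∑' n : ℕ,
      ENNReal.ofReal √((1 + Real.log ((n : ℝ) + 1)) / ((n : ℝ) + 1)) * rr n) ^ 2 := by
  set ψ : ℕ → ℝ := fun n => √((1 + Real.log ((n : ℝ) + 1)) / ((n : ℝ) + 1)) with hψ
  have hψ0 : ∀ n, 0 < ψ n := fun n => by
    have : 0 ≤ Real.log ((n : ℝ) + 1) := Real.log_nonneg (by linarith [Nat.cast_nonneg (α := ℝ) n])
    positivity
  set Lz := ∑' n : ℕ, ENNReal.ofReal (ψ n) * rr n with hLz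
  have hπ := Real.pi_pos
  have hC : 0 < 11 * √(Real.pi / κ) := by positivity
  rcases eq_or_ne Lz ⊤ with htop | htop
  · rw [htop, ENNReal.mul_top (by simpa using hC), ENNReal.top_pow two_ne_zero]
    exact le_top
  have hrt : ∀ n, rr n ≠ ⊤ := by
    intro n h
    have h1 := ENNReal.le_tsum (f := fun n : ℕ => ENNReal.ofReal (ψ n) * rr n) n
    rw [h, ENNReal.mul_top (by simpa using hψ0 n)] at h1
    exact htop (top_le_iff.1 h1)
  set r : ℕ → ℝ := fun n => (rr n).toReal with hr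
  have hr0 : ∀ n, 0 ≤ r n := fun n => ENNReal.toReal_nonneg
  have hrS : ∀ (n : ℕ) (S : Finset ι), n < S.card → ∃ j ∈ S, ‖lam j‖ ≤ r n := by
    intro n S hS
    obtain ⟨j, hj, h⟩ := hrr n S hS
    refine ⟨j, hj, ?_⟩
    rw [← toReal_enorm]
    exact ENNReal.toReal_mono (hrt n) h
  have hLN : ∀ N : ℕ, ENNReal.ofReal (∑ n ∈ Finset.range N, ψ n * r n) ≤ Lz := by
    intro N
    rw [ENNReal.ofReal_sum_of_nonneg (fun n _ => mul_nonneg (hψ0 n).le (hr0 n))]
    refine le_trans (le_of_eq (Finset.sum_congr rfl fun n _ => ?_)) (ENNReal.sum_le_tsum _)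
    rw [ENNReal.ofReal_mul (hψ0 n).le, ENNReal.ofReal_toReal (hrt n)]
  obtain ⟨F, hFm, hF⟩ := exists_seq_monotone_tendsto_atTop_atTop (Finset ι)
  obtain ⟨q, hq⟩ := exists_surjective_nat ℚ
  set ρ : ℕ → ℝ → E → ℝ := fun n t x => ∑ j ∈ F n, ‖lam j‖ * ‖u t j x‖ ^ 2 with hρ
  set H : ℕ → ℝ → ℝ → ℝ≥0∞ := fun n c t => ∫⁻ x, ENNReal.ofReal (cut c (ρ n t x)) with hH
  have hu2 : ∀ m j, Integrable fun y => ‖u m j y‖ ^ 2 := fun m j =>
    (memLp_two_iff_integrable_sq_norm (Lp.memLp (u m j)).1).1 (Lp.memLp _)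
  have hHr : ∀ n c t, 0 ≤ c → H n c t = ENNReal.ofReal (∫ x, cut c (ρ n t x)) := fun n c t hc =>
    (ofReal_integral_eq_lintegral_ofReal (integrable_cut c hc _ (fun x => by positivity)
      (integrable_finsetSum _ fun j _ => (hu2 t j).const_mul _))
      (Eventually.of_forall fun x => cut_nonneg _ _)).symm
  have hHm : ∀ n c, Measurable (H n c) := by
    intro n c
    obtain ⟨σ, h1, h2⟩ := exists_rho (F n) (fun j => ‖lam j‖) u
      fun j => cont_u κ (f j) (fun t => u t j) fun t => hu t j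
    have h3 := meas_lint (fun r : ℝ => ENNReal.ofReal (cut c r))
      (ENNReal.continuous_ofReal.comp (continuous_cut c)) σ h1
    have h4 : H n c = fun t => ∫⁻ x, ENNReal.ofReal (cut c (σ t x)) := by
      funext t
      apply lintegral_congr_ae
      filter_upwards [h2 t] with x hx
      rw [hx]
    rw [h4]
    exact h3
  set g : ℕ → ℕ → ℝ → ℝ≥0∞ := fun n i t =>
    if (0 ≤ (q i : ℝ) ∧ (q i : ℝ) ≤ n) ∧ ENNReal.ofReal (1 / ((n : ℝ) + 1)) ≤ H n (q i) t then
      ENNReal.ofReal ((q i : ℝ) ^ 2) else 0 with hg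
  set G : ℕ → ℝ → ℝ≥0∞ := fun n t =>
    (Finset.range (n + 1)).sup' Finset.nonempty_range_add_one fun i => g n i t with hG
  have hGm : ∀ n, Measurable (G n) := fun n =>
    Finset.measurable_range_sup'' fun i _ => Measurable.ite
      ((MeasurableSet.const _).inter (measurableSet_le measurable_const (hHm n (q i))))
      measurable_const measurable_const
  have hGl : ∀ (n : ℕ) (t : ℝ), ∃ l : ℝ, 0 ≤ l ∧ l ≤ n ∧ G n t = ENNReal.ofReal (l ^ 2) ∧
      (0 < l → 1 / ((n : ℝ) + 1) ≤ ∫ x, cut l (ρ n t x)) := by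
    intro n t
    obtain ⟨i, -, hi⟩ := Finset.exists_mem_eq_sup' (Finset.nonempty_range_add_one (n := n))
      fun i => g n i t
    by_cases h : (0 ≤ (q i : ℝ) ∧ (q i : ℝ) ≤ n) ∧
        ENNReal.ofReal (1 / ((n : ℝ) + 1)) ≤ H n (q i) t
    · refine ⟨q i, h.1.1, h.1.2, hi.trans (if_pos h), fun _ => ?_⟩
      have h2 := h.2
      rwa [hHr n _ t h.1.1, ENNReal.ofReal_le_ofReal_iff
        (integral_nonneg fun x => cut_nonneg _ _)] at h2
    · exact ⟨0, le_rfl, Nat.cast_nonneg n, (hi.trans (if_neg h)).trans (by simp),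
        fun h0 => absurd h0 (lt_irrefl 0)⟩
  choose l hl0 hlM hlG hlε using hGl
  have hGb : ∀ n, ∫⁻ t, G n t ≤ (ENNReal.ofReal (11 * √(Real.pi / κ)) * Lz) ^ 2 := by
    intro n
    have h2 := shift_limit (G n) (hGm n)
      (11 * √(Real.pi / κ) * ∑ k ∈ Finset.range (F n).card, ψ k * r k)
      (2 * ((n : ℝ) / (1 / ((n : ℝ) + 1))) * ∑ k ∈ Finset.range (F n).card, r k) fun δ hδ s N => by
        have h2 := dual_log hd (F n) f hf κ (κ * s) δ hκ hδ (fun m => u (s + m * δ))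
          (fun m j => by
            have := hu (s + m * δ) j
            rwa [show κ * (s + m * δ) = κ * s + m * (κ * δ) by ring] at this)
          (fun j => ‖lam j‖) (fun j => norm_nonneg _) r hr0 (fun k S _ hS => hrS k S hS)
          n (1 / ((n : ℝ) + 1)) (Nat.cast_nonneg n) (by positivity)
          (fun m => l n (s + m * δ)) (fun m => hl0 _ _) (fun m => hlM _ _) (Finset.range N)
          (fun m => hlε n (s + m * δ))
        refine le_trans (le_of_eq ?_) (ENNReal.ofReal_le_ofReal h2)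
        rw [ENNReal.ofReal_mul hδ.le, ENNReal.ofReal_sum_of_nonneg fun m _ => sq_nonneg _]
        simp only [hlG]
    refine h2.trans ?_
    have h3 : 0 ≤ ∑ k ∈ Finset.range (F n).card, ψ k * r k :=
      Finset.sum_nonneg fun k _ => mul_nonneg (hψ0 k).le (hr0 k)
    rw [ENNReal.ofReal_pow (by positivity), ENNReal.ofReal_mul hC.le]
    exact pow_le_pow_left' (mul_le_mul_right (hLN _) _) 2
  refine le_trans (lintegral_mono fun t => ?_) ((lintegral_liminf_le (u := atTop) hGm).trans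
    (liminf_le_of_frequently_le' (Frequently.of_forall hGb)))
  set Z := essSup (fun x => ∑' j, ‖lam j‖ₑ * ‖u t j x‖ₑ ^ 2) volume with hZ
  have key : ∀ c : ℚ, 0 ≤ c → ENNReal.ofReal c < Z →
      ENNReal.ofReal ((c : ℝ) ^ 2) ≤ liminf (fun n => G n t) atTop := by
    intro c hc hcZ
    obtain ⟨i, rfl⟩ := hq c
    have hc' : (0 : ℝ) ≤ q i := by exact_mod_cast hc
    obtain ⟨n₀, hn₀⟩ : ∃ n₀, H n₀ (q i) t ≠ 0 := by
      by_contra h
      push Not at h
      refine absurd hcZ (not_lt.2 (essSup_le_of_ae_le _ ?_))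
      have h1 : ∀ n, ∀ᵐ x, ρ n t x ≤ q i := fun n => by
        have h2 := (lintegral_eq_zero_iff' (ENNReal.measurable_ofReal.comp_aemeasurable
          (integrable_cut (q i) hc' (ρ n t) (fun x => by positivity)
            (integrable_finsetSum _ fun j _ => (hu2 t j).const_mul _)).aemeasurable)).1 (h n)
        filter_upwards [h2] with x hx
        exact le_of_cut (ENNReal.ofReal_eq_zero.1 hx)
      filter_upwards [ae_all_iff.2 h1] with x hx
      have h2 : Tendsto (fun n => ∑ j ∈ F n, ‖lam j‖ₑ * ‖u t j x‖ₑ ^ 2) atTop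
          (𝓝 (∑' j, ‖lam j‖ₑ * ‖u t j x‖ₑ ^ 2)) :=
        Tendsto.comp (g := fun S : Finset ι => ∑ j ∈ S, ‖lam j‖ₑ * ‖u t j x‖ₑ ^ 2)
          (ENNReal.summable.hasSum (f := fun j => ‖lam j‖ₑ * ‖u t j x‖ₑ ^ 2)) hF
      refine le_of_tendsto' h2 fun n => le_trans (le_of_eq ?_) (ENNReal.ofReal_le_ofReal (hx n))
      rw [ENNReal.ofReal_sum_of_nonneg (fun j _ => by positivity)]
      refine Finset.sum_congr rfl fun j _ => ?_
      rw [ENNReal.ofReal_mul (norm_nonneg _), ENNReal.ofReal_pow (norm_nonneg _), ofReal_norm,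
        ofReal_norm]
    have h1 : Tendsto (fun n : ℕ => ENNReal.ofReal (1 / ((n : ℝ) + 1))) atTop (𝓝 0) := by
      simpa using ENNReal.tendsto_ofReal (tendsto_one_div_add_atTop_nhds_zero_nat (𝕜 := ℝ))
    apply le_liminf_of_le
    · isBoundedDefault
    filter_upwards [h1.eventually_lt_const (pos_iff_ne_zero.2 hn₀), eventually_ge_atTop n₀,
      eventually_ge_atTop i, tendsto_natCast_atTop_atTop.eventually_ge_atTop (q i : ℝ)]
      with n e1 e2 e3 e4
    have e5 : H n₀ (q i) t ≤ H n (q i) t := lintegral_mono fun x =>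
      ENNReal.ofReal_le_ofReal (cut_mono _ (Finset.sum_le_sum_of_subset_of_nonneg (hFm e2)
        fun j _ _ => by positivity))
    refine le_trans (le_of_eq ?_) (Finset.le_sup' (fun i => g n i t)
      (Finset.mem_range.2 (Nat.lt_succ_of_le e3)))
    exact (if_pos ⟨⟨hc', e4⟩, e1.le.trans e5⟩).symm
  set L := liminf (fun n => G n t) atTop
  have h1 : Z ≤ L ^ (2 : ℝ)⁻¹ := by
    refine le_of_forall_lt_imp_le_of_dense fun a ha => ?_
    obtain ⟨c, hc, h2, h3⟩ := ENNReal.lt_iff_exists_rat_btwn.1 ha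
    refine h2.le.trans ?_
    rw [ENNReal.le_rpow_inv_iff two_pos, ENNReal.rpow_two]
    have h4 := key c hc h3
    rwa [ENNReal.ofReal_pow (by exact_mod_cast hc)] at h4
  rwa [ENNReal.le_rpow_inv_iff two_pos, ENNReal.rpow_two] at h1

end Pool.Agent.Lib.MP_dacecb_an
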