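import Pool.Agent.Lib.MP_dacecb_an.Limit

namespace Pool.Agent.Lib.MP_dacecb_an

open MeasureTheory FourierTransform Filter Topology Set
open scoped ENNReal

theorem trunc_int {X : Type} [MeasurableSpace X] {μ : Measure X} (e : ℕ) (ρ : X → ℝ)
    (hρ0 : ∀ x, 0 ≤ ρ x) (hρi : Integrable ρ μ) (M : ℝ) (hM : 0 < M) :
    Integrable (fun x => ((min (ρ x) M) ^ (1 / ((e : ℝ) + 1))) ^ (e + 3)) μ := by
  have hmin : ∀ x, 0 ≤ min (ρ x) M := fun x => le_min (hρ0 x) hM.le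
  have hc : Continuous fun r : ℝ => ((min r M) ^ (1 / ((e : ℝ) + 1))) ^ (e + 3) :=
    ((Real.continuous_rpow_const (by positivity)).comp (continuous_id.min continuous_const)).pow _
  refine (hρi.const_mul ((M ^ (1 / ((e : ℝ) + 1))) ^ 2)).mono'
    (hc.comp_aestronglyMeasurable hρi.1) (Eventually.of_forall fun x => ?_)
  have h0 := Real.rpow_nonneg (hmin x) (1 / ((e : ℝ) + 1))
  rw [Real.norm_of_nonneg (pow_nonneg h0 _), show e + 3 = 2 + (e + 1) by ring, pow_add]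
  refine mul_le_mul (pow_le_pow_left₀ h0 (Real.rpow_le_rpow (hmin x) (min_le_right _ _)
    (by positivity)) _) ?_ (pow_nonneg h0 _) (sq_nonneg _)
  rw [← Real.rpow_natCast, ← Real.rpow_mul (hmin x)]
  push_cast
  rw [one_div_mul_cancel (by positivity), Real.rpow_one]
  exact min_le_left _ _

theorem trunc_eq {ι : Type} (e : ℕ) (J : Finset ι) (lam z : ι → ℂ) (n : ℕ) :
    ENNReal.ofReal (((min (∑ j ∈ J, ‖lam j‖ * ‖z j‖ ^ 2) ((n : ℝ) + 1)) ^ (1 / ((e : ℝ) + 1))) ^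
      (e + 3)) = (min (∑ j ∈ J, ‖lam j‖ₑ * ‖z j‖ₑ ^ 2) ((n : ℝ≥0∞) + 1)) ^
        (((e : ℝ) + 3) / (e + 1)) := by
  have h0 : 0 ≤ ∑ j ∈ J, ‖lam j‖ * ‖z j‖ ^ 2 := by positivity
  have h1 : 0 ≤ min (∑ j ∈ J, ‖lam j‖ * ‖z j‖ ^ 2) ((n : ℝ) + 1) := le_min h0 (by positivity)
  rw [← Real.rpow_natCast, ← Real.rpow_mul h1, ← ENNReal.ofReal_rpow_of_nonneg h1 (by positivity),
    ENNReal.ofReal_min, ENNReal.ofReal_sum_of_nonneg (fun j _ => by positivity)]
  have e1 : 1 / ((e : ℝ) + 1) * ((e + 3 : ℕ) : ℝ) = ((e : ℝ) + 3) / (e + 1) := by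
    push_cast
    ring
  rw [e1]
  congr 2
  · refine Finset.sum_congr rfl fun j _ => ?_
    rw [ENNReal.ofReal_mul (norm_nonneg _), ENNReal.ofReal_pow (norm_nonneg _), ofReal_norm,
      ofReal_norm]
  · rw [ENNReal.ofReal_add (by positivity) zero_le_one, ENNReal.ofReal_natCast, ENNReal.ofReal_one]

theorem rearr_le {ι : Type} (lam : ι → ℂ) (n : ℕ) (S : Finset ι) (hS : n < S.card) :
    ∃ j ∈ S, ‖lam j‖ₑ ≤ sInf {s : ℝ≥0∞ | {j | s < ‖lam j‖ₑ}.encard ≤ n} := by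
  obtain ⟨j, hj, hmin⟩ := S.exists_min_image (fun j => ‖lam j‖ₑ) (Finset.card_pos.1 (by omega))
  refine ⟨j, hj, le_sInf fun s hs => ?_⟩
  by_contra h
  have h1 : (S : Set ι) ⊆ {j | s < ‖lam j‖ₑ} := fun i hi => (not_le.1 h).trans_le (hmin i hi)
  have h2 := (Set.encard_le_encard h1).trans hs
  rw [Set.encard_coe_eq_coe_finsetCard] at h2
  have h3 : S.card ≤ n := by exact_mod_cast h2
  omega

variable {E : Type} [NormedAddCommGroup E] [InnerProductSpace ℝ E] [FiniteDimensional ℝ E]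
  [MeasurableSpace E] [BorelSpace E]

theorem main (e : ℕ) (hd : Module.finrank ℝ E = e + 2) (κ : ℝ) (hκ : 0 < κ) {ι : Type}
    [Countable ι] (f : ι → Lp ℂ 2 (volume : Measure E)) (hf : Orthonormal ℂ f)
    (u : ℝ → ι → Lp ℂ 2 (volume : Measure E))
    (hu : ∀ t j, ((𝓕 (u t j) : Lp ℂ 2 (volume : Measure E)) : E → ℂ) =ᵐ[volume]
      fun ξ => ph (κ * t) ξ * (𝓕 (f j) : Lp ℂ 2 (volume : Measure E)) ξ) (lam : ι → ℂ) :
    ∫⁻ t, (∫⁻ x, (∑' j, ‖lam j‖ₑ * ‖u t j x‖ₑ ^ 2) ^ (((e : ℝ) + 3) / (e + 1))) ^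
      (((e : ℝ) + 1) / (e + 2)) ≤
    (ENNReal.ofReal (2 * cst e κ) * ∑' n : ℕ, ((n : ℝ≥0∞) + 1) ^ (((e : ℝ) + 2) / (e + 3) - 1) *
      sInf {s : ℝ≥0∞ | {j | s < ‖lam j‖ₑ}.encard ≤ n}) ^ (((e : ℝ) + 3) / (e + 2)) := by
  set rr : ℕ → ℝ≥0∞ := fun n => sInf {s : ℝ≥0∞ | {j | s < ‖lam j‖ₑ}.encard ≤ n} with hrr
  set Lz := ∑' n : ℕ, ((n : ℝ≥0∞) + 1) ^ (((e : ℝ) + 2) / (e + 3) - 1) * rr n with hLz
  have hC := cst_pos e κ
  rcases eq_or_ne Lz ⊤ with htop | htop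
  · rw [htop, ENNReal.mul_top (by simpa using hC), ENNReal.top_rpow_of_pos (by positivity)]
    exact le_top
  have hwt : ∀ n : ℕ, ((n : ℝ≥0∞) + 1) ^ (((e : ℝ) + 2) / (e + 3) - 1) =
      ENNReal.ofReal (((n : ℝ) + 1) ^ (((e : ℝ) + 2) / (e + 3) - 1)) := by
    intro n
    rw [← ENNReal.ofReal_rpow_of_pos (by positivity),
      ENNReal.ofReal_add (by positivity) zero_le_one, ENNReal.ofReal_natCast, ENNReal.ofReal_one]
  have hrt : ∀ n, rr n ≠ ⊤ := by
    intro n h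
    have h1 := ENNReal.le_tsum (f := fun n : ℕ =>
      ((n : ℝ≥0∞) + 1) ^ (((e : ℝ) + 2) / (e + 3) - 1) * rr n) n
    rw [h, hwt, ENNReal.mul_top (by simpa using Real.rpow_pos_of_pos (by positivity) _)] at h1
    exact htop (top_le_iff.1 h1)
  set r : ℕ → ℝ := fun n => (rr n).toReal with hr
  have hr0 : ∀ n, 0 ≤ r n := fun n => ENNReal.toReal_nonneg
  have hrS : ∀ (n : ℕ) (S : Finset ι), n < S.card → ∃ j ∈ S, ‖lam j‖ ≤ r n := by
    intro n S hS
    obtain ⟨j, hj, h⟩ := rearr_le lam n S hS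
    refine ⟨j, hj, ?_⟩
    rw [← toReal_enorm]
    exact ENNReal.toReal_mono (hrt n) h
  have hLN : ∀ N : ℕ, ENNReal.ofReal (∑ n ∈ Finset.range N,
      ((n : ℝ) + 1) ^ (((e : ℝ) + 2) / (e + 3) - 1) * r n) ≤ Lz := by
    intro N
    rw [ENNReal.ofReal_sum_of_nonneg (fun n _ => mul_nonneg (by positivity) (hr0 n))]
    refine le_trans (le_of_eq (Finset.sum_congr rfl fun n _ => ?_)) (ENNReal.sum_le_tsum _)
    rw [ENNReal.ofReal_mul (by positivity), hwt, ENNReal.ofReal_toReal (hrt n)]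
  obtain ⟨F, hFm, hF⟩ := exists_seq_monotone_tendsto_atTop_atTop (Finset ι)
  set g : ℕ → ℝ → E → ℝ := fun n t x =>
    (min (∑ j ∈ F n, ‖lam j‖ * ‖u t j x‖ ^ 2) ((n : ℝ) + 1)) ^ (1 / ((e : ℝ) + 1)) with hg
  set I : ℕ → ℝ → ℝ≥0∞ := fun n t => ∫⁻ x, ENNReal.ofReal (g n t x ^ (e + 3)) with hI
  have hg0 : ∀ n t x, 0 ≤ g n t x ^ (e + 3) := fun n t x =>
    pow_nonneg (Real.rpow_nonneg (le_min (by positivity) (by positivity)) _) _
  have hu2 : ∀ m j, Integrable fun y => ‖u m j y‖ ^ 2 := fun m j =>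
    (memLp_two_iff_integrable_sq_norm (Lp.memLp (u m j)).1).1 (Lp.memLp _)
  have hIr : ∀ n t, I n t = ENNReal.ofReal (∫ x, g n t x ^ (e + 3)) := fun n t =>
    (ofReal_integral_eq_lintegral_ofReal (trunc_int e _ (fun x => by positivity)
      (integrable_finsetSum _ fun j _ => (hu2 t j).const_mul _) _ (by positivity))
      (Eventually.of_forall (hg0 n t))).symm
  have hIm : ∀ n, Measurable (I n) := by
    intro n
    obtain ⟨ρ, h1, h2⟩ := exists_rho (F n) (fun j => ‖lam j‖) u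
      fun j => cont_u κ (f j) (fun t => u t j) fun t => hu t j
    have h3 := meas_lint (fun r : ℝ =>
      ENNReal.ofReal (((min r ((n : ℝ) + 1)) ^ (1 / ((e : ℝ) + 1))) ^ (e + 3)))
      (ENNReal.continuous_ofReal.comp (((Real.continuous_rpow_const (by positivity)).comp
        (continuous_id.min continuous_const)).pow _)) ρ h1
    have h4 : I n = fun t => ∫⁻ x, ENNReal.ofReal
        (((min (ρ t x) ((n : ℝ) + 1)) ^ (1 / ((e : ℝ) + 1))) ^ (e + 3)) := by
      funext t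
      apply lintegral_congr_ae
      filter_upwards [h2 t] with x hx
      rw [hx]
    rw [h4]
    exact h3
  have hIt : ∀ t, Tendsto (fun n => I n t) atTop
      (𝓝 (∫⁻ x, (∑' j, ‖lam j‖ₑ * ‖u t j x‖ₑ ^ 2) ^ (((e : ℝ) + 3) / (e + 1)))) := by
    intro t
    simp only [hI, hg, trunc_eq]
    apply lintegral_tendsto_of_tendsto_of_monotone
    · intro n
      refine Measurable.aemeasurable (Measurable.pow_const (Measurable.min ?_ measurable_const) _)
      exact Finset.measurable_sum _ fun j _ =>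
        ((Lp.stronglyMeasurable (u t j)).measurable.enorm.pow_const 2).const_mul _
    · filter_upwards with x m n hmn
      apply ENNReal.rpow_le_rpow _ (by positivity)
      apply min_le_min (Finset.sum_le_sum_of_subset (hFm hmn))
      gcongr
    · filter_upwards with x
      apply (ENNReal.continuous_rpow_const.tendsto _).comp
      have h1 : Tendsto (fun n => ∑ j ∈ F n, ‖lam j‖ₑ * ‖u t j x‖ₑ ^ 2) atTop
          (𝓝 (∑' j, ‖lam j‖ₑ * ‖u t j x‖ₑ ^ 2)) :=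
        Tendsto.comp (g := fun S : Finset ι => ∑ j ∈ S, ‖lam j‖ₑ * ‖u t j x‖ₑ ^ 2)
          (ENNReal.summable.hasSum (f := fun j => ‖lam j‖ₑ * ‖u t j x‖ₑ ^ 2)) hF
      have h2 : Tendsto (fun n : ℕ => (n : ℝ≥0∞) + 1) atTop (𝓝 ⊤) := by
        simpa using ENNReal.tendsto_nat_nhds_top.add (tendsto_const_nhds (x := (1 : ℝ≥0∞)))
      simpa using h1.min h2
  set G : ℕ → ℝ → ℝ≥0∞ := fun n t =>
    if ENNReal.ofReal (1 / ((n : ℝ) + 1)) ≤ I n t then I n t ^ (((e : ℝ) + 1) / (e + 2)) else 0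
    with hG
  have hGm : ∀ n, Measurable (G n) := fun n =>
    Measurable.ite (measurableSet_le measurable_const (hIm n)) ((hIm n).pow_const _)
      measurable_const
  have hGb : ∀ n, ∫⁻ t, G n t ≤
      (ENNReal.ofReal (2 * cst e κ) * Lz) ^ (((e : ℝ) + 3) / (e + 2)) := by
    intro n
    set X := (2 * cst e κ * ∑ k ∈ Finset.range (F n).card,
      ((k : ℝ) + 1) ^ (((e : ℝ) + 2) / (e + 3) - 1) * r k) ^ (((e : ℝ) + 3) / (e + 2)) with hX
    set Y := 192 * (((n : ℝ) + 1) ^ (1 / ((e : ℝ) + 1)) /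
      (1 / ((n : ℝ) + 1)) ^ (1 / (2 * ((e : ℝ) + 2)))) ^ 2 * ∑ k ∈ Finset.range (F n).card, r k
      with hY
    have h1 : ∀ δ : ℝ, 0 < δ → ∫⁻ t, G n t ≤ ENNReal.ofReal (X + δ * Y) := by
      intro δ hδ
      apply shift_bound _ (hGm n) δ hδ
      intro s N
      have h2 := dual_bound e hd (F n) f hf κ (κ * s) δ hκ hδ (fun m => u (s + m * δ))
        (fun m j => by
          have := hu (s + m * δ) j
          rwa [show κ * (s + m * δ) = κ * s + m * (κ * δ) by ring] at this)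
        (fun j => ‖lam j‖) (fun j => norm_nonneg _) r hr0 (fun k S _ hS => hrS k S hS)
        ((n : ℝ) + 1) (1 / ((n : ℝ) + 1)) (by positivity) (by positivity)
        (fun m => g n (s + m * δ)) (fun m x => rfl)
        ((Finset.range N).filter fun m => 1 / ((n : ℝ) + 1) ≤ ∫ x, g n (s + m * δ) x ^ (e + 3))
        (fun m hm => (Finset.mem_filter.1 hm).2)
      refine le_trans (le_of_eq ?_) (ENNReal.ofReal_le_ofReal h2)
      rw [ENNReal.ofReal_mul hδ.le, ENNReal.ofReal_sum_of_nonneg fun m _ =>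
        Real.rpow_nonneg (integral_nonneg (hg0 _ _)) _, Finset.sum_filter]
      congr 1
      refine Finset.sum_congr rfl fun m _ => ?_
      simp only [hG, hIr]
      rw [ENNReal.ofReal_rpow_of_nonneg (integral_nonneg (hg0 _ _)) (by positivity)]
      simp only [ENNReal.ofReal_le_ofReal_iff (integral_nonneg (hg0 _ _))]
    have h2 : ∫⁻ t, G n t ≤ ENNReal.ofReal X := by
      have h3 : Tendsto (fun δ : ℝ => ENNReal.ofReal (X + δ * Y)) (𝓝[>] 0)
          (𝓝 (ENNReal.ofReal X)) := by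
        apply tendsto_nhdsWithin_of_tendsto_nhds
        have : Continuous fun δ : ℝ => ENNReal.ofReal (X + δ * Y) :=
          ENNReal.continuous_ofReal.comp (by fun_prop)
        simpa using this.tendsto 0
      exact ge_of_tendsto h3 (eventually_nhdsWithin_of_forall fun δ hδ => h1 δ hδ)
    refine h2.trans ?_
    have h3 : 0 ≤ ∑ k ∈ Finset.range (F n).card,
        ((k : ℝ) + 1) ^ (((e : ℝ) + 2) / (e + 3) - 1) * r k :=
      Finset.sum_nonneg fun k _ => mul_nonneg (by positivity) (hr0 k)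
    rw [hX, ← ENNReal.ofReal_rpow_of_nonneg (by positivity) (by positivity),
      ENNReal.ofReal_mul (by positivity)]
    apply ENNReal.rpow_le_rpow _ (by positivity)
    exact mul_le_mul_right (hLN _) _
  refine le_trans (lintegral_mono fun t => ?_) ((lintegral_liminf_le (u := atTop) hGm).trans
    (liminf_le_of_frequently_le' (Frequently.of_forall hGb)))
  set Z := ∫⁻ x, (∑' j, ‖lam j‖ₑ * ‖u t j x‖ₑ ^ 2) ^ (((e : ℝ) + 3) / (e + 1))
  rcases eq_or_ne Z 0 with hZ | hZ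
  · rw [hZ, ENNReal.zero_rpow_of_pos (by positivity)]
    exact zero_le
  have h1 : Tendsto (fun n : ℕ => ENNReal.ofReal (1 / ((n : ℝ) + 1))) atTop (𝓝 0) := by
    simpa using ENNReal.tendsto_ofReal (tendsto_one_div_add_atTop_nhds_zero_nat (𝕜 := ℝ))
  have h2 := h1.eventually_lt (hIt t) (pos_iff_ne_zero.2 hZ)
  have h3 : Tendsto (fun n => G n t) atTop (𝓝 (Z ^ (((e : ℝ) + 1) / (e + 2)))) := by
    refine ((ENNReal.continuous_rpow_const.tendsto _).comp (hIt t)).congr' ?_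
    filter_upwards [h2] with n hn
    simp only [hG, Function.comp]
    rw [if_pos hn.le]
  exact h3.liminf_eq.ge

end Pool.Agent.Lib.MP_dacecb_an
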