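import Pool.Agent.Lib.MP_dacecb_an.Gram
import Pool.Agent.Lib.MP_dacecb_an.Core

namespace Pool.Agent.Lib.MP_dacecb_an

open MeasureTheory FourierTransform Filter Topology

theorem level_sum (R w c : ℝ) (hR : 0 < R) (hw : w ≤ R) (K : ℕ) :
    ∑ k ∈ Finset.range K, (if R / 8 ^ (k + 1) < w ∧ w ≤ R / 8 ^ k then c else 0) =
      if R / 8 ^ K < w then c else 0 := by
  induction K with
  | zero => simp [not_lt.2 hw]
  | succ K ih =>
    rw [Finset.sum_range_succ, ih]
    have h : R / 8 ^ (K + 1) ≤ R / 8 ^ K :=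
      div_le_div_of_nonneg_left hR.le (by positivity)
        (pow_le_pow_right₀ (by norm_num) (Nat.le_succ K))
    by_cases h1 : R / 8 ^ K < w
    · simp [h1, not_le.2 h1, h.trans_lt h1]
    · simp [h1, not_lt.1 h1]

theorem quad_le {a p q : ℝ} (hp : 0 ≤ p) (h : a ^ 2 ≤ p * a + q) : a ≤ p + √q := by
  by_contra h1
  push Not at h1
  have h2 := Real.sqrt_nonneg q
  have h3 : q ≤ √q ^ 2 := by
    rcases le_total 0 q with h4 | h4
    · exact (Real.sq_sqrt h4).ge
    · exact h4.trans (sq_nonneg _)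
  nlinarith

variable {E : Type} [NormedAddCommGroup E] [InnerProductSpace ℝ E] [FiniteDimensional ℝ E]
  [MeasurableSpace E] [BorelSpace E]

theorem integral_norm_sq_one {ι : Type} (f : ι → Lp ℂ 2 (volume : Measure E))
    (hf : Orthonormal ℂ f) (τ : ℝ) (j : ι) (u : Lp ℂ 2 (volume : Measure E))
    (hu : ((𝓕 u : Lp ℂ 2 (volume : Measure E)) : E → ℂ) =ᵐ[volume]
      fun ξ => ph τ ξ * (𝓕 (f j) : Lp ℂ 2 (volume : Measure E)) ξ) :
    ∫ x, ‖u x‖ ^ 2 = 1 := by
  have h1 : inner ℂ u u = inner ℂ (f j) (f j) := by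
    rw [← Lp.inner_fourier_eq u, ← Lp.inner_fourier_eq (f j), inner_L2, inner_L2]
    apply integral_congr_ae
    filter_upwards [hu] with ξ h
    rw [h, Complex.conj_mul', Complex.conj_mul', norm_mul, norm_ph, one_mul]
  rw [inner_self_eq_norm_sq_to_K (f j), hf.1 j, inner_L2] at h1
  simp only [Complex.conj_mul'] at h1
  have h2 : ((∫ x, ‖u x‖ ^ 2 : ℝ) : ℂ) = 1 := by
    rw [← integral_complex_ofReal]
    simpa using h1
  exact_mod_cast h2

theorem set_bound (e : ℕ) (hd : Module.finrank ℝ E = e + 2) {ι : Type} (S : Finset ι)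
    (f : ι → Lp ℂ 2 (volume : Measure E)) (hf : Orthonormal ℂ f) (τ r : ℝ) (hr : 0 < r)
    (u : ℕ → ι → Lp ℂ 2 (volume : Measure E))
    (hu : ∀ m j, ((𝓕 (u m j) : Lp ℂ 2 (volume : Measure E)) : E → ℂ) =ᵐ[volume]
      fun ξ => ph (τ + m * r) ξ * (𝓕 (f j) : Lp ℂ 2 (volume : Measure E)) ξ)
    (W : ℕ → E → ℝ) (hWm : ∀ m, Measurable (W m)) (hW0 : ∀ m x, 0 ≤ W m x) (R : ℝ) (hR : 0 < R)
    (hWR : ∀ m x, W m x ≤ R) (hWi : ∀ m, Integrable fun x => W m x ^ (e + 3))
    (A : Finset ℕ) (lam : ℝ) (hlam : 0 < lam) :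
    ∑ m ∈ A, ∑ j ∈ S, ∫ x, W m x ^ 2 * ‖u m j x‖ ^ 2 ≤ S.card * (96 * (lam + R ^ 2)) +
      √(S.card * (24 * (Real.pi / r) ^ (e + 2) * (64 / lam) ^ (e + 1) *
        ∑ m ∈ A, (∫ x, W m x ^ (e + 3)) ^ 2)) := by
  set lev : ℕ × ℕ → E → Prop := fun α x => R / 8 ^ (α.2 + 1) < W α.1 x ∧ W α.1 x ≤ R / 8 ^ α.2
    with hlev
  have hlm : ∀ α, MeasurableSet {x | lev α x} := fun α =>
    (measurableSet_lt measurable_const (hWm _)).inter (measurableSet_le (hWm _) measurable_const)
  set V : ℕ × ℕ → E → ℝ := fun α x => if lev α x then W α.1 x ^ 2 else 0 with hV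
  set Z : ℕ × ℕ → E → ℝ := fun α x => if lev α x then W α.1 x ^ (e + 3) else 0 with hZ
  set ω : ℕ → ℝ := fun k => 8 ^ (k + 1) / R with hω
  set w : ℕ → ℝ := fun k => (R / 8 ^ k) ^ 2 with hw
  have hVm : ∀ α, Measurable (V α) := fun α =>
    Measurable.ite (hlm α) ((hWm _).pow_const 2) measurable_const
  have hZm : ∀ α, Measurable (Z α) := fun α =>
    Measurable.ite (hlm α) ((hWm _).pow_const _) measurable_const
  have hV0 : ∀ α x, 0 ≤ V α x := fun α x => by
    simp only [hV]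
    split_ifs
    · positivity
    · exact le_rfl
  have hZ0 : ∀ α x, 0 ≤ Z α x := fun α x => by
    simp only [hZ]
    split_ifs
    · exact pow_nonneg (hW0 _ _) _
    · exact le_rfl
  have hVw : ∀ α x, V α x ≤ w α.2 := fun α x => by
    simp only [hV, hw]
    split_ifs with h
    · exact pow_le_pow_left₀ (hW0 _ _) h.2 _
    · positivity
  have hZi : ∀ α, Integrable (Z α) := fun α => by
    refine (hWi α.1).mono' (hZm α).aestronglyMeasurable (Eventually.of_forall fun x => ?_)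
    rw [Real.norm_of_nonneg (hZ0 α x)]
    simp only [hZ]
    split_ifs
    · exact le_rfl
    · exact pow_nonneg (hW0 _ _) _
  have hVZ : ∀ α x, V α x ≤ ω α.2 ^ (e + 1) * Z α x := fun α x => by
    simp only [hV, hZ, hω]
    split_ifs with h
    · have h1 : 1 ≤ 8 ^ (α.2 + 1) / R * W α.1 x := by
        have h2 := h.1.le
        rw [div_le_iff₀ (by positivity)] at h2
        rw [div_mul_eq_mul_div, le_div_iff₀ hR]
        linarith
      have h2 := one_le_pow₀ (n := e + 1) h1
      calc W α.1 x ^ 2 ≤ (8 ^ (α.2 + 1) / R * W α.1 x) ^ (e + 1) * W α.1 x ^ 2 :=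
            le_mul_of_one_le_left (sq_nonneg _) h2
        _ = _ := by rw [mul_pow]; ring
    · simp
  have hVi : ∀ α, Integrable (V α) := fun α =>
    ((hZi α).const_mul _).mono' (hVm α).aestronglyMeasurable (Eventually.of_forall fun x => by
      rw [Real.norm_of_nonneg (hV0 α x)]
      exact hVZ α x)
  set b : ℕ × ℕ → ℝ := fun α => ∫ x, Z α x with hb
  have hb0 : ∀ α, 0 ≤ b α := fun α => integral_nonneg (hZ0 α)
  have hVb : ∀ α, ∫ x, V α x ≤ ω α.2 ^ (e + 1) * b α := fun α => by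
    rw [← integral_const_mul]
    exact integral_mono (hVi α) ((hZi α).const_mul _) (hVZ α)
  obtain ⟨T, E', h1, h2, h3, h4, h5, h6, h7, h8⟩ := gram S f hf (fun α : ℕ × ℕ => τ + α.1 * r)
    (fun α => u α.1) (fun α j => hu α.1 j) V hVm hV0 (fun α => w α.2) hVw hVi
  set a : ℕ × ℕ → ℝ := fun α => ∑ j ∈ S, ∫ x, V α x * ‖u α.1 j x‖ ^ 2 with ha
  have ha0 : ∀ α, 0 ≤ a α := fun α => Finset.sum_nonneg fun j _ => integral_nonneg fun x =>
    mul_nonneg (hV0 _ _) (sq_nonneg _)
  have hω0 : ∀ k, 0 < ω k := fun k => by positivity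
  have hw0 : ∀ k, 0 < w k := fun k => by positivity
  set L : ℕ → ℕ → ℕ := fun k l => ⌈lam * ((1 / 2) ^ (l - k)) ^ 2 / w l⌉₊ with hL
  have hcore := core e T E' a b (lam + R ^ 2) ((Real.pi / r) ^ (e + 2) / 2 * (64 / lam) ^ (e + 1)) w
    (fun k l => (Real.pi / r) ^ (e + 2) / 2 * (ω k * ω l) ^ (e + 1)) L (by positivity)
    (by positivity) (fun k => (hw0 k).le)
    (fun k l => by have := hω0 k; have := hω0 l; positivity) ha0
    (fun k l => Nat.ceil_pos.2 (by have := hw0 l; positivity))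
    (by
      intro k l hkl
      have h9 : (L k l : ℝ) ≤ lam * ((1 / 2) ^ (l - k)) ^ 2 / w l + 1 :=
        (Nat.ceil_lt_add_one (by have := hw0 l; positivity)).le
      have h10 := mul_le_mul_of_nonneg_right h9 (hw0 l).le
      rw [add_mul, div_mul_cancel₀ _ (hw0 l).ne', one_mul] at h10
      have h11 : w l ≤ R ^ 2 * ((1 / 2) ^ (l - k)) ^ 2 := by
        rw [← mul_pow]
        apply pow_le_pow_left₀ (by positivity)
        rw [div_eq_mul_one_div, ← one_div_pow]
        apply mul_le_mul_of_nonneg_left _ hR.le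
        calc (1 / 8 : ℝ) ^ l ≤ (1 / 2) ^ l := pow_le_pow_left₀ (by norm_num) (by norm_num) _
          _ ≤ _ := pow_le_pow_of_le_one (by norm_num) (by norm_num) (Nat.sub_le l k)
      linarith)
    (by
      intro k l hkl
      obtain ⟨D, rfl⟩ := Nat.exists_eq_add_of_le hkl
      have hD : k + D - k = D := by omega
      have h9 : lam * ((1 / 2) ^ D) ^ 2 / w (k + D) ≤ (L k (k + D) : ℝ) := by
        simp only [hL, hD]
        exact Nat.le_ceil _
      have h10 : 0 < lam * ((1 / 2) ^ D) ^ 2 / w (k + D) := by have := hw0 (k + D); positivity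
      have h11 : ω k * ω (k + D) * (1 / (L k (k + D) : ℝ)) ≤ 64 / lam * (1 / 2) ^ D := by
        refine (mul_le_mul_of_nonneg_left (one_div_le_one_div_of_le h10 h9)
          (mul_pos (hω0 _) (hω0 _)).le).trans (le_of_eq ?_)
        simp only [hω, hw]
        have e8 : (8 : ℝ) ^ D = (2 ^ D) ^ 3 := by rw [← pow_mul, mul_comm, pow_mul]; norm_num
        rw [one_div_pow, pow_succ, pow_succ, pow_add, e8]
        field_simp
        norm_num
      have h12 : (ω k * ω (k + D) * (1 / (L k (k + D) : ℝ))) ^ (e + 1) ≤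
          (64 / lam) ^ (e + 1) * (1 / 2) ^ D := by
        refine (pow_le_pow_left₀ (by have := hω0 k; have := hω0 (k + D); positivity) h11 _).trans ?_
        rw [mul_pow]
        apply mul_le_mul_of_nonneg_left _ (by positivity)
        exact pow_le_of_le_one (by positivity) (pow_le_one₀ (by norm_num) (by norm_num))
          (by omega)
      rw [hD, mul_assoc, mul_assoc, ← mul_pow]
      exact mul_le_mul_of_nonneg_left h12 (by positivity))
    h1 h2
    (by
      intro α β hαβ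
      have hne : (α.1 : ℝ) - β.1 ≠ 0 := sub_ne_zero.2 (by exact_mod_cast hαβ)
      have e1 : τ + α.1 * r - (τ + β.1 * r) = r * ((α.1 : ℝ) - β.1) := by ring
      refine (h3 α β (by
        rw [← sub_ne_zero, e1]
        exact mul_ne_zero hr.ne' hne)).trans (add_le_add le_rfl ?_)
      have e2 : Real.pi / (r * |(α.1 : ℝ) - β.1|) = Real.pi / r * (1 / |(α.1 : ℝ) - β.1|) := by
        rw [div_mul_div_comm, mul_one]
      rw [e1, abs_mul, abs_of_pos hr, hd, e2, mul_pow]
      have h9 : (∫ x, V α x) * ∫ x, V β x ≤ (ω α.2 ^ (e + 1) * b α) * (ω β.2 ^ (e + 1) * b β) :=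
        mul_le_mul (hVb α) (hVb β) (integral_nonneg (hV0 β))
          (mul_nonneg (pow_nonneg (hω0 _).le _) (hb0 α))
      refine (mul_le_mul_of_nonneg_left h9 (by positivity)).trans (le_of_eq ?_)
      rw [mul_pow]
      ring)
    h4 h5 h6 h7 A
  have hu2 : ∀ m j, Integrable fun y => ‖u m j y‖ ^ 2 := fun m j =>
    (memLp_two_iff_integrable_sq_norm (Lp.memLp (u m j)).1).1 (Lp.memLp _)
  have hVu2 : ∀ α j, Integrable fun y => V α y * ‖u α.1 j y‖ ^ 2 := fun α j =>
    (hu2 α.1 j).bdd_mul (c := w α.2) (hVm α).aestronglyMeasurable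
      (Eventually.of_forall fun y => by rw [Real.norm_of_nonneg (hV0 α y)]; exact hVw α y)
  have hK : ∀ K : ℕ, ∑ m ∈ A, ∑ j ∈ S, ∫ x, W m x ^ 2 * ‖u m j x‖ ^ 2 ≤
      (S.card * (96 * (lam + R ^ 2)) +
      √(S.card * (24 * (Real.pi / r) ^ (e + 2) * (64 / lam) ^ (e + 1) *
        ∑ m ∈ A, (∫ x, W m x ^ (e + 3)) ^ 2))) + A.card * S.card * (R / 8 ^ K) ^ 2 := by
    intro K
    have h9 : ∑ α ∈ A ×ˢ Finset.range K, b α ^ 2 ≤ ∑ m ∈ A, (∫ x, W m x ^ (e + 3)) ^ 2 := by
      rw [Finset.sum_product]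
      apply Finset.sum_le_sum
      intro m _
      refine (Finset.sum_sq_le_sq_sum_of_nonneg fun k _ => hb0 _).trans ?_
      apply pow_le_pow_left₀ (Finset.sum_nonneg fun k _ => hb0 _)
      simp only [hb]
      rw [← integral_finsetSum _ fun k _ => hZi _]
      apply integral_mono (integrable_finsetSum _ fun k _ => hZi _) (hWi m)
      intro x
      simp only [hZ, hlev]
      rw [level_sum R _ _ hR (hWR m x)]
      split_ifs
      · exact le_rfl
      · exact pow_nonneg (hW0 _ _) _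
    have h10 : ∑ α ∈ A ×ˢ Finset.range K, a α ≤ S.card * (96 * (lam + R ^ 2)) +
      √(S.card * (24 * (Real.pi / r) ^ (e + 2) * (64 / lam) ^ (e + 1) *
        ∑ m ∈ A, (∫ x, W m x ^ (e + 3)) ^ 2)) := by
      apply quad_le (by positivity)
      refine (h8 _).trans ?_
      have h11 := mul_le_mul_of_nonneg_left h9
        (show 0 ≤ 48 * ((Real.pi / r) ^ (e + 2) / 2 * (64 / lam) ^ (e + 1)) by positivity)
      have h12 := mul_le_mul_of_nonneg_left ((hcore (Finset.range K)).trans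
        (add_le_add le_rfl h11)) (Nat.cast_nonneg (α := ℝ) S.card)
      refine h12.trans (le_of_eq ?_)
      ring
    refine le_trans ?_ (add_le_add h10 le_rfl)
    have e3 : (A.card : ℝ) * S.card * (R / 8 ^ K) ^ 2 = ∑ m ∈ A, ∑ j ∈ S, (R / 8 ^ K) ^ 2 := by
      simp only [Finset.sum_const, nsmul_eq_mul]
      ring
    rw [Finset.sum_product, e3, ← Finset.sum_add_distrib]
    apply Finset.sum_le_sum
    intro m _
    simp only [ha]
    rw [Finset.sum_comm, ← Finset.sum_add_distrib]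
    apply Finset.sum_le_sum
    intro j _
    have e4 : (R / 8 ^ K) ^ 2 = ∫ x, (R / 8 ^ K) ^ 2 * ‖u m j x‖ ^ 2 := by
      rw [integral_const_mul, integral_norm_sq_one f hf _ j _ (hu m j), mul_one]
    have hi := integrable_finsetSum (Finset.range K) fun k _ => hVu2 (m, k) j
    rw [e4, ← integral_finsetSum _ fun k _ => hVu2 (m, k) j,
      ← integral_add hi ((hu2 m j).const_mul _)]
    apply integral_mono_of_nonneg (Eventually.of_forall fun x => by positivity)
      (hi.add ((hu2 m j).const_mul _))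
    filter_upwards with x
    rw [Pi.add_apply, ← Finset.sum_mul, ← add_mul]
    apply mul_le_mul_of_nonneg_right _ (sq_nonneg _)
    simp only [hV, hlev]
    rw [level_sum R _ _ hR (hWR m x)]
    split_ifs with h
    · exact le_add_of_nonneg_right (sq_nonneg _)
    · rw [zero_add]
      exact pow_le_pow_left₀ (hW0 _ _) (not_lt.1 h) _
  have hlim : Tendsto (fun K : ℕ => (A.card : ℝ) * S.card * (R / 8 ^ K) ^ 2) atTop (𝓝 0) := by
    have h9 : Tendsto (fun K : ℕ => R / 8 ^ K) atTop (𝓝 0) :=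
      tendsto_const_nhds.div_atTop (tendsto_pow_atTop_atTop_of_one_lt (by norm_num))
    simpa using (h9.pow 2).const_mul ((A.card : ℝ) * S.card)
  have := ge_of_tendsto' (hlim.const_add _) hK
  rwa [add_zero] at this

end Pool.Agent.Lib.MP_dacecb_an
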