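import Pool.Agent.Lib.MP_dacecb_an.Gram

namespace Pool.Agent.Lib.MP_dacecb_an

open MeasureTheory FourierTransform Complex Filter Topology Set
open scoped SchwartzMap ComplexConjugate RealInnerProductSpace ContDiff

theorem fourierInv_L2_eq (f : Lp ℂ 2 (volume : Measure ℝ)) {a : ℝ → ℂ} (ha : Integrable a)
    (hfa : (f : ℝ → ℂ) =ᵐ[volume] a) :
    ((𝓕⁻ f : Lp ℂ 2 (volume : Measure ℝ)) : ℝ → ℂ) =ᵐ[volume] (𝓕⁻ a : ℝ → ℂ) := by
  apply ae_eq_of_integral_contDiff_smul_eq
  · exact (Lp.memLp _).locallyIntegrable (by norm_num)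
  · rw [Real.fourierInv_eq_fourier_comp_neg]
    exact (continuous_fourier_fn ha.comp_neg).locallyIntegrable
  · intro g g_smooth g_cpt
    have hg₁ : HasCompactSupport (Complex.ofRealCLM ∘ g) := g_cpt.comp_left rfl
    have hg₂ : ContDiff ℝ ∞ (Complex.ofRealCLM ∘ g) := by fun_prop
    set φ : 𝓢(ℝ, ℂ) := hg₁.toSchwartzMap hg₂ with hφ
    have h1 := congrArg (fun T : 𝓢'(ℝ, ℂ) => T φ) (Lp.fourierInv_toTemperedDistribution_eq f)
    simp only [TemperedDistribution.fourierInv_apply, Lp.toTemperedDistribution_apply] at h1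
    have h2 : ∫ x, (𝓕⁻ φ : 𝓢(ℝ, ℂ)) x • f x = ∫ x, φ x • (𝓕⁻ a : ℝ → ℂ) x := by
      have h3 := VectorFourier.integral_fourierIntegral_smul_eq_flip (μ := (volume : Measure ℝ))
        (ν := (volume : Measure ℝ)) (L := -innerₗ ℝ) (f := (φ : ℝ → ℂ)) (g := a)
        Real.continuous_fourierChar (by exact continuous_inner.neg) φ.integrable ha
      have h5 : (-innerₗ ℝ).flip = -innerₗ ℝ := by
        ext
        simp
      rw [h5] at h3
      refine Eq.trans ?_ h3
      apply integral_congr_ae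
      filter_upwards [hfa] with x hx
      rw [hx, SchwartzMap.fourierInv_coe]
      rfl
    have h4 : ∀ x, φ x = (g x : ℂ) := fun x => rfl
    simp only [h4] at h1 h2
    rw [h2] at h1
    simpa using h1.symm

theorem osc_lower (k : ℝ) (φ : ℝ → ℝ) (hφ : Continuous φ) (c : ℝ)
    (h : ∀ v ∈ Icc (k - 1 / 2) (k + 1 / 2), |φ v - c| ≤ 4 * |v - k|) :
    1 / 3 ≤ ‖∫ v in (k - 1 / 2)..(k + 1 / 2), cexp (φ v * I)‖ := by
  have h1 : ‖∫ v in (k - 1 / 2)..(k + 1 / 2), cexp (φ v * I)‖ =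
      ‖∫ v in (k - 1 / 2)..(k + 1 / 2), cexp (((φ v - c : ℝ) : ℂ) * I)‖ := by
    have e : ∀ v, cexp (((φ v - c : ℝ) : ℂ) * I) = cexp (((-c : ℝ) : ℂ) * I) * cexp (φ v * I) := by
      intro v
      rw [← Complex.exp_add]
      congr 1
      push_cast
      ring
    simp only [e]
    rw [intervalIntegral.integral_const_mul, norm_mul, Complex.norm_exp_ofReal_mul_I, one_mul]
  rw [h1]
  refine le_trans ?_ (Complex.re_le_norm _)
  have hi : IntervalIntegrable (fun v => cexp (((φ v - c : ℝ) : ℂ) * I)) volume (k - 1 / 2)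
      (k + 1 / 2) := Continuous.intervalIntegrable (by fun_prop) _ _
  have h2 := intervalIntegral.intervalIntegral_re hi
  simp only [RCLike.re_to_complex, Complex.exp_ofReal_mul_I_re] at h2
  rw [← h2]
  have h3 : ∫ v in (k - 1 / 2)..(k + 1 / 2), (1 - 8 * (v - k) ^ 2) = 1 / 3 := by
    rw [intervalIntegral.integral_comp_sub_right (fun v : ℝ => 1 - 8 * v ^ 2) k,
      intervalIntegral.integral_sub (by simp) (Continuous.intervalIntegrable (by fun_prop) _ _),
      intervalIntegral.integral_const_mul, integral_pow, intervalIntegral.integral_const]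
    norm_num
  rw [← h3]
  apply intervalIntegral.integral_mono_on (by linarith)
    (Continuous.intervalIntegrable (by fun_prop) _ _)
    (Continuous.intervalIntegrable (by fun_prop) _ _)
  intro v hv
  have h4 := Real.one_sub_sq_div_two_le_cos (x := φ v - c)
  have h5 := pow_le_pow_left₀ (abs_nonneg _) (h v hv) 2
  rw [sq_abs, mul_pow, sq_abs] at h5
  linarith

noncomputable def GG (p : ℤ × ℤ) : ℝ → ℂ :=
  (Ioc ((p.1 : ℝ) - 1 / 2) (p.1 + 1 / 2)).indicator fun ξ => cexp (((-(2 * Real.pi * p.2 * ξ) : ℝ) : ℂ) * I)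

theorem GG_meas (p : ℤ × ℤ) : AEStronglyMeasurable (GG p) volume :=
  (Continuous.aestronglyMeasurable (by fun_prop)).indicator measurableSet_Ioc

theorem GG_memLp (p : ℤ × ℤ) (q : ENNReal) : MemLp (GG p) q volume := by
  refine MemLp.of_le (memLp_indicator_const q (measurableSet_Ioc (a := (p.1 : ℝ) - 1 / 2)
    (b := p.1 + 1 / 2)) (1 : ℝ) (Or.inr measure_Ioc_lt_top.ne)) (GG_meas p)
    (Eventually.of_forall fun ξ => ?_)
  unfold GG
  by_cases h : ξ ∈ Ioc ((p.1 : ℝ) - 1 / 2) (p.1 + 1 / 2)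
  · rw [indicator_of_mem h, indicator_of_mem h, Complex.norm_exp_ofReal_mul_I, norm_one]
  · rw [indicator_of_notMem h, indicator_of_notMem h, norm_zero, norm_zero]

noncomputable def gg (p : ℤ × ℤ) : Lp ℂ 2 (volume : Measure ℝ) := (GG_memLp p 2).toLp

theorem gg_orthonormal : Orthonormal ℂ gg := by
  classical
  rw [orthonormal_iff_ite]
  rintro ⟨k, m⟩ ⟨k', m'⟩
  have h1 : inner ℂ (gg (k, m)) (gg (k', m')) = ∫ ξ, conj (GG (k, m) ξ) * GG (k', m') ξ := by
    rw [inner_L2]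
    apply integral_congr_ae
    filter_upwards [(GG_memLp (k, m) 2).coeFn_toLp, (GG_memLp (k', m') 2).coeFn_toLp] with ξ e1 e2
    rw [gg, gg, e1, e2]
  rw [h1]
  by_cases hk : k = k'
  · subst hk
    have h2 : ∀ ξ, conj (GG (k, m) ξ) * GG (k, m') ξ = (Ioc ((k : ℝ) - 1 / 2) (k + 1 / 2)).indicator
        (fun ξ : ℝ => cexp (((m - m' : ℤ) * (2 * Real.pi * I)) * ξ)) ξ := by
      intro ξ
      unfold GG
      by_cases h : ξ ∈ Ioc ((k : ℝ) - 1 / 2) (k + 1 / 2)
      · rw [indicator_of_mem h, indicator_of_mem h, indicator_of_mem h, ← Complex.exp_conj,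
          ← Complex.exp_add]
        congr 1
        rw [map_mul, Complex.conj_ofReal, Complex.conj_I]
        push_cast
        ring
      · rw [indicator_of_notMem h, indicator_of_notMem h, indicator_of_notMem h, mul_zero]
    simp only [h2]
    rw [integral_indicator measurableSet_Ioc, ← intervalIntegral.integral_of_le (by linarith)]
    by_cases hm : m = m'
    · subst hm
      simp
      norm_num
    · rw [if_neg (by simpa using hm), integral_exp_mul_complex]
      · have e : ((m - m' : ℤ) * (2 * Real.pi * I) : ℂ) * ((k : ℝ) + 1 / 2 : ℝ) =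
            ((m - m' : ℤ) * (2 * Real.pi * I) : ℂ) * ((k : ℝ) - 1 / 2 : ℝ) +
              (m - m' : ℤ) * (2 * Real.pi * I) := by
          push_cast
          ring
        rw [e, Complex.exp_add, Complex.exp_int_mul_two_pi_mul_I, mul_one, sub_self, zero_div]
      · exact mul_ne_zero (by exact_mod_cast sub_ne_zero.2 hm) Complex.two_pi_I_ne_zero
  · rw [if_neg (by simp [hk])]
    have h2 : ∀ ξ, conj (GG (k, m) ξ) * GG (k', m') ξ = 0 := by
      intro ξ
      unfold GG
      by_cases h : ξ ∈ Ioc ((k : ℝ) - 1 / 2) (k + 1 / 2)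
      · rw [indicator_of_notMem (s := Ioc (((k', m').1 : ℝ) - 1 / 2) _), mul_zero]
        intro h'
        have e1 : (k : ℝ) < k' + 1 := by linarith [h.1, h'.2]
        have e2 : (k' : ℝ) < k + 1 := by linarith [h.2, h'.1]
        have e3 : k < k' + 1 := by exact_mod_cast e1
        have e4 : k' < k + 1 := by exact_mod_cast e2
        omega
      · rw [indicator_of_notMem h, map_zero, zero_mul]
    simp only [h2, integral_zero]

noncomputable def ff (p : ℤ × ℤ) : Lp ℂ 2 (volume : Measure ℝ) := 𝓕⁻ (gg p)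

theorem ff_orthonormal : Orthonormal ℂ ff :=
  gg_orthonormal.comp_linearIsometryEquiv (Lp.fourierTransformₗᵢ ℝ ℂ).symm

theorem lower_pt (τ : ℝ) (hτ0 : 0 ≤ τ) (hτ : τ ≤ 4 / 5) (p : ℤ × ℤ)
    (u : Lp ℂ 2 (volume : Measure ℝ))
    (hu : ((𝓕 u : Lp ℂ 2 (volume : Measure ℝ)) : ℝ → ℂ) =ᵐ[volume]
      fun ξ => ph τ ξ * (𝓕 (ff p) : Lp ℂ 2 (volume : Measure ℝ)) ξ) :
    ∀ᵐ x, |x - p.2 - τ / Real.pi * p.1| ≤ 9 / 16 → 1 / 3 ≤ ‖u x‖ := by
  have ha : Integrable fun ξ => ph τ ξ * GG p ξ :=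
    (memLp_one_iff_integrable.1 (GG_memLp p 1)).bdd_mul (c := 1)
      (continuous_ph.comp (Continuous.prodMk_right _)).aestronglyMeasurable
      (Eventually.of_forall fun ξ => (norm_ph _ _).le)
  have h1 := fourierInv_L2_eq (𝓕 u) ha (by
    rw [ff, fourier_fourierInv_eq] at hu
    filter_upwards [hu, (GG_memLp p 2).coeFn_toLp] with ξ e1 e2
    rw [e1, gg, e2])
  rw [fourierInv_fourier_eq] at h1
  filter_upwards [h1] with x hx h
  rw [hx, Real.fourierInv_eq']
  have h2 : ∀ v : ℝ, cexp (((2 * Real.pi * ⟪v, x⟫ : ℝ) : ℂ) * I) • (ph τ v * GG p v) =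
      (Ioc ((p.1 : ℝ) - 1 / 2) (p.1 + 1 / 2)).indicator (fun v : ℝ =>
        cexp (((2 * Real.pi * (x - p.2) * v - τ * v ^ 2 : ℝ) : ℂ) * I)) v := by
    intro v
    unfold GG
    by_cases hv : v ∈ Ioc ((p.1 : ℝ) - 1 / 2) (p.1 + 1 / 2)
    · rw [indicator_of_mem hv, indicator_of_mem hv, smul_eq_mul, ph, ← Complex.exp_add,
        ← Complex.exp_add, ← sq_abs v, ← Real.norm_eq_abs]
      congr 1
      have e : ⟪v, x⟫ = x * v := by simp
      rw [e]
      push_cast
      ring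
    · rw [indicator_of_notMem hv, indicator_of_notMem hv, mul_zero, smul_zero]
  simp only [h2]
  rw [integral_indicator measurableSet_Ioc, ← intervalIntegral.integral_of_le (by linarith)]
  apply osc_lower p.1 (fun v => 2 * Real.pi * (x - p.2) * v - τ * v ^ 2) (by fun_prop)
    (2 * Real.pi * (x - p.2) * p.1 - τ * (p.1 : ℝ) ^ 2)
  intro v hv
  have hπ := Real.pi_pos
  have e : 2 * Real.pi * (x - p.2) * v - τ * v ^ 2 -
      (2 * Real.pi * (x - p.2) * p.1 - τ * (p.1 : ℝ) ^ 2) =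
      (2 * Real.pi * (x - p.2 - τ / Real.pi * p.1) - τ * (v - p.1)) * (v - p.1) := by
    field_simp
    ring
  rw [e, abs_mul]
  apply mul_le_mul_of_nonneg_right _ (abs_nonneg _)
  have h3 : |v - p.1| ≤ 1 / 2 := abs_le.2 ⟨by linarith [hv.1], by linarith [hv.2]⟩
  refine (abs_sub _ _).trans ?_
  rw [abs_mul, abs_mul τ, abs_of_pos (show 0 < 2 * Real.pi by positivity), abs_of_nonneg hτ0]
  have h4 := mul_le_mul_of_nonneg_left h (show 0 ≤ 2 * Real.pi by positivity)
  have h5 := mul_le_mul hτ h3 (abs_nonneg _) (by norm_num)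
  linarith [Real.pi_lt_d2]

end Pool.Agent.Lib.MP_dacecb_an
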