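import Pool.Agent.Lib.MP_dacecb_an.Sharp1

namespace Pool.Agent.Lib.MP_dacecb_an

open MeasureTheory FourierTransform Filter Topology Set
open scoped ENNReal

noncomputable def fr (l : ℕ) (s : ℝ) : ℝ := s - (⌊2 ^ l * s⌋₊ : ℝ) / 2 ^ l

theorem fr_nonneg (l : ℕ) {s : ℝ} (hs : 0 ≤ s) : 0 ≤ fr l s := by
  rw [fr, sub_nonneg, div_le_iff₀ (by positivity), mul_comm]
  exact Nat.floor_le (by positivity)

theorem fr_le (l : ℕ) (s : ℝ) : fr l s ≤ (1 / 2) ^ l := by
  rw [fr, one_div_pow, sub_le_iff_le_add, ← add_div, le_div_iff₀ (by positivity), mul_comm]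
  linarith [Nat.lt_floor_add_one (2 ^ l * s)]

theorem fr_sub (l j : ℕ) (h : l ≤ j) (s : ℝ) :
    fr l s - fr l ((⌊2 ^ j * s⌋₊ : ℝ) / 2 ^ j) = fr j s := by
  obtain ⟨d, rfl⟩ := Nat.exists_eq_add_of_le h
  have e1 : 2 ^ l * s = 2 ^ (l + d) * s / ((2 ^ d : ℕ) : ℝ) := by
    push_cast
    field_simp
    ring
  have e2 : 2 ^ l * ((⌊2 ^ (l + d) * s⌋₊ : ℝ) / 2 ^ (l + d)) =
      (⌊2 ^ (l + d) * s⌋₊ : ℝ) / ((2 ^ d : ℕ) : ℝ) := by
    push_cast
    field_simp
    ring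
  have e3 : ⌊2 ^ l * ((⌊2 ^ (l + d) * s⌋₊ : ℝ) / 2 ^ (l + d))⌋₊ = ⌊2 ^ l * s⌋₊ := by
    rw [e2, e1, Nat.floor_div_natCast, Nat.floor_div_natCast, Nat.floor_natCast]
  simp only [fr]
  rw [e3]
  ring

theorem kakeya (n : ℕ) : ∃ (E : Finset (ℤ × ℤ)) (x : ℝ → ℝ), E.card ≤ 9 * n * 4 ^ n ∧
    ∀ s ∈ Ico (0 : ℝ) 1, ∀ k : ℕ, k < n * 2 ^ n →
      ∃ m : ℤ, ((k : ℤ), m) ∈ E ∧ |x s - m - s * k| ≤ 1 / 2 := by
  classical
  set x : ℝ → ℝ := fun s => 2 ^ n * ∑ l ∈ Finset.range n, fr l s with hx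
  set c : ℕ → ℕ → ℤ := fun k i =>
    round (x ((i : ℝ) / 2 ^ (k / 2 ^ n)) - (i : ℝ) / 2 ^ (k / 2 ^ n) * k) with hc
  set D : ℕ → ℕ := fun k => 4 * 2 ^ (n - k / 2 ^ n) with hD
  refine ⟨(Finset.range (n * 2 ^ n)).biUnion fun k => (Finset.range (2 ^ (k / 2 ^ n))).biUnion
    fun i => (Finset.Icc (c k i - D k) (c k i + D k)).image fun m => ((k : ℤ), m), x, ?_, ?_⟩
  · refine (Finset.card_biUnion_le_card_mul _ _ (9 * 2 ^ n) fun k hk => ?_).trans (le_of_eq ?_)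
    · have hj : k / 2 ^ n ≤ n :=
        ((Nat.div_lt_iff_lt_mul (by positivity)).2 (Finset.mem_range.1 hk)).le
      refine (Finset.card_biUnion_le_card_mul _ _ (9 * 2 ^ (n - k / 2 ^ n)) fun i _ => ?_).trans
        (le_of_eq ?_)
      · refine Finset.card_image_le.trans ?_
        rw [Int.card_Icc]
        have h1 : 1 ≤ 2 ^ (n - k / 2 ^ n) := Nat.one_le_two_pow
        simp only [hD]
        omega
      · rw [Finset.card_range, mul_left_comm, ← pow_add, Nat.add_sub_cancel' hj]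
    · rw [Finset.card_range, show (4 : ℕ) = 2 * 2 by norm_num, mul_pow]
      ring
  · intro s hs k hk
    set j := k / 2 ^ n with hj
    have hjn : j < n := (Nat.div_lt_iff_lt_mul (by positivity)).2 hk
    set i := ⌊2 ^ j * s⌋₊ with hi
    have hi2 : i < 2 ^ j := by
      rw [hi, Nat.floor_lt (by have := hs.1; positivity)]
      push_cast
      exact mul_lt_of_lt_one_right (by positivity) hs.2
    refine ⟨round (x s - s * k), ?_, ?_⟩
    swap
    · rw [sub_right_comm]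
      exact abs_sub_round _
    refine Finset.mem_biUnion.2 ⟨k, Finset.mem_range.2 hk, Finset.mem_biUnion.2
      ⟨i, Finset.mem_range.2 hi2, Finset.mem_image.2 ⟨_, ?_, rfl⟩⟩⟩
    set s₀ : ℝ := (i : ℝ) / 2 ^ j with hs₀
    have hs0 : 0 ≤ s₀ := by positivity
    have h1 : (k : ℝ) = 2 ^ n * j + (k % 2 ^ n : ℕ) := by exact_mod_cast (Nat.div_add_mod k _).symm
    have h2 : ((k % 2 ^ n : ℕ) : ℝ) ≤ 2 ^ n := by exact_mod_cast (Nat.mod_lt k (by positivity)).le
    have h3 : x s - s * k - (x s₀ - s₀ * k) =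
        2 ^ n * ∑ l ∈ Finset.Ico j n, (fr l s - fr l s₀) - fr j s * (k % 2 ^ n : ℕ) := by
      have e1 : ∑ l ∈ Finset.range j, (fr l s - fr l s₀) = j * fr j s := by
        rw [Finset.sum_congr rfl fun l hl => fr_sub l j (Finset.mem_range.1 hl).le s]
        simp
      have e2 := Finset.sum_range_add_sum_Ico (fun l => fr l s - fr l s₀) hjn.le
      rw [e1, Finset.sum_sub_distrib (s := Finset.range n)] at e2
      have e3 : fr j s = s - s₀ := rfl
      simp only [hx]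
      rw [h1]
      linear_combination (-(2 : ℝ) ^ n) * e2 +
        (2 ^ n * j + ((k % 2 ^ n : ℕ) : ℝ)) * e3
    have h4 : |∑ l ∈ Finset.Ico j n, (fr l s - fr l s₀)| ≤ 2 * (1 / 2) ^ j := by
      refine (Finset.abs_sum_le_sum_abs _ _).trans ((Finset.sum_le_sum fun l _ => ?_).trans
        ((geom_sum_Ico_le_of_lt_one (x := (1 / 2 : ℝ)) (by norm_num) (by norm_num)).trans
          (le_of_eq (by ring))))
      exact abs_le.2 ⟨by linarith [fr_nonneg l hs.1, fr_le l s₀],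
        by linarith [fr_nonneg l hs0, fr_le l s]⟩
    have h5 : (2 : ℝ) ^ n * (1 / 2) ^ j = 2 ^ (n - j) := by
      rw [one_div_pow, pow_sub₀ _ two_ne_zero hjn.le]
      ring
    have h6 : |x s - s * k - (x s₀ - s₀ * k)| ≤ 3 * 2 ^ (n - j) := by
      rw [h3]
      refine (abs_sub _ _).trans ?_
      rw [abs_mul, abs_mul, abs_of_pos (show (0 : ℝ) < 2 ^ n by positivity),
        abs_of_nonneg (fr_nonneg j hs.1), Nat.abs_cast]
      have e1 := mul_le_mul_of_nonneg_left h4 (show (0 : ℝ) ≤ 2 ^ n by positivity)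
      have e2 := mul_le_mul (fr_le j s) h2 (Nat.cast_nonneg _) (by positivity)
      linarith
    have h7 := abs_le.1 (abs_sub_round (x s - s * k))
    have h8 := abs_le.1 (abs_sub_round (x s₀ - s₀ * k))
    have h9 : (1 : ℝ) ≤ 2 ^ (n - j) := one_le_pow₀ one_le_two
    have h10 := abs_le.1 h6
    rw [Finset.mem_Icc]
    constructor
    · have : ((c k i - D k : ℤ) : ℝ) ≤ (round (x s - s * k) : ℤ) := by
        simp only [hc, hD]
        push_cast
        linarith [h7.1, h7.2, h8.1, h8.2, h10.1, h10.2]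
      exact_mod_cast this
    · have : ((round (x s - s * k) : ℤ) : ℝ) ≤ ((c k i + D k : ℤ) : ℝ) := by
        simp only [hc, hD]
        push_cast
        linarith [h7.1, h7.2, h8.1, h8.2, h10.1, h10.2]
      exact_mod_cast this

theorem kakeya_card (N : ℕ) (hN : 1 ≤ N) : ∃ (K : ℕ) (E : Finset (ℤ × ℤ)) (x : ℝ → ℝ),
    E.card = N ∧ √((N : ℝ) * (1 + Real.log N)) ≤ 36 * K ∧
    ∀ s ∈ Ico (0 : ℝ) 1, ∀ k : ℕ, k < K →
      ∃ m : ℤ, ((k : ℤ), m) ∈ E ∧ |x s - m - s * k| ≤ 1 / 2 := by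
  have hN0 : (0 : ℝ) < N := by exact_mod_cast hN
  have key : ∃ (K : ℕ) (E : Finset (ℤ × ℤ)) (x : ℝ → ℝ),
      E.card ≤ N ∧ (N : ℝ) * (1 + Real.log N) ≤ (36 * K) ^ 2 ∧
      ∀ s ∈ Ico (0 : ℝ) 1, ∀ k : ℕ, k < K →
        ∃ m : ℤ, ((k : ℤ), m) ∈ E ∧ |x s - m - s * k| ≤ 1 / 2 := by
    have hex : ∃ n : ℕ, N < 9 * (n + 1) * 4 ^ (n + 1) :=
      ⟨N, by nlinarith [Nat.one_le_pow (N + 1) 4 (by norm_num)]⟩
    have h1 := Nat.find_spec hex
    rcases Nat.eq_zero_or_pos (Nat.find hex) with h0 | h0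
    · rw [h0] at h1
      refine ⟨1, {(0, 0)}, fun _ => 0, by simpa using hN, ?_, fun s _ k hk => ⟨0, ?_, ?_⟩⟩
      · have h2 : (N : ℝ) ≤ 36 := by exact_mod_cast h1.le
        have h3 := Real.log_le_sub_one_of_pos hN0
        have h4 := mul_le_mul h2 (show 1 + Real.log N ≤ 36 by linarith)
          (by linarith [Real.log_natCast_nonneg N]) (by norm_num)
        push_cast
        linarith
      · rw [Nat.lt_one_iff.1 hk]
        simp
      · rw [Nat.lt_one_iff.1 hk]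
        simp
    · obtain ⟨n, hn⟩ : ∃ n, Nat.find hex = n + 1 := ⟨_, (Nat.sub_add_cancel h0).symm⟩
      have h2 := not_lt.1 (Nat.find_min hex (show n < Nat.find hex by omega))
      rw [hn] at h1
      obtain ⟨E, x, h3, h4⟩ := kakeya (n + 1)
      refine ⟨(n + 1) * 2 ^ (n + 1), E, x, h3.trans h2, ?_, h4⟩
      have h5 : N ≤ 72 * (n + 1) * 4 ^ (n + 1) := by
        rw [pow_succ] at h1
        nlinarith [Nat.one_le_pow (n + 1) 4 (by norm_num)]
      have h6 : N ≤ 4 ^ (2 * n + 6) := by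
        have e1 : n + 1 + 1 ≤ 4 ^ (n + 2) := (Nat.lt_pow_self (by norm_num)).le
        have e2 : 4 ^ (2 * n + 6) = 16 * 4 ^ (n + 2) * 4 ^ (n + 1 + 1) := by ring
        rw [e2]
        exact h1.le.trans (Nat.mul_le_mul_right _ (Nat.mul_le_mul (by norm_num) e1))
      have h7 : Real.log N ≤ (2 * n + 6 : ℕ) * Real.log 4 := by
        rw [← Real.log_pow]
        exact Real.log_le_log hN0 (by exact_mod_cast h6)
      have h8 : Real.log 4 ≤ 2 := by
        rw [show (4 : ℝ) = 2 ^ 2 by norm_num, Real.log_pow]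
        have := Real.log_le_sub_one_of_pos (show (0 : ℝ) < 2 by norm_num)
        push_cast
        linarith
      have hn0 : (0 : ℝ) ≤ n := Nat.cast_nonneg n
      have h9 : 1 + Real.log N ≤ 18 * ((n : ℝ) + 1) := by
        push_cast at h7
        nlinarith
      have h10 : (N : ℝ) ≤ 72 * (n + 1) * 4 ^ (n + 1) := by exact_mod_cast h5
      refine (mul_le_mul h10 h9 (by linarith [Real.log_natCast_nonneg N])
        (by positivity)).trans (le_of_eq ?_)
      push_cast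
      rw [show (4 : ℝ) = 2 * 2 by norm_num, mul_pow]
      ring
  obtain ⟨K, E, x, h1, h2, h3⟩ := key
  obtain ⟨E', h4, h5⟩ := Infinite.exists_superset_card_eq E N h1
  refine ⟨K, E', x, h5, Real.sqrt_le_iff.2 ⟨by positivity, h2⟩, fun s hs k hk => ?_⟩
  obtain ⟨m, h6, h7⟩ := h3 s hs k hk
  exact ⟨m, h4 h6, h7⟩

theorem lower_set (κ : ℝ) (hκ : 0 < κ) (K : ℕ) (E : Finset (ℤ × ℤ)) (x : ℝ → ℝ)
    (h : ∀ s ∈ Ico (0 : ℝ) 1, ∀ k : ℕ, k < K →
      ∃ m : ℤ, ((k : ℤ), m) ∈ E ∧ |x s - m - s * k| ≤ 1 / 2)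
    (u : ℝ → E → Lp ℂ 2 (volume : Measure ℝ))
    (hu : ∀ t j, ((𝓕 (u t j) : Lp ℂ 2 (volume : Measure ℝ)) : ℝ → ℂ) =ᵐ[volume]
      fun ξ => ph (κ * t) ξ * (𝓕 (ff j) : Lp ℂ 2 (volume : Measure ℝ)) ξ) :
    (ENNReal.ofReal (√(Real.pi / κ) * K / 18)) ^ 2 ≤
      ∫⁻ t, (essSup (fun y => ∑' j, ‖(1 : ℂ)‖ₑ * ‖u t j y‖ₑ ^ 2) volume) ^ 2 := by
  classical
  have hπ := Real.pi_pos
  have h1 : ∀ t ∈ Ico (0 : ℝ) (Real.pi / (4 * κ)), ENNReal.ofReal ((K : ℝ) / 9) ≤
      essSup (fun y => ∑' j, ‖(1 : ℂ)‖ₑ * ‖u t j y‖ₑ ^ 2) volume := by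
    intro t ht
    have ht1 : κ * t ≤ Real.pi / 4 := by
      have := ht.2.le
      rw [le_div_iff₀ (by positivity)] at this
      linarith
    have ht0 : 0 ≤ κ * t := mul_nonneg hκ.le ht.1
    have hs : κ * t / Real.pi ∈ Ico (0 : ℝ) 1 :=
      ⟨by positivity, by rw [div_lt_one hπ]; linarith⟩
    set s := κ * t / Real.pi with hsd
    have h2 := ae_all_iff.2 fun j : E => lower_pt (κ * t) ht0 (by linarith [Real.pi_lt_d2]) j
      (u t j) (hu t j)
    have h3 := ENNReal.ae_le_essSup (μ := (volume : Measure ℝ))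
      fun y => ∑' j, ‖(1 : ℂ)‖ₑ * ‖u t j y‖ₑ ^ 2
    obtain ⟨y, hy, h4, h5⟩ := Measure.exists_mem_of_measure_ne_zero_of_ae
      (s := Icc (x s) (x s + 1 / 16)) (by simp) (ae_restrict_of_ae (h2.and h3))
    refine le_trans ?_ h5
    choose! m hm1 hm2 using h s hs
    set e : Fin K → E := fun k => ⟨((k : ℕ), m k), hm1 k k.2⟩ with he
    have hinj : Function.Injective e := fun a b hab => by
      have := congrArg (fun z : E => z.1.1) hab
      simp only [he, Nat.cast_inj] at this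
      exact Fin.ext this
    refine le_trans ?_ (ENNReal.tsum_comp_le_tsum_of_injective hinj _)
    rw [tsum_fintype]
    refine le_trans (le_of_eq ?_) (Finset.card_nsmul_le_sum _ _ (ENNReal.ofReal (1 / 9))
      fun k _ => ?_)
    · rw [Finset.card_univ, Fintype.card_fin, nsmul_eq_mul, ← ENNReal.ofReal_natCast,
        ← ENNReal.ofReal_mul (Nat.cast_nonneg K), mul_one_div]
    · have h6 := abs_le.1 (hm2 k k.2)
      have h7 := h4 (e k) (by
        simp only [he, Int.cast_natCast]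
        exact abs_le.2 ⟨by linarith [h6.1, hy.1], by linarith [h6.2, hy.2]⟩)
      rw [enorm_one, one_mul, ← ofReal_norm, ← ENNReal.ofReal_pow (norm_nonneg _)]
      apply ENNReal.ofReal_le_ofReal
      nlinarith
  refine le_trans ?_ (setLIntegral_le_lintegral (Ico (0 : ℝ) (Real.pi / (4 * κ))) _)
  refine le_trans (le_of_eq ?_) (setLIntegral_mono' measurableSet_Ico fun t ht =>
    pow_le_pow_left' (h1 t ht) 2)
  rw [setLIntegral_const, Real.volume_Ico, ← ENNReal.ofReal_pow (by positivity),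
    ← ENNReal.ofReal_pow (by positivity), ← ENNReal.ofReal_mul (by positivity)]
  congr 1
  rw [div_pow, mul_pow, Real.sq_sqrt (by positivity)]
  field_simp
  ring

end Pool.Agent.Lib.MP_dacecb_an
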