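import Pool.Agent.Lib.MP_dacecb_an.LogMain

namespace Pool.Agent.Lib.MP_dacecb_an

open MeasureTheory FourierTransform Filter Topology Set
open scoped ENNReal

variable {E : Type} [NormedAddCommGroup E] [InnerProductSpace ℝ E] [FiniteDimensional ℝ E]
  [MeasurableSpace E] [BorelSpace E]

theorem dual_w (ψ : ℕ → ℝ) (hψ0 : ∀ n, 0 ≤ ψ n)
    (hψ : ∀ N : ℕ, √((N : ℝ) * (1 + Real.log N)) ≤ ∑ n ∈ Finset.range N, ψ n)
    (hd : Module.finrank ℝ E = 1) {ι : Type} (J : Finset ι)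
    (f : ι → Lp ℂ 2 (volume : Measure E)) (hf : Orthonormal ℂ f) (κ τ δ : ℝ) (hκ : 0 < κ)
    (hδ : 0 < δ) (u : ℕ → ι → Lp ℂ 2 (volume : Measure E))
    (hu : ∀ m j, ((𝓕 (u m j) : Lp ℂ 2 (volume : Measure E)) : E → ℂ) =ᵐ[volume]
      fun ξ => ph (τ + m * (κ * δ)) ξ * (𝓕 (f j) : Lp ℂ 2 (volume : Measure E)) ξ)
    (c : ι → ℝ) (hc : ∀ j, 0 ≤ c j) (r : ℕ → ℝ) (hr0 : ∀ n, 0 ≤ r n)
    (hr : ∀ n, ∀ S ⊆ J, n < S.card → ∃ j ∈ S, c j ≤ r n) (M ε : ℝ) (hM : 0 ≤ M) (hε : 0 < ε)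
    (l : ℕ → ℝ) (hl0 : ∀ m, 0 ≤ l m) (hlM : ∀ m, l m ≤ M) (A : Finset ℕ)
    (hA : ∀ m, 0 < l m → ε ≤ ∫ x, cut (l m) (∑ j ∈ J, c j * ‖u m j x‖ ^ 2)) :
    δ * ∑ m ∈ A, l m ^ 2 ≤
      (11 * √(Real.pi / κ) * ∑ n ∈ Finset.range J.card,
        ψ n * r n +
      √(δ * (2 * (M / ε) * ∑ n ∈ Finset.range J.card, r n))) ^ 2 := by
  set ρ : ℕ → E → ℝ := fun m x => ∑ j ∈ J, c j * ‖u m j x‖ ^ 2 with hρ
  have hρ0 : ∀ m x, 0 ≤ ρ m x := fun m x =>
    Finset.sum_nonneg fun j _ => mul_nonneg (hc j) (sq_nonneg _)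
  have hu2 : ∀ m j, Integrable fun y => ‖u m j y‖ ^ 2 := fun m j =>
    (memLp_two_iff_integrable_sq_norm (Lp.memLp (u m j)).1).1 (Lp.memLp _)
  have hρi : ∀ m, Integrable (ρ m) := fun m =>
    integrable_finsetSum _ fun j _ => (hu2 m j).const_mul _
  have hρm : ∀ m, Measurable (ρ m) := fun m =>
    Finset.measurable_sum _ fun j _ =>
      ((Lp.stronglyMeasurable (u m j)).measurable.norm.pow_const 2).const_mul _
  have hci : ∀ m, Integrable fun x => cut (l m) (ρ m x) := fun m =>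
    integrable_cut _ (hl0 m) _ (hρ0 m) (hρi m)
  set w : ℕ → ℝ := fun m => l m / max (∫ x, cut (l m) (ρ m x)) ε with hw
  have hw0 : ∀ m, 0 ≤ w m := fun m => div_nonneg (hl0 m) (hε.le.trans (le_max_right _ _))
  have hwR : ∀ m, w m ≤ M / ε := fun m => div_le_div₀ hM (hlM m) hε (le_max_right _ _)
  set V : ℕ → E → ℝ := fun m x => w m * cut (l m) (ρ m x) with hV
  have hVm : ∀ m, Measurable (V m) := fun m =>
    ((continuous_cut (l m)).measurable.comp (hρm m)).const_mul _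
  have hV0 : ∀ m x, 0 ≤ V m x := fun m x => mul_nonneg (hw0 m) (cut_nonneg _ _)
  have hVR : ∀ m x, V m x ≤ M / ε := fun m x =>
    (mul_le_of_le_one_right (hw0 m) (cut_le_one _ _)).trans (hwR m)
  have hVi : ∀ m, Integrable (V m) := fun m => (hci m).const_mul _
  set A' := A.filter fun m => 0 < l m with hA'
  have hVl : ∀ m ∈ A', ∫ x, V m x = l m := fun m hm => by
    have h1 := hA m (Finset.mem_filter.1 hm).2
    simp only [hV, hw]
    rw [integral_const_mul, max_eq_left h1, div_mul_cancel₀ _ (hε.trans_le h1).ne']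
  have hAA : ∑ m ∈ A, l m ^ 2 = ∑ m ∈ A', l m ^ 2 := by
    rw [hA', Finset.sum_filter]
    refine Finset.sum_congr rfl fun m _ => ?_
    split_ifs with h
    · rfl
    · rw [le_antisymm (not_lt.1 h) (hl0 m)]
      norm_num
  rw [hAA]
  set Sg := δ * ∑ m ∈ A', l m ^ 2 with hSg
  set Lz := ∑ n ∈ Finset.range J.card, ψ n * r n
  have hLz : 0 ≤ Lz := Finset.sum_nonneg fun n _ => mul_nonneg (hψ0 n) (hr0 n)
  set L1 := ∑ n ∈ Finset.range J.card, r n
  rcases le_or_gt Sg 0 with hS | hS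
  · exact hS.trans (sq_nonneg _)
  obtain ⟨ν, hν0, hνS⟩ : ∃ ν : ℝ, 0 < ν ∧ Sg = ν ^ 2 :=
    ⟨√Sg, Real.sqrt_pos.2 hS, (Real.sq_sqrt hS.le).symm⟩
  have hB : δ * ∑ m ∈ A', (∫ x, V m x) ^ 2 ≤ ν ^ 2 := by
    rw [← hνS, hSg]
    exact le_of_eq (congrArg _ (Finset.sum_congr rfl fun m hm => by rw [hVl m hm]))
  have hlay := layer (fun j => δ * ∑ m ∈ A', ∫ x, V m x * ‖u m j x‖ ^ 2)
    (fun n => 11 * √(Real.pi / κ) * ν * ψ n +
      2 * δ * (M / ε))
    (fun n => by have := hψ0 n; positivity) J.card J c r rfl (fun j _ => hc j) (fun S _ => by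
      refine (set_log hd S f hf κ τ δ hκ hδ u hu V hVm hV0 (M / ε) (by positivity) hVR hVi A'
        (fun m hm => by rw [hVl m hm]; exact (Finset.mem_filter.1 hm).2) ν hν0 hB).trans ?_
      rw [Finset.sum_add_distrib, ← Finset.mul_sum, Finset.sum_const, Finset.card_range,
        nsmul_eq_mul, mul_comm (S.card : ℝ) (2 * δ * (M / ε))]
      exact add_le_add (mul_le_mul_of_nonneg_left (hψ _) (by positivity)) le_rfl) hr
  have hV2 : ∀ m j, Integrable fun x => V m x * ‖u m j x‖ ^ 2 := fun m j =>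
    (hu2 m j).bdd_mul (c := M / ε) (hVm m).aestronglyMeasurable
      (Eventually.of_forall fun y => by
        rw [Real.norm_of_nonneg (hV0 m y)]
        exact hVR m y)
  have hlow : Sg ≤ ∑ j ∈ J, c j * (δ * ∑ m ∈ A', ∫ x, V m x * ‖u m j x‖ ^ 2) := by
    simp only [hSg, Finset.mul_sum]
    rw [Finset.sum_comm]
    apply Finset.sum_le_sum
    intro m hm
    simp only [mul_left_comm _ δ, ← Finset.mul_sum]
    apply mul_le_mul_of_nonneg_left _ hδ.le
    simp only [← integral_const_mul]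
    have hi := fun j (_ : j ∈ J) => (hV2 m j).const_mul (c j)
    rw [← integral_finsetSum _ hi]
    have e1 : l m ^ 2 = ∫ x, l m * V m x := by
      rw [integral_const_mul, hVl m hm, sq]
    rw [e1]
    apply integral_mono ((hVi m).const_mul _) (integrable_finsetSum _ hi)
    intro x
    simp only [mul_left_comm (c _), ← Finset.mul_sum]
    calc l m * V m x = w m * (l m * cut (l m) (ρ m x)) := by
          simp only [hV]
          ring
      _ ≤ w m * (cut (l m) (ρ m x) * ρ m x) := mul_le_mul_of_nonneg_left (cut_mul _ _) (hw0 m)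
      _ = V m x * ρ m x := by
          simp only [hV]
          ring
  have hfin : ν ^ 2 ≤ 11 * √(Real.pi / κ) * Lz * ν + δ * (2 * (M / ε) * L1) := by
    rw [← hνS]
    refine hlow.trans (hlay.trans (le_of_eq ?_))
    simp only [add_mul, Finset.sum_add_distrib, mul_assoc, ← Finset.mul_sum]
    ring
  rw [hνS]
  exact pow_le_pow_left₀ hν0.le (quad_le (by positivity) hfin) 2

theorem main_w (ψ : ℕ → ℝ) (hψ0 : ∀ n, 0 ≤ ψ n)
    (hψ : ∀ N : ℕ, √((N : ℝ) * (1 + Real.log N)) ≤ ∑ n ∈ Finset.range N, ψ n)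
    (hd : Module.finrank ℝ E = 1) (κ : ℝ) (hκ : 0 < κ) {ι : Type}
    [Countable ι] (f : ι → Lp ℂ 2 (volume : Measure E)) (hf : Orthonormal ℂ f)
    (u : ℝ → ι → Lp ℂ 2 (volume : Measure E))
    (hu : ∀ t j, ((𝓕 (u t j) : Lp ℂ 2 (volume : Measure E)) : E → ℂ) =ᵐ[volume]
      fun ξ => ph (κ * t) ξ * (𝓕 (f j) : Lp ℂ 2 (volume : Measure E)) ξ) (lam : ι → ℂ)
    (rr : ℕ → ℝ≥0∞) (hrr0 : ∀ n, rr n ≤ rr 0)
    (hrr : ∀ (n : ℕ) (S : Finset ι), n < S.card → ∃ j ∈ S, ‖lam j‖ₑ ≤ rr n) :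
    ∫⁻ t, (essSup (fun x => ∑' j, ‖lam j‖ₑ * ‖u t j x‖ₑ ^ 2) volume) ^ 2 ≤
    (ENNReal.ofReal (11 * √(Real.pi / κ)) * ∑' n : ℕ,
      ENNReal.ofReal (ψ n) * rr n) ^ 2 := by
  have hψ1 : 0 < ψ 0 := by
    have h := hψ 1
    simp only [Nat.cast_one, Real.log_one, add_zero, mul_one, Real.sqrt_one, Finset.range_one,
      Finset.sum_singleton] at h
    linarith
  set Lz := ∑' n : ℕ, ENNReal.ofReal (ψ n) * rr n with hLz
  have hπ := Real.pi_pos
  have hC : 0 < 11 * √(Real.pi / κ) := by positivity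
  rcases eq_or_ne Lz ⊤ with htop | htop
  · rw [htop, ENNReal.mul_top (by simpa using hC), ENNReal.top_pow two_ne_zero]
    exact le_top
  have hrt : ∀ n, rr n ≠ ⊤ := by
    intro n h
    have h1 := ENNReal.le_tsum (f := fun n : ℕ => ENNReal.ofReal (ψ n) * rr n) 0
    rw [top_le_iff.1 (h.symm.le.trans (hrr0 n)), ENNReal.mul_top (by simpa using hψ1)] at h1
    exact htop (top_le_iff.1 h1)
  set r : ℕ → ℝ := fun n => (rr n).toReal with hr
  have hr0 : ∀ n, 0 ≤ r n := fun n => ENNReal.toReal_nonneg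
  have hrS : ∀ (n : ℕ) (S : Finset ι), n < S.card → ∃ j ∈ S, ‖lam j‖ ≤ r n := by
    intro n S hS
    obtain ⟨j, hj, h⟩ := hrr n S hS
    refine ⟨j, hj, ?_⟩
    rw [← toReal_enorm]
    exact ENNReal.toReal_mono (hrt n) h
  have hLN : ∀ N : ℕ, ENNReal.ofReal (∑ n ∈ Finset.range N, ψ n * r n) ≤ Lz := by
    intro N
    rw [ENNReal.ofReal_sum_of_nonneg (fun n _ => mul_nonneg (hψ0 n) (hr0 n))]
    refine le_trans (le_of_eq (Finset.sum_congr rfl fun n _ => ?_)) (ENNReal.sum_le_tsum _)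
    rw [ENNReal.ofReal_mul (hψ0 n), ENNReal.ofReal_toReal (hrt n)]
  obtain ⟨F, hFm, hF⟩ := exists_seq_monotone_tendsto_atTop_atTop (Finset ι)
  obtain ⟨q, hq⟩ := exists_surjective_nat ℚ
  set ρ : ℕ → ℝ → E → ℝ := fun n t x => ∑ j ∈ F n, ‖lam j‖ * ‖u t j x‖ ^ 2 with hρ
  set H : ℕ → ℝ → ℝ → ℝ≥0∞ := fun n c t => ∫⁻ x, ENNReal.ofReal (cut c (ρ n t x)) with hH
  have hu2 : ∀ m j, Integrable fun y => ‖u m j y‖ ^ 2 := fun m j =>
    (memLp_two_iff_integrable_sq_norm (Lp.memLp (u m j)).1).1 (Lp.memLp _)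
  have hHr : ∀ n c t, 0 ≤ c → H n c t = ENNReal.ofReal (∫ x, cut c (ρ n t x)) := fun n c t hc =>
    (ofReal_integral_eq_lintegral_ofReal (integrable_cut c hc _ (fun x => by positivity)
      (integrable_finsetSum _ fun j _ => (hu2 t j).const_mul _))
      (Eventually.of_forall fun x => cut_nonneg _ _)).symm
  have hHm : ∀ n c, Measurable (H n c) := by
    intro n c
    obtain ⟨σ, h1, h2⟩ := exists_rho (F n) (fun j => ‖lam j‖) u
      fun j => cont_u κ (f j) (fun t => u t j) fun t => hu t j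
    have h3 := meas_lint (fun r : ℝ => ENNReal.ofReal (cut c r))
      (ENNReal.continuous_ofReal.comp (continuous_cut c)) σ h1
    have h4 : H n c = fun t => ∫⁻ x, ENNReal.ofReal (cut c (σ t x)) := by
      funext t
      apply lintegral_congr_ae
      filter_upwards [h2 t] with x hx
      rw [hx]
    rw [h4]
    exact h3
  set g : ℕ → ℕ → ℝ → ℝ≥0∞ := fun n i t =>
    if (0 ≤ (q i : ℝ) ∧ (q i : ℝ) ≤ n) ∧ ENNReal.ofReal (1 / ((n : ℝ) + 1)) ≤ H n (q i) t then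
      ENNReal.ofReal ((q i : ℝ) ^ 2) else 0 with hg
  set G : ℕ → ℝ → ℝ≥0∞ := fun n t =>
    (Finset.range (n + 1)).sup' Finset.nonempty_range_add_one fun i => g n i t with hG
  have hGm : ∀ n, Measurable (G n) := fun n =>
    Finset.measurable_range_sup'' fun i _ => Measurable.ite
      ((MeasurableSet.const _).inter (measurableSet_le measurable_const (hHm n (q i))))
      measurable_const measurable_const
  have hGl : ∀ (n : ℕ) (t : ℝ), ∃ l : ℝ, 0 ≤ l ∧ l ≤ n ∧ G n t = ENNReal.ofReal (l ^ 2) ∧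
      (0 < l → 1 / ((n : ℝ) + 1) ≤ ∫ x, cut l (ρ n t x)) := by
    intro n t
    obtain ⟨i, -, hi⟩ := Finset.exists_mem_eq_sup' (Finset.nonempty_range_add_one (n := n))
      fun i => g n i t
    by_cases h : (0 ≤ (q i : ℝ) ∧ (q i : ℝ) ≤ n) ∧
        ENNReal.ofReal (1 / ((n : ℝ) + 1)) ≤ H n (q i) t
    · refine ⟨q i, h.1.1, h.1.2, hi.trans (if_pos h), fun _ => ?_⟩
      have h2 := h.2
      rwa [hHr n _ t h.1.1, ENNReal.ofReal_le_ofReal_iff
        (integral_nonneg fun x => cut_nonneg _ _)] at h2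
    · exact ⟨0, le_rfl, Nat.cast_nonneg n, (hi.trans (if_neg h)).trans (by simp),
        fun h0 => absurd h0 (lt_irrefl 0)⟩
  choose l hl0 hlM hlG hlε using hGl
  have hGb : ∀ n, ∫⁻ t, G n t ≤ (ENNReal.ofReal (11 * √(Real.pi / κ)) * Lz) ^ 2 := by
    intro n
    have h2 := shift_limit (G n) (hGm n)
      (11 * √(Real.pi / κ) * ∑ k ∈ Finset.range (F n).card, ψ k * r k)
      (2 * ((n : ℝ) / (1 / ((n : ℝ) + 1))) * ∑ k ∈ Finset.range (F n).card, r k) fun δ hδ s N => by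
        have h2 := dual_w ψ hψ0 hψ hd (F n) f hf κ (κ * s) δ hκ hδ (fun m => u (s + m * δ))
          (fun m j => by
            have := hu (s + m * δ) j
            rwa [show κ * (s + m * δ) = κ * s + m * (κ * δ) by ring] at this)
          (fun j => ‖lam j‖) (fun j => norm_nonneg _) r hr0 (fun k S _ hS => hrS k S hS)
          n (1 / ((n : ℝ) + 1)) (Nat.cast_nonneg n) (by positivity)
          (fun m => l n (s + m * δ)) (fun m => hl0 _ _) (fun m => hlM _ _) (Finset.range N)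
          (fun m => hlε n (s + m * δ))
        refine le_trans (le_of_eq ?_) (ENNReal.ofReal_le_ofReal h2)
        rw [ENNReal.ofReal_mul hδ.le, ENNReal.ofReal_sum_of_nonneg fun m _ => sq_nonneg _]
        simp only [hlG]
    refine h2.trans ?_
    have h3 : 0 ≤ ∑ k ∈ Finset.range (F n).card, ψ k * r k :=
      Finset.sum_nonneg fun k _ => mul_nonneg (hψ0 k) (hr0 k)
    rw [ENNReal.ofReal_pow (by positivity), ENNReal.ofReal_mul hC.le]
    exact pow_le_pow_left' (mul_le_mul_right (hLN _) _) 2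
  refine le_trans (lintegral_mono fun t => ?_) ((lintegral_liminf_le (u := atTop) hGm).trans
    (liminf_le_of_frequently_le' (Frequently.of_forall hGb)))
  set Z := essSup (fun x => ∑' j, ‖lam j‖ₑ * ‖u t j x‖ₑ ^ 2) volume with hZ
  have key : ∀ c : ℚ, 0 ≤ c → ENNReal.ofReal c < Z →
      ENNReal.ofReal ((c : ℝ) ^ 2) ≤ liminf (fun n => G n t) atTop := by
    intro c hc hcZ
    obtain ⟨i, rfl⟩ := hq c
    have hc' : (0 : ℝ) ≤ q i := by exact_mod_cast hc
    obtain ⟨n₀, hn₀⟩ : ∃ n₀, H n₀ (q i) t ≠ 0 := by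
      by_contra h
      push Not at h
      refine absurd hcZ (not_lt.2 (essSup_le_of_ae_le _ ?_))
      have h1 : ∀ n, ∀ᵐ x, ρ n t x ≤ q i := fun n => by
        have h2 := (lintegral_eq_zero_iff' (ENNReal.measurable_ofReal.comp_aemeasurable
          (integrable_cut (q i) hc' (ρ n t) (fun x => by positivity)
            (integrable_finsetSum _ fun j _ => (hu2 t j).const_mul _)).aemeasurable)).1 (h n)
        filter_upwards [h2] with x hx
        exact le_of_cut (ENNReal.ofReal_eq_zero.1 hx)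
      filter_upwards [ae_all_iff.2 h1] with x hx
      have h2 : Tendsto (fun n => ∑ j ∈ F n, ‖lam j‖ₑ * ‖u t j x‖ₑ ^ 2) atTop
          (𝓝 (∑' j, ‖lam j‖ₑ * ‖u t j x‖ₑ ^ 2)) :=
        Tendsto.comp (g := fun S : Finset ι => ∑ j ∈ S, ‖lam j‖ₑ * ‖u t j x‖ₑ ^ 2)
          (ENNReal.summable.hasSum (f := fun j => ‖lam j‖ₑ * ‖u t j x‖ₑ ^ 2)) hF
      refine le_of_tendsto' h2 fun n => le_trans (le_of_eq ?_) (ENNReal.ofReal_le_ofReal (hx n))
      rw [ENNReal.ofReal_sum_of_nonneg (fun j _ => by positivity)]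
      refine Finset.sum_congr rfl fun j _ => ?_
      rw [ENNReal.ofReal_mul (norm_nonneg _), ENNReal.ofReal_pow (norm_nonneg _), ofReal_norm,
        ofReal_norm]
    have h1 : Tendsto (fun n : ℕ => ENNReal.ofReal (1 / ((n : ℝ) + 1))) atTop (𝓝 0) := by
      simpa using ENNReal.tendsto_ofReal (tendsto_one_div_add_atTop_nhds_zero_nat (𝕜 := ℝ))
    apply le_liminf_of_le
    · isBoundedDefault
    filter_upwards [h1.eventually_lt_const (pos_iff_ne_zero.2 hn₀), eventually_ge_atTop n₀,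
      eventually_ge_atTop i, tendsto_natCast_atTop_atTop.eventually_ge_atTop (q i : ℝ)]
      with n e1 e2 e3 e4
    have e5 : H n₀ (q i) t ≤ H n (q i) t := lintegral_mono fun x =>
      ENNReal.ofReal_le_ofReal (cut_mono _ (Finset.sum_le_sum_of_subset_of_nonneg (hFm e2)
        fun j _ _ => by positivity))
    refine le_trans (le_of_eq ?_) (Finset.le_sup' (fun i => g n i t)
      (Finset.mem_range.2 (Nat.lt_succ_of_le e3)))
    exact (if_pos ⟨⟨hc', e4⟩, e1.le.trans e5⟩).symm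
  set L := liminf (fun n => G n t) atTop
  have h1 : Z ≤ L ^ (2 : ℝ)⁻¹ := by
    refine le_of_forall_lt_imp_le_of_dense fun a ha => ?_
    obtain ⟨c, hc, h2, h3⟩ := ENNReal.lt_iff_exists_rat_btwn.1 ha
    refine h2.le.trans ?_
    rw [ENNReal.le_rpow_inv_iff two_pos, ENNReal.rpow_two]
    have h4 := key c hc h3
    rwa [ENNReal.ofReal_pow (by exact_mod_cast hc)] at h4
  rwa [ENNReal.le_rpow_inv_iff two_pos, ENNReal.rpow_two] at h1

end Pool.Agent.Lib.MP_dacecb_an
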